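import Pool.Agent.H77.LT.Geo

/-!
# [H73 LT BOOSTA] The approximate inverse (boosting, MP_0b346b_co), first part

Geometry: `Pool/Agent/H77/LT/Base.lean`, `Geo.lean` (`card_line`: `2m-1` cells on a line,
`card_pair`: two lines of different directions have `1` common cell if they have the same
number, otherwise `2`).

`x` is a function on the cells, `y κ l s` a function on the entries; `uz x y` is a function on the
edges whose vertex sums are `x` and almost `y`, if `(x,y)` is balanced (`uz_entry` in `BoostA2`).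

Proofs.
* `line_sum`: group the cells on the line `(κ,l)` by their line of direction `κ'`
  (`Finset.sum_fiberwise` / `sum_comm`, `card_pair`): `∑ l', (if l = l' then 1 else 2) φ l'`.
* `gz_bd`: `1 + 1 + 2/3 (1 + 1) = 10/3`. `uz_bd`: `1 + 3 * 10/3 = 11`.
* `gz_sum_s`: `∑ s` of all four terms (`∑ s, c = n c`); `gz_sum_l`: `Y - T/n - 2/3 (Y - T/n)` with
  `Y = ∑ l, y κ l s`, `T = ∑ l, ∑ s, y κ l s`.
* `uz_cell`: `gz_sum_s`.
-/

open Finset

namespace H77.LT.Bst

variable {m n : ℕ}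

/-- correction function on entries -/
noncomputable def gz (y : Fin 3 → Fin m → Fin n → ℝ) (κ : Fin 3) (l : Fin m) (s : Fin n) : ℝ :=
  y κ l s - (∑ s', y κ l s') / n -
    2 / 3 * ((∑ l', y κ l' s) / m - (∑ l', ∑ s', y κ l' s') / (m * n))

/-- the correction of the weights -/
noncomputable def uz (x : Cell m → ℝ) (y : Fin 3 → Fin m → Fin n → ℝ) (q : Cell m) (s : Fin n) :
    ℝ :=
  (x q + ∑ κ, gz y κ (ln κ q) s) / n

/-- bounded by `M` and balanced up to `β` -/
structure Bal (M β : ℝ) (x : Cell m → ℝ) (y : Fin 3 → Fin m → Fin n → ℝ) : Prop where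
  x1 : ∀ q, |x q| ≤ M
  y1 : ∀ κ l s, |y κ l s| ≤ M
  li : ∀ κ l, |∑ q ∈ univ.filter (fun q => ln κ q = l), x q - ∑ s, y κ l s| ≤ β
  sy : ∀ κ κ' s, |∑ l, y κ l s - ∑ l, y κ' l s| ≤ β

theorem line_sum {κ κ' : Fin 3} (h : κ ≠ κ') (l : Fin m) (φ : Fin m → ℝ) :
    ∑ q ∈ univ.filter (fun q : Cell m => ln κ q = l), φ (ln κ' q) = 2 * ∑ l', φ l' - φ l := by
  rw [← Finset.sum_fiberwise (univ.filter (fun q : Cell m => ln κ q = l)) (fun q => ln κ' q)]
  have h1 : ∀ l' : Fin m, ∑ q ∈ (univ.filter (fun q : Cell m => ln κ q = l)).filter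
      (fun q => ln κ' q = l'), φ (ln κ' q) = (if l' = l then 1 else 2) * φ l' := by
    intro l'
    rw [Finset.filter_filter, Finset.sum_congr rfl (g := fun _ => φ l'), Finset.sum_const,
      card_pair κ κ' h l l', nsmul_eq_mul]
    · by_cases hl : l' = l
      · subst hl
        simp
      · rw [if_neg (Ne.symm hl), if_neg hl]
        norm_num
    · intro q hq
      rw [(Finset.mem_filter.1 hq).2.2]
  rw [Finset.sum_congr rfl fun l' _ => h1 l']
  have h2 : ∀ l' : Fin m, (if l' = l then (1 : ℝ) else 2) * φ l' =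
      2 * φ l' - (if l' = l then φ l' else 0) := by
    intro l'
    split_ifs <;> ring
  rw [Finset.sum_congr rfl fun l' _ => h2 l', Finset.sum_sub_distrib, ← Finset.mul_sum,
    Finset.sum_ite_eq' univ l φ, if_pos (Finset.mem_univ l)]

theorem boostA_avg {N : ℕ} (hN : 1 ≤ N) {M : ℝ} (φ : Fin N → ℝ) (h : ∀ i, |φ i| ≤ M) :
    |(∑ i, φ i) / N| ≤ M := by
  have hN0 : (0 : ℝ) < N := by exact_mod_cast hN
  rw [abs_div, abs_of_pos hN0, div_le_iff₀ hN0]
  refine (Finset.abs_sum_le_sum_abs _ _).trans ?_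
  refine (Finset.sum_le_card_nsmul _ _ M fun i _ => h i).trans ?_
  rw [Finset.card_univ, Fintype.card_fin, nsmul_eq_mul, mul_comm]

theorem gz_bd {M : ℝ} {y : Fin 3 → Fin m → Fin n → ℝ} (hm : 1 ≤ m) (hn : 1 ≤ n)
    (hy : ∀ κ l s, |y κ l s| ≤ M) (κ : Fin 3) (l : Fin m) (s : Fin n) :
    |gz y κ l s| ≤ 10 / 3 * M := by
  have hm0 : (0 : ℝ) < m := by exact_mod_cast hm
  have hn0 : (0 : ℝ) < n := by exact_mod_cast hn
  have hM : 0 ≤ M := (abs_nonneg _).trans (hy κ l s)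
  have h1 := boostA_avg hn (fun s' => y κ l s') (fun s' => hy κ l s')
  have h2 := boostA_avg hm (fun l' => y κ l' s) (fun l' => hy κ l' s)
  have h3 : |(∑ l', ∑ s', y κ l' s') / (m * n)| ≤ M := by
    have h4 := boostA_avg hm (fun l' => (∑ s', y κ l' s') / n)
      (fun l' => boostA_avg hn (fun s' => y κ l' s') (fun s' => hy κ l' s'))
    rw [← Finset.sum_div, div_div, mul_comm (n : ℝ)] at h4
    exact h4
  have h4 := hy κ l s
  unfold gz
  rw [abs_le] at *
  constructor <;> linarith [h1.1, h1.2, h2.1, h2.2, h3.1, h3.2, h4.1, h4.2]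

theorem gz_sum_s (y : Fin 3 → Fin m → Fin n → ℝ) (hn : 1 ≤ n) (κ : Fin 3) (l : Fin m) :
    ∑ s, gz y κ l s = 0 := by
  have hn0 : (n : ℝ) ≠ 0 := by
    have : n ≠ 0 := by omega
    exact_mod_cast this
  unfold gz
  rw [Finset.sum_sub_distrib, Finset.sum_sub_distrib, Finset.sum_const, Finset.card_univ,
    Fintype.card_fin, nsmul_eq_mul, ← Finset.mul_sum, Finset.sum_sub_distrib, Finset.sum_const,
    Finset.card_univ, Fintype.card_fin, nsmul_eq_mul, ← Finset.sum_div]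
  have h0 : ∑ s, ∑ l', y κ l' s = ∑ l', ∑ s', y κ l' s' := Finset.sum_comm
  have h1 : (n : ℝ) * ((∑ s', y κ l s') / n) = ∑ s', y κ l s' := by field_simp
  have h2 : (n : ℝ) * ((∑ l', ∑ s', y κ l' s') / (m * n)) = (∑ l', ∑ s', y κ l' s') / m := by
    rw [← div_div]
    field_simp
  rw [h0, h1, h2]
  ring

theorem gz_sum_l (y : Fin 3 → Fin m → Fin n → ℝ) (hm : 1 ≤ m) (κ : Fin 3) (s : Fin n) :
    ∑ l, gz y κ l s = 1 / 3 * (∑ l, y κ l s - (∑ l, ∑ s', y κ l s') / n) := by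
  have hm0 : (m : ℝ) ≠ 0 := by
    have : m ≠ 0 := by omega
    exact_mod_cast this
  unfold gz
  rw [Finset.sum_sub_distrib, Finset.sum_sub_distrib, Finset.sum_const, Finset.card_univ,
    Fintype.card_fin, nsmul_eq_mul, ← Finset.sum_div]
  have h1 : (m : ℝ) * (2 / 3 * ((∑ l', y κ l' s) / m - (∑ l', ∑ s', y κ l' s') / (m * n))) =
      2 / 3 * (∑ l', y κ l' s - (∑ l', ∑ s', y κ l' s') / n) := by
    have h2 : (m : ℝ) * ((∑ l', y κ l' s) / m) = ∑ l', y κ l' s := by field_simp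
    have h3 : (m : ℝ) * ((∑ l', ∑ s', y κ l' s') / (m * n)) = (∑ l', ∑ s', y κ l' s') / n := by
      rw [mul_comm (m : ℝ) n, ← div_div]
      field_simp
    rw [mul_left_comm, mul_sub, h2, h3]
  rw [h1]
  ring

theorem uz_bd {M : ℝ} {x : Cell m → ℝ} {y : Fin 3 → Fin m → Fin n → ℝ} (hm : 1 ≤ m) (hn : 1 ≤ n)
    (hx : ∀ q, |x q| ≤ M) (hy : ∀ κ l s, |y κ l s| ≤ M) (q : Cell m) (s : Fin n) :
    |uz x y q s| ≤ 11 * M / n := by
  have hn0 : (0 : ℝ) < n := by exact_mod_cast hn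
  unfold uz
  rw [abs_div, abs_of_pos hn0]
  refine div_le_div_of_nonneg_right ?_ hn0.le
  have h1 : |∑ κ, gz y κ (ln κ q) s| ≤ 3 * (10 / 3 * M) := by
    refine (Finset.abs_sum_le_sum_abs _ _).trans ?_
    refine (Finset.sum_le_card_nsmul _ _ (10 / 3 * M) fun κ _ =>
      gz_bd hm hn hy κ (ln κ q) s).trans ?_
    rw [Finset.card_univ, Fintype.card_fin, nsmul_eq_mul]
    norm_num
  have h2 := hx q
  have h3 := abs_add_le (x q) (∑ κ, gz y κ (ln κ q) s)
  linarith

theorem uz_cell (x : Cell m → ℝ) (y : Fin 3 → Fin m → Fin n → ℝ) (hn : 1 ≤ n) (q : Cell m) :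
    ∑ s, uz x y q s = x q := by
  have hn0 : (n : ℝ) ≠ 0 := by
    have : n ≠ 0 := by omega
    exact_mod_cast this
  unfold uz
  rw [← Finset.sum_div, Finset.sum_add_distrib, Finset.sum_const, Finset.card_univ,
    Fintype.card_fin, nsmul_eq_mul, Finset.sum_comm,
    Finset.sum_congr rfl fun κ _ => gz_sum_s y hn κ (ln κ q), Finset.sum_const_zero, add_zero]
  field_simp

end H77.LT.Bst
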