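import Pool.Agent.H73.LT.BoostA

/-!
# [H73 LT BOOSTAB] The approximate inverse (boosting, MP_0b346b_co), second part

Notation: `X = ∑_{q on l} x q`, `R = ∑ s, y κ l s`, `Y κ = ∑ l, y κ l s`, `T κ = ∑ l, ∑ s, y κ l s`,
`Z κ = Y κ - T κ/n`, `D = 2m-1`.

Proof. By `line_sum` and `gz_sum_l` (`card_line` for the direction `κ` itself) the left side (without absolute value) times
`n` is `X + D gz κ l s + ∑_{κ' ≠ κ} (2/3 Z κ' - gz κ' l s) - n y κ l s`
`= (X - R) + (1 - D/n) R + (D-n) y + 2/3 ∑_{κ' ≠ κ} (Z κ' - Z κ) + (2/(3m)) Z κ - ∑_{κ' ≠ κ} gz κ' l s`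
(`D gz κ l s = D y - (D/n) R - 2D/(3m) Z κ`, `2D/(3m) = 4/3 - 2/(3m)`).
The terms are at most `β`, `4M`, `4M`, `2/3 * 2 * 2β`, `4M/3`, `20M/3` in absolute value; the sum is at most
`4β + 16M`. (`|Z κ' - Z κ| ≤ 2β` as `T κ' - T κ = ∑ s (Y κ' s - Y κ s)` after exchanging the sums; `|Z κ| ≤ 2 m M`;
`0 ≤ β` from `Bal.li`.) For the sum over `κ' ≠ κ` it is convenient to write
`∑ κ', f κ' = f κ + ∑ κ' ∈ univ.erase κ, f κ'` and to use that `univ.erase κ` has two elements.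
-/

open Finset

namespace H77.LT.Bst

variable {m n : ℕ}

private theorem boostAB_three (κ : Fin 3) : ∃ a b : Fin 3, κ ≠ a ∧ κ ≠ b ∧
    ∀ f : Fin 3 → ℝ, ∑ κ', f κ' = f κ + f a + f b := by
  fin_cases κ
  · exact ⟨1, 2, by decide, by decide, fun f => by rw [Fin.sum_univ_three]; simp⟩
  · refine ⟨0, 2, by decide, by decide, fun f => ?_⟩
    rw [Fin.sum_univ_three]
    change f 0 + f 1 + f 2 = f 1 + f 0 + f 2
    ring
  · refine ⟨0, 1, by decide, by decide, fun f => ?_⟩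
    rw [Fin.sum_univ_three]
    change f 0 + f 1 + f 2 = f 2 + f 0 + f 1
    ring

/-- the centred column sum -/
private noncomputable def boostAB_Z (y : Fin 3 → Fin m → Fin n → ℝ) (κ : Fin 3) (s : Fin n) : ℝ :=
  ∑ l, y κ l s - (∑ l, ∑ s', y κ l s') / n

private theorem boostAB_Zdiff {M β : ℝ} {x : Cell m → ℝ} {y : Fin 3 → Fin m → Fin n → ℝ}
    (hn : 1 ≤ n) (hb : Bal M β x y) (κ κ' : Fin 3) (s : Fin n) :
    |boostAB_Z y κ s - boostAB_Z y κ' s| ≤ 2 * β := by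
  have h1 := hb.sy κ κ' s
  have h2 : |(∑ s', (∑ l, y κ l s' - ∑ l, y κ' l s')) / n| ≤ β :=
    boostA_avg hn _ (fun s' => hb.sy κ κ' s')
  have h3 : boostAB_Z y κ s - boostAB_Z y κ' s =
      (∑ l, y κ l s - ∑ l, y κ' l s) - (∑ s', (∑ l, y κ l s' - ∑ l, y κ' l s')) / n := by
    unfold boostAB_Z
    rw [Finset.sum_sub_distrib, Finset.sum_comm (f := fun s' l => y κ l s'),
      Finset.sum_comm (f := fun s' l => y κ' l s')]
    ring
  rw [h3]
  rw [abs_le] at *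
  constructor <;> linarith [h1.1, h1.2, h2.1, h2.2]

private theorem boostAB_sum {M : ℝ} {N : ℕ} (φ : Fin N → ℝ) (h : ∀ i, |φ i| ≤ M) :
    |∑ i, φ i| ≤ N * M := by
  refine (Finset.abs_sum_le_sum_abs _ _).trans ?_
  refine (Finset.sum_le_card_nsmul _ _ M fun i _ => h i).trans ?_
  rw [Finset.card_univ, Fintype.card_fin, nsmul_eq_mul]

private theorem boostAB_Zbd {M : ℝ} {y : Fin 3 → Fin m → Fin n → ℝ} (hn : 1 ≤ n)
    (hy : ∀ κ l s, |y κ l s| ≤ M) (κ : Fin 3) (s : Fin n) :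
    |boostAB_Z y κ s| ≤ 2 * (m * M) := by
  have h1 := boostAB_sum (fun l => y κ l s) (fun l => hy κ l s)
  have h2 : |(∑ s', ∑ l, y κ l s') / n| ≤ m * M :=
    boostA_avg hn _ (fun s' => boostAB_sum (fun l => y κ l s') (fun l => hy κ l s'))
  rw [Finset.sum_comm] at h2
  unfold boostAB_Z
  rw [abs_le] at *
  constructor <;> linarith [h1.1, h1.2, h2.1, h2.2]

theorem uz_entry {M β : ℝ} {x : Cell m → ℝ} {y : Fin 3 → Fin m → Fin n → ℝ} (hm : 1 ≤ m)
    (hn1 : 2 * m - 1 ≤ n) (hn2 : n ≤ 2 * m + 3) (hb : Bal M β x y)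
    (κ : Fin 3) (l : Fin m) (s : Fin n) :
    |∑ q ∈ univ.filter (fun q => ln κ q = l), uz x y q s - y κ l s| ≤ (4 * β + 16 * M) / n := by
  have hn : 1 ≤ n := by omega
  have hm0 : (0 : ℝ) < m := by exact_mod_cast hm
  have hn0 : (0 : ℝ) < n := by exact_mod_cast hn
  obtain ⟨a, b, ha, hb', hsum⟩ := boostAB_three κ
  have hR := boostAB_sum (fun s' => y κ l s') (fun s' => hb.y1 κ l s')
  have hX := hb.li κ l
  have hy := hb.y1 κ l s
  have hZa := boostAB_Zdiff hn hb a κ s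
  have hZb := boostAB_Zdiff hn hb b κ s
  have hZ := boostAB_Zbd hn hb.y1 κ s
  have hga := gz_bd hm hn hb.y1 a l s
  have hgb := gz_bd hm hn hb.y1 b l s
  have hβ : 0 ≤ β := (abs_nonneg _).trans hX
  have hD : ((2 * m - 1 : ℕ) : ℝ) = 2 * m - 1 := by
    rw [Nat.cast_sub (by omega)]
    push_cast
    ring
  have hnD1 : (2 * (m : ℝ) - 1) ≤ n := by
    rw [← hD]
    exact_mod_cast hn1
  have hnD2 : (n : ℝ) ≤ 2 * m + 3 := by exact_mod_cast hn2
  have hgκ : gz y κ l s = y κ l s - (∑ s', y κ l s') / n - 2 / (3 * m) * boostAB_Z y κ s := by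
    unfold gz boostAB_Z
    field_simp
  have hla : ∑ q ∈ univ.filter (fun q : Cell m => ln κ q = l), gz y a (ln a q) s =
      2 / 3 * boostAB_Z y a s - gz y a l s := by
    rw [line_sum ha l (fun l' => gz y a l' s), gz_sum_l y hm a s]
    unfold boostAB_Z
    ring
  have hlb : ∑ q ∈ univ.filter (fun q : Cell m => ln κ q = l), gz y b (ln b q) s =
      2 / 3 * boostAB_Z y b s - gz y b l s := by
    rw [line_sum hb' l (fun l' => gz y b l' s), gz_sum_l y hm b s]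
    unfold boostAB_Z
    ring
  have hlk : ∑ q ∈ univ.filter (fun q : Cell m => ln κ q = l), gz y κ (ln κ q) s =
      (2 * m - 1) * gz y κ l s := by
    rw [Finset.sum_congr rfl (g := fun _ => gz y κ l s), Finset.sum_const, card_line κ l, nsmul_eq_mul, hD]
    intro q hq
    rw [(Finset.mem_filter.1 hq).2]
  have hmain : (∑ q ∈ univ.filter (fun q => ln κ q = l), uz x y q s - y κ l s) * n =
      (∑ q ∈ univ.filter (fun q => ln κ q = l), x q - ∑ s, y κ l s) +
      ((n - (2 * m - 1)) / n * ∑ s, y κ l s) - (n - (2 * m - 1)) * y κ l s +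
      2 / 3 * (boostAB_Z y a s - boostAB_Z y κ s) + 2 / 3 * (boostAB_Z y b s - boostAB_Z y κ s) +
      2 / (3 * m) * boostAB_Z y κ s - (gz y a l s + gz y b l s) := by
    have h1 : ∑ q ∈ univ.filter (fun q => ln κ q = l), uz x y q s =
        (∑ q ∈ univ.filter (fun q => ln κ q = l), x q + (2 * m - 1) * gz y κ l s +
        (2 / 3 * boostAB_Z y a s - gz y a l s) + (2 / 3 * boostAB_Z y b s - gz y b l s)) / n := by
      rw [← hla, ← hlb, ← hlk]
      unfold uz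
      rw [← Finset.sum_div, Finset.sum_add_distrib]
      congr 1
      rw [Finset.sum_congr rfl (fun q _ => hsum (fun κ' => gz y κ' (ln κ' q) s)), Finset.sum_add_distrib,
        Finset.sum_add_distrib]
      ring
    rw [h1, hgκ]
    field_simp
    ring
  rw [le_div_iff₀ hn0, ← abs_of_pos hn0, ← abs_mul, hmain]
  have t1 : |(n - (2 * m - 1)) / n * ∑ s, y κ l s| ≤ 4 * M := by
    rw [abs_mul, abs_div, abs_of_pos hn0, abs_of_nonneg (by linarith)]
    have h2 : ((n : ℝ) - (2 * m - 1)) / n * |∑ s, y κ l s| ≤ (n - (2 * m - 1)) / n * (n * M) :=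
      mul_le_mul_of_nonneg_left hR (div_nonneg (by linarith) hn0.le)
    have h3 : ((n : ℝ) - (2 * m - 1)) / n * (n * M) = (n - (2 * m - 1)) * M := by
      field_simp
    have hM : 0 ≤ M := (abs_nonneg _).trans hy
    rw [h3] at h2
    nlinarith
  have t2 : |(n - (2 * m - 1)) * y κ l s| ≤ 4 * M := by
    rw [abs_mul, abs_of_nonneg (by linarith)]
    have hM : 0 ≤ M := (abs_nonneg _).trans hy
    have h2 : ((n : ℝ) - (2 * m - 1)) * |y κ l s| ≤ (n - (2 * m - 1)) * M :=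
      mul_le_mul_of_nonneg_left hy (by linarith)
    nlinarith
  have t3 : |2 / (3 * m) * boostAB_Z y κ s| ≤ 4 / 3 * M := by
    rw [abs_mul, abs_of_pos (by positivity)]
    have h2 : 2 / (3 * (m : ℝ)) * |boostAB_Z y κ s| ≤ 2 / (3 * m) * (2 * (m * M)) :=
      mul_le_mul_of_nonneg_left hZ (by positivity)
    have h3 : 2 / (3 * (m : ℝ)) * (2 * (m * M)) = 4 / 3 * M := by
      field_simp
      ring
    linarith
  rw [abs_le] at *
  constructor <;> linarith [t1.1, t1.2, t2.1, t2.2, t3.1, t3.2, hX.1, hX.2, hZa.1, hZa.2, hZb.1, hZb.2,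
    hga.1, hga.2, hgb.1, hgb.2]

end H77.LT.Bst
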