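import Pool.Agent.H77.LT.Geo
import Pool.Agent.H77.LT.PMl

/-!
# [H73 LT BOOSTB] Available edges (boosting, MP_0b346b_co)

An edge `(q,s)` is available if `ed q s` is disjoint from `C`. `mem_ed_inl`, `mem_ed_inr` (`PMl`): the vertices of
`ed q s` are `inl q` and the entries `(κ, ln κ q, s)`.

Proofs.
* `av_cell`: if `inl q ∉ C` and `(q,s)` is not available then `(κ, ln κ q, s) ∈ C` for some `κ`; for given `κ` the number of
  these `s` is at most `deg C (entries of the line (κ, ln κ q))` (`s ↦ inr (κ, ln κ q, s)` is injective into the filter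
  which defines `deg`), so at most `L`.
* `av_entry`: `inr (κ,l,s) ∉ C`. If `(q,s)` with `ln κ q = l` is not available then `inl q ∈ C`: at most `deg C (inl (κ,l)) ≤ L`
  cells; or `(κ', ln κ' q, s) ∈ C` for some `κ' ≠ κ`: for each line `l'` with `(κ',l',s) ∈ C` (at most
  `deg C (inr (inr (κ',s))) ≤ L` lines) at most `2` cells (`card_pair`); two values of `κ'`.
* `compl_*`: number of vertices of a star outside `C` + `deg C` = size of the star (`card_line` for cells).

-/

open Finset

namespace H77.LT.Bst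

variable {m n : ℕ}

/-- available edges -/
def Av (C : Finset (Vt m n)) (q : Cell m) (s : Fin n) : Prop := Disjoint (ed q s) C

instance (C : Finset (Vt m n)) (q : Cell m) (s : Fin n) : Decidable (Av C q s) := by
  unfold Av; infer_instance

theorem av_iff (C : Finset (Vt m n)) (q : Cell m) (s : Fin n) :
    Av C q s ↔ ((Sum.inl q : Vt m n) ∉ C ∧ ∀ κ, (Sum.inr (κ, ln κ q, s) : Vt m n) ∉ C) := by
  unfold Av
  rw [Finset.disjoint_left]
  constructor
  · intro h
    exact ⟨h ((mem_ed_inl q q s).2 rfl), fun κ => h ((mem_ed_inr q s s κ _).2 ⟨rfl, rfl⟩)⟩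
  · rintro ⟨h1, h2⟩ v hv hC
    rcases v with q' | ⟨κ, l, s'⟩
    · rw [mem_ed_inl] at hv
      subst hv
      exact h1 hC
    · rw [mem_ed_inr] at hv
      obtain ⟨rfl, rfl⟩ := hv
      exact h2 κ hC

theorem boostB_deg_line (C : Finset (Vt m n)) (κ : Fin 3) (l : Fin m) :
    (univ.filter (fun s : Fin n => (Sum.inr (κ, l, s) : Vt m n) ∈ C)).card =
      deg C (Sum.inr (Sum.inl (κ, l))) := by
  unfold deg
  refine Finset.card_bij (fun s _ => (Sum.inr (κ, l, s) : Vt m n)) ?_ ?_ ?_
  · intro s hs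
    rw [Finset.mem_filter] at hs ⊢
    refine ⟨hs.2, ?_⟩
    rw [mem_star_inr]
    exact Or.inl rfl
  · intro s _ s' _ h
    have h1 := Sum.inr.inj h
    simp only [Prod.mk.injEq] at h1
    exact h1.2.2
  · intro v hv
    rw [Finset.mem_filter] at hv
    obtain ⟨hv1, hv2⟩ := hv
    rcases v with q | ⟨κ', l', s'⟩
    · rw [mem_star_inl] at hv2
      obtain ⟨κ', h⟩ := hv2
      exact absurd h (by simp)
    · rw [mem_star_inr] at hv2
      rcases hv2 with h | h
      · have h1 := Sum.inl.inj (Sum.inr.inj h)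
        simp only [Prod.mk.injEq] at h1
        obtain ⟨h2, h3⟩ := h1
        subst h2
        subst h3
        exact ⟨s', by simpa using hv1, rfl⟩
      · exact absurd (Sum.inr.inj h) (by simp)

theorem boostB_deg_symb (C : Finset (Vt m n)) (κ : Fin 3) (s : Fin n) :
    (univ.filter (fun l : Fin m => (Sum.inr (κ, l, s) : Vt m n) ∈ C)).card =
      deg C (Sum.inr (Sum.inr (κ, s))) := by
  unfold deg
  refine Finset.card_bij (fun l _ => (Sum.inr (κ, l, s) : Vt m n)) ?_ ?_ ?_
  · intro l hl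
    rw [Finset.mem_filter] at hl ⊢
    refine ⟨hl.2, ?_⟩
    rw [mem_star_inr]
    exact Or.inr rfl
  · intro l _ l' _ h
    have h1 := Sum.inr.inj h
    simp only [Prod.mk.injEq] at h1
    exact h1.2.1
  · intro v hv
    rw [Finset.mem_filter] at hv
    obtain ⟨hv1, hv2⟩ := hv
    rcases v with q | ⟨κ', l', s'⟩
    · rw [mem_star_inl] at hv2
      obtain ⟨κ', h⟩ := hv2
      exact absurd h (by simp)
    · rw [mem_star_inr] at hv2
      rcases hv2 with h | h
      · exact absurd (Sum.inr.inj h) (by simp)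
      · have h1 := Sum.inr.inj (Sum.inr.inj h)
        simp only [Prod.mk.injEq] at h1
        obtain ⟨h2, h3⟩ := h1
        subst h2
        subst h3
        exact ⟨l', by simpa using hv1, rfl⟩

theorem boostB_deg_cells (C : Finset (Vt m n)) (κ : Fin 3) (l : Fin m) :
    (univ.filter (fun q : Cell m => ln κ q = l ∧ (Sum.inl q : Vt m n) ∈ C)).card =
      deg C (Sum.inl (κ, l)) := by
  unfold deg
  refine Finset.card_bij (fun q _ => (Sum.inl q : Vt m n)) ?_ ?_ ?_
  · intro q hq
    rw [Finset.mem_filter] at hq ⊢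
    refine ⟨hq.2.2, ?_⟩
    rw [mem_star_inl]
    exact ⟨κ, by rw [hq.2.1]⟩
  · intro q _ q' _ h
    exact Sum.inl.inj h
  · intro v hv
    rw [Finset.mem_filter] at hv
    obtain ⟨hv1, hv2⟩ := hv
    rcases v with q | ⟨κ', l', s'⟩
    · rw [mem_star_inl] at hv2
      obtain ⟨κ', h⟩ := hv2
      have h1 := Sum.inl.inj h
      simp only [Prod.mk.injEq] at h1
      obtain ⟨h2, h3⟩ := h1
      subst h2
      exact ⟨q, by simpa using ⟨h3.symm, hv1⟩, rfl⟩
    · rw [mem_star_inr] at hv2
      rcases hv2 with h | h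
      · exact absurd h (by simp)
      · exact absurd h (by simp)

theorem av_cell {L : ℝ} (C : Finset (Vt m n)) (hC : ∀ σ, (deg C σ : ℝ) ≤ L) (q : Cell m)
    (hq : (Sum.inl q : Vt m n) ∉ C) :
    ((univ.filter (fun s : Fin n => ¬ Av C q s)).card : ℝ) ≤ 3 * L := by
  have h1 : univ.filter (fun s : Fin n => ¬ Av C q s) ⊆ (univ : Finset (Fin 3)).biUnion
      (fun κ => univ.filter (fun s : Fin n => (Sum.inr (κ, ln κ q, s) : Vt m n) ∈ C)) := by
    intro s hs
    rw [Finset.mem_filter] at hs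
    rw [Finset.mem_biUnion]
    by_contra hcon
    apply hs.2
    rw [av_iff]
    refine ⟨hq, fun κ hκ => hcon ⟨κ, Finset.mem_univ _, ?_⟩⟩
    rw [Finset.mem_filter]
    exact ⟨Finset.mem_univ _, hκ⟩
  have h2 : (univ.filter (fun s : Fin n => ¬ Av C q s)).card ≤
      ∑ κ : Fin 3, deg C (Sum.inr (Sum.inl (κ, ln κ q))) := by
    refine (Finset.card_le_card h1).trans (Finset.card_biUnion_le.trans ?_)
    exact Finset.sum_le_sum fun κ _ => (boostB_deg_line C κ (ln κ q)).le
  have h3 : ((univ.filter (fun s : Fin n => ¬ Av C q s)).card : ℝ) ≤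
      ∑ κ : Fin 3, (deg C (Sum.inr (Sum.inl (κ, ln κ q))) : ℝ) := by
    exact_mod_cast h2
  refine h3.trans ?_
  refine (Finset.sum_le_card_nsmul _ _ L fun κ _ => hC _).trans ?_
  rw [Finset.card_univ, Fintype.card_fin, nsmul_eq_mul]
  norm_num

theorem av_entry {L : ℝ} (C : Finset (Vt m n)) (hC : ∀ σ, (deg C σ : ℝ) ≤ L) (κ : Fin 3)
    (l : Fin m) (s : Fin n) (hq : (Sum.inr (κ, l, s) : Vt m n) ∉ C) :
    ((univ.filter (fun q : Cell m => ln κ q = l ∧ ¬ Av C q s)).card : ℝ) ≤ 5 * L := by
  have h1 : univ.filter (fun q : Cell m => ln κ q = l ∧ ¬ Av C q s) ⊆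
      univ.filter (fun q : Cell m => ln κ q = l ∧ (Sum.inl q : Vt m n) ∈ C) ∪
      (univ.erase κ).biUnion (fun κ' => univ.filter (fun q : Cell m =>
        ln κ q = l ∧ (Sum.inr (κ', ln κ' q, s) : Vt m n) ∈ C)) := by
    intro q hq1
    rw [Finset.mem_filter] at hq1
    obtain ⟨_, h2, h3⟩ := hq1
    rw [Finset.mem_union]
    by_cases h4 : (Sum.inl q : Vt m n) ∈ C
    · left
      rw [Finset.mem_filter]
      exact ⟨Finset.mem_univ _, h2, h4⟩
    · right
      rw [Finset.mem_biUnion]
      by_contra hcon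
      apply h3
      rw [av_iff]
      refine ⟨h4, fun κ' hκ' => ?_⟩
      by_cases h5 : κ' = κ
      · subst h5
        rw [h2] at hκ'
        exact hq hκ'
      · refine hcon ⟨κ', ?_, ?_⟩
        · rw [Finset.mem_erase]
          exact ⟨h5, Finset.mem_univ _⟩
        · rw [Finset.mem_filter]
          exact ⟨Finset.mem_univ _, h2, hκ'⟩
  have h2 : ∀ κ' ∈ univ.erase κ, (univ.filter (fun q : Cell m =>
        ln κ q = l ∧ (Sum.inr (κ', ln κ' q, s) : Vt m n) ∈ C)).card ≤
        2 * deg C (Sum.inr (Sum.inr (κ', s))) := by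
    intro κ' hκ'
    rw [Finset.mem_erase] at hκ'
    rw [← boostB_deg_symb C κ' s]
    refine Finset.card_le_mul_card_image_of_maps_to (f := fun q => ln κ' q) ?_ 2 ?_
    · intro q hq1
      rw [Finset.mem_filter] at hq1 ⊢
      exact ⟨Finset.mem_univ _, hq1.2.2⟩
    · intro l' _
      refine (Finset.card_le_card (t := univ.filter
        (fun q : Cell m => ln κ q = l ∧ ln κ' q = l')) ?_).trans ?_
      · intro q hq1
        rw [Finset.mem_filter, Finset.mem_filter] at hq1
        rw [Finset.mem_filter]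
        exact ⟨Finset.mem_univ _, hq1.1.2.1, hq1.2⟩
      · rw [card_pair κ κ' (Ne.symm hκ'.1) l l']
        split_ifs <;> omega
  have h3 : (univ.filter (fun q : Cell m => ln κ q = l ∧ ¬ Av C q s)).card ≤
      deg C (Sum.inl (κ, l)) + ∑ κ' ∈ univ.erase κ, 2 * deg C (Sum.inr (Sum.inr (κ', s))) := by
    refine (Finset.card_le_card h1).trans ((Finset.card_union_le _ _).trans ?_)
    refine Nat.add_le_add (boostB_deg_cells C κ l).le ?_
    exact Finset.card_biUnion_le.trans (Finset.sum_le_sum h2)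
  have h4 : ((univ.filter (fun q : Cell m => ln κ q = l ∧ ¬ Av C q s)).card : ℝ) ≤
      (deg C (Sum.inl (κ, l)) : ℝ) +
        ∑ κ' ∈ univ.erase κ, 2 * (deg C (Sum.inr (Sum.inr (κ', s))) : ℝ) := by
    exact_mod_cast h3
  refine h4.trans ?_
  have h5 : ∑ κ' ∈ univ.erase κ, 2 * (deg C (Sum.inr (Sum.inr (κ', s))) : ℝ) ≤ 2 * (2 * L) := by
    refine (Finset.sum_le_card_nsmul _ _ (2 * L) fun κ' _ => ?_).trans ?_
    · have := hC (Sum.inr (Sum.inr (κ', s)))
      linarith
    · rw [Finset.card_erase_of_mem (Finset.mem_univ _), Finset.card_univ, Fintype.card_fin,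
        nsmul_eq_mul]
      norm_num
  have h6 := hC (Sum.inl (κ, l))
  linarith

/-- number of cells of a line outside `C` -/
theorem compl_cells (C : Finset (Vt m n)) (κ : Fin 3) (l : Fin m) :
    (univ.filter (fun q : Cell m => ln κ q = l ∧ (Sum.inl q : Vt m n) ∉ C)).card +
      deg C (Sum.inl (κ, l)) = 2 * m - 1 := by
  rw [← boostB_deg_cells C κ l, ← card_line κ l,
    ← Finset.card_filter_add_card_filter_not (s := univ.filter (fun q : Cell m => ln κ q = l))
      (fun q : Cell m => (Sum.inl q : Vt m n) ∈ C), Finset.filter_filter, Finset.filter_filter,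
    Nat.add_comm]

/-- number of entries of a line outside `C` -/
theorem compl_line (C : Finset (Vt m n)) (κ : Fin 3) (l : Fin m) :
    (univ.filter (fun s : Fin n => (Sum.inr (κ, l, s) : Vt m n) ∉ C)).card +
      deg C (Sum.inr (Sum.inl (κ, l))) = n := by
  rw [← boostB_deg_line C κ l, Nat.add_comm]
  have h := Finset.card_filter_add_card_filter_not (s := (univ : Finset (Fin n)))
      (fun s : Fin n => (Sum.inr (κ, l, s) : Vt m n) ∈ C)
  rw [Finset.card_univ, Fintype.card_fin] at h
  exact h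

/-- number of entries of a symbol outside `C` -/
theorem compl_symb (C : Finset (Vt m n)) (κ : Fin 3) (s : Fin n) :
    (univ.filter (fun l : Fin m => (Sum.inr (κ, l, s) : Vt m n) ∉ C)).card +
      deg C (Sum.inr (Sum.inr (κ, s))) = m := by
  rw [← boostB_deg_symb C κ s, Nat.add_comm]
  have h := Finset.card_filter_add_card_filter_not (s := (univ : Finset (Fin m)))
      (fun l : Fin m => (Sum.inr (κ, l, s) : Vt m n) ∈ C)
  rw [Finset.card_univ, Fintype.card_fin] at h
  exact h

end H77.LT.Bst
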