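import Pool.Agent.H73.LT.BoostAB
import Pool.Agent.H73.LT.BoostB

/-!
# [H73 LT BOOSTC] One step of the boosting (MP_0b346b_co)

`w q s` weights, `sQ`, `sE` the vertex sums over the available edges, `eQ`, `eE` the errors (zero on `C`).
`β` = bound of the imbalance of `C`, `L` = bound of the degrees of `C`.

Proofs.
* `err_bal`: `sQ` summed over the cells of the line `(κ,l)` = `sE κ l` summed over `s` (`sum_comm`; both are the sum of `w` over
  the available edges `(q,s)` with `ln κ q = l`); cells in `C` and entries in `C` lie on no available edge (`av_iff`), so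
  `∑_{q on l} eQ q = #{q on l, q ∉ C} - ∑ sQ` and `∑ s, eE κ l s = #{s, (κ,l,s) ∉ C} - ∑ s, sE κ l s`; `compl_cells`,
  `compl_line` and the hypothesis. In the same way `∑ l, sE κ l s = ∑_q [available] w q s` for every `κ`, `compl_symb`.
* `err_step`: for `inl q ∉ C`: `eQ (w + u) q = eQ w q - ∑_s [av] u q s = eQ w q - x q + ∑_s [not av] u q s` with `x = eQ w`
  (`uz_cell`), so it is at most `3L * 11M/n` (`av_cell`, `uz_bd`). For `inr (κ,l,s) ∉ C`: `uz_entry`, `av_entry`, `uz_bd`:
  `(4β + 16M)/n + 5L * 11M/n`.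
* `err_init`: `w = 1/n`: `eQ = #{s not av}/n ≤ 3L/n`; `eE = 1 - (2m-1)/n + #{not av}/n ≤ 4/n + 5L/n`.
-/

open Finset

namespace H77.LT.Bst

variable {m n : ℕ}

/-- vertex sums at cells -/
noncomputable def sQ (C : Finset (Vt m n)) (w : Cell m → Fin n → ℝ) (q : Cell m) : ℝ :=
  ∑ s ∈ univ.filter (fun s : Fin n => Av C q s), w q s

/-- vertex sums at entries -/
noncomputable def sE (C : Finset (Vt m n)) (w : Cell m → Fin n → ℝ) (κ : Fin 3) (l : Fin m)
    (s : Fin n) : ℝ :=
  ∑ q ∈ univ.filter (fun q : Cell m => ln κ q = l ∧ Av C q s), w q s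

/-- errors at cells -/
noncomputable def eQ (C : Finset (Vt m n)) (w : Cell m → Fin n → ℝ) (q : Cell m) : ℝ :=
  if (Sum.inl q : Vt m n) ∈ C then 0 else 1 - sQ C w q

/-- errors at entries -/
noncomputable def eE (C : Finset (Vt m n)) (w : Cell m → Fin n → ℝ) (κ : Fin 3) (l : Fin m)
    (s : Fin n) : ℝ :=
  if (Sum.inr (κ, l, s) : Vt m n) ∈ C then 0 else 1 - sE C w κ l s

theorem boostC_eQ (C : Finset (Vt m n)) (w : Cell m → Fin n → ℝ) (q : Cell m) :
    eQ C w q = (if (Sum.inl q : Vt m n) ∉ C then (1 : ℝ) else 0) - sQ C w q := by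
  unfold eQ
  by_cases h : (Sum.inl q : Vt m n) ∈ C
  · have h1 : sQ C w q = 0 := by
      unfold sQ
      rw [Finset.filter_false_of_mem, Finset.sum_empty]
      intro s _ hs
      exact ((av_iff C q s).1 hs).1 h
    rw [if_pos h, if_neg (not_not.2 h), h1]
    ring
  · rw [if_neg h, if_pos h]

theorem boostC_eE (C : Finset (Vt m n)) (w : Cell m → Fin n → ℝ) (κ : Fin 3) (l : Fin m)
    (s : Fin n) :
    eE C w κ l s = (if (Sum.inr (κ, l, s) : Vt m n) ∉ C then (1 : ℝ) else 0) - sE C w κ l s := by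
  unfold eE
  by_cases h : (Sum.inr (κ, l, s) : Vt m n) ∈ C
  · have h1 : sE C w κ l s = 0 := by
      unfold sE
      rw [Finset.filter_false_of_mem, Finset.sum_empty]
      rintro q _ ⟨hq, hs⟩
      have h2 := ((av_iff C q s).1 hs).2 κ
      rw [hq] at h2
      exact h2 h
    rw [if_pos h, if_neg (not_not.2 h), h1]
    ring
  · rw [if_neg h, if_pos h]

theorem boostC_sum_line (C : Finset (Vt m n)) (w : Cell m → Fin n → ℝ) (κ : Fin 3) (l : Fin m) :
    ∑ q ∈ univ.filter (fun q => ln κ q = l), sQ C w q = ∑ s, sE C w κ l s := by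
  unfold sQ sE
  refine Finset.sum_comm' ?_
  intro q s
  simp only [Finset.mem_filter, Finset.mem_univ, true_and, and_true]

theorem boostC_sum_symb (C : Finset (Vt m n)) (w : Cell m → Fin n → ℝ) (κ : Fin 3) (s : Fin n) :
    ∑ l, sE C w κ l s = ∑ q ∈ univ.filter (fun q : Cell m => Av C q s), w q s := by
  unfold sE
  rw [← Finset.sum_fiberwise (univ.filter (fun q : Cell m => Av C q s)) (fun q => ln κ q)]
  refine Finset.sum_congr rfl fun l _ => ?_
  rw [Finset.filter_filter]
  refine Finset.sum_congr ?_ fun _ _ => rfl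
  ext q
  simp only [Finset.mem_filter, Finset.mem_univ, true_and]
  exact and_comm

theorem err_bal {M β : ℝ} (C : Finset (Vt m n)) (w : Cell m → Fin n → ℝ) (hm : 1 ≤ m)
    (hb1 : ∀ κ l, |(deg C (Sum.inl (κ, l)) : ℝ)
        - ((deg C (Sum.inr (Sum.inl (κ, l))) : ℝ) - (n - (2 * m - 1)))| ≤ β)
    (hb2 : ∀ κ κ' s, |(deg C (Sum.inr (Sum.inr (κ, s))) : ℝ) - deg C (Sum.inr (Sum.inr (κ', s)))|
      ≤ β)
    (h1 : ∀ q, |eQ C w q| ≤ M) (h2 : ∀ κ l s, |eE C w κ l s| ≤ M) :
    Bal M β (eQ C w) (eE C w) := by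
  refine ⟨h1, h2, fun κ l => ?_, fun κ κ' s => ?_⟩
  · have h3 : ∑ q ∈ univ.filter (fun q => ln κ q = l), eQ C w q =
        (2 * m - 1 : ℝ) - deg C (Sum.inl (κ, l)) - ∑ s, sE C w κ l s := by
      rw [Finset.sum_congr rfl fun q _ => boostC_eQ C w q, Finset.sum_sub_distrib,
        boostC_sum_line, Finset.sum_boole, Finset.filter_filter]
      have h5 := compl_cells C κ l
      have h6 : ((univ.filter (fun q : Cell m => ln κ q = l ∧ (Sum.inl q : Vt m n) ∉ C)).card : ℝ)
          + deg C (Sum.inl (κ, l)) = 2 * m - 1 := by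
        have h7 : (((univ.filter (fun q : Cell m =>
            ln κ q = l ∧ (Sum.inl q : Vt m n) ∉ C)).card + deg C (Sum.inl (κ, l)) : ℕ) : ℝ) =
            ((2 * m - 1 : ℕ) : ℝ) := by rw [h5]
        rw [Nat.cast_sub (by omega)] at h7
        push_cast at h7
        exact h7
      linarith
    have h4 : ∑ s, eE C w κ l s =
        (n : ℝ) - deg C (Sum.inr (Sum.inl (κ, l))) - ∑ s, sE C w κ l s := by
      rw [Finset.sum_congr rfl fun s _ => boostC_eE C w κ l s, Finset.sum_sub_distrib,
        Finset.sum_boole]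
      have h5 := compl_line C κ l
      have h6 : ((univ.filter (fun s : Fin n => (Sum.inr (κ, l, s) : Vt m n) ∉ C)).card : ℝ)
          + deg C (Sum.inr (Sum.inl (κ, l))) = n := by
        exact_mod_cast h5
      linarith
    rw [h3, h4]
    have h5 := hb1 κ l
    rw [abs_le] at h5 ⊢
    constructor <;> linarith [h5.1, h5.2]
  · have h3 : ∀ κ, ∑ l, eE C w κ l s = (m : ℝ) - deg C (Sum.inr (Sum.inr (κ, s))) -
        ∑ q ∈ univ.filter (fun q : Cell m => Av C q s), w q s := by
      intro κ
      rw [Finset.sum_congr rfl fun l _ => boostC_eE C w κ l s, Finset.sum_sub_distrib,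
        Finset.sum_boole, boostC_sum_symb]
      have h5 := compl_symb C κ s
      have h6 : ((univ.filter (fun l : Fin m => (Sum.inr (κ, l, s) : Vt m n) ∉ C)).card : ℝ)
          + deg C (Sum.inr (Sum.inr (κ, s))) = m := by
        exact_mod_cast h5
      linarith
    rw [h3 κ, h3 κ']
    have h5 := hb2 κ κ' s
    rw [abs_le] at h5 ⊢
    constructor <;> linarith [h5.1, h5.2]

theorem boostC_sum_bd {ι : Type*} (t : Finset ι) (f : ι → ℝ) {a b : ℝ} (hb : 0 ≤ b)
    (h1 : ∀ i ∈ t, |f i| ≤ b) (h2 : (t.card : ℝ) ≤ a) : |∑ i ∈ t, f i| ≤ a * b := by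
  refine (Finset.abs_sum_le_sum_abs _ _).trans ?_
  refine (Finset.sum_le_card_nsmul _ _ b h1).trans ?_
  rw [nsmul_eq_mul]
  exact mul_le_mul_of_nonneg_right h2 hb

theorem err_step {M β L : ℝ} (C : Finset (Vt m n)) (w : Cell m → Fin n → ℝ) (hm : 1 ≤ m)
    (hn1 : 2 * m - 1 ≤ n) (hn2 : n ≤ 2 * m + 3) (hC : ∀ σ, (deg C σ : ℝ) ≤ L)
    (hb : Bal M β (eQ C w) (eE C w)) :
    (∀ q, |eQ C (fun q s => w q s + uz (eQ C w) (eE C w) q s) q| ≤
      (4 * β + 16 * M + 55 * L * M) / n) ∧
    ∀ κ l s, |eE C (fun q s => w q s + uz (eQ C w) (eE C w) q s) κ l s| ≤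
      (4 * β + 16 * M + 55 * L * M) / n := by
  have hn : 1 ≤ n := by omega
  have hn0 : (0 : ℝ) < n := by exact_mod_cast hn
  have hβ : 0 ≤ β := (abs_nonneg _).trans (hb.li 0 ⟨0, by omega⟩)
  have hM : 0 ≤ M := (abs_nonneg _).trans (hb.y1 0 ⟨0, by omega⟩ ⟨0, by omega⟩)
  have hL : 0 ≤ L := (Nat.cast_nonneg _).trans (hC (Sum.inl (0, ⟨0, by omega⟩)))
  have hLM : 0 ≤ L * M := mul_nonneg hL hM
  have hB : 0 ≤ 11 * M / (n : ℝ) := by positivity
  have hR : 0 ≤ (4 * β + 16 * M + 55 * L * M) / (n : ℝ) := by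
    apply div_nonneg _ hn0.le
    nlinarith
  constructor
  · intro q
    by_cases hq : (Sum.inl q : Vt m n) ∈ C
    · unfold eQ
      rw [if_pos hq, abs_zero]
      exact hR
    · have h1 : eQ C (fun q s => w q s + uz (eQ C w) (eE C w) q s) q =
          ∑ s ∈ univ.filter (fun s : Fin n => ¬ Av C q s), uz (eQ C w) (eE C w) q s := by
        have h2 : sQ C (fun q s => w q s + uz (eQ C w) (eE C w) q s) q =
            sQ C w q + ∑ s ∈ univ.filter (fun s : Fin n => Av C q s),
              uz (eQ C w) (eE C w) q s := by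
          unfold sQ
          rw [Finset.sum_add_distrib]
        have h3 := Finset.sum_filter_add_sum_filter_not (univ : Finset (Fin n))
          (fun s : Fin n => Av C q s) (fun s => uz (eQ C w) (eE C w) q s)
        rw [uz_cell (eQ C w) (eE C w) hn q, boostC_eQ C w q, if_pos hq] at h3
        rw [boostC_eQ C _ q, if_pos hq, h2]
        linarith
      rw [h1]
      refine (boostC_sum_bd _ _ hB (fun s _ => uz_bd hm hn hb.x1 hb.y1 q s)
        (av_cell C hC q hq)).trans ?_
      rw [mul_div_assoc', div_le_div_iff_of_pos_right hn0]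
      nlinarith
  · intro κ l s
    by_cases hq : (Sum.inr (κ, l, s) : Vt m n) ∈ C
    · unfold eE
      rw [if_pos hq, abs_zero]
      exact hR
    · have h1 : eE C (fun q s => w q s + uz (eQ C w) (eE C w) q s) κ l s =
          (eE C w κ l s - ∑ q ∈ univ.filter (fun q => ln κ q = l), uz (eQ C w) (eE C w) q s) +
          ∑ q ∈ univ.filter (fun q : Cell m => ln κ q = l ∧ ¬ Av C q s),
            uz (eQ C w) (eE C w) q s := by
        have h2 : sE C (fun q s => w q s + uz (eQ C w) (eE C w) q s) κ l s =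
            sE C w κ l s + ∑ q ∈ univ.filter (fun q : Cell m => ln κ q = l ∧ Av C q s),
              uz (eQ C w) (eE C w) q s := by
          unfold sE
          rw [Finset.sum_add_distrib]
        have h3 := Finset.sum_filter_add_sum_filter_not
          (univ.filter (fun q : Cell m => ln κ q = l))
          (fun q : Cell m => Av C q s) (fun q => uz (eQ C w) (eE C w) q s)
        rw [Finset.filter_filter, Finset.filter_filter] at h3
        rw [boostC_eE C _ κ l s, boostC_eE C w κ l s, if_pos hq, h2]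
        linarith
      rw [h1]
      have h2 := uz_entry hm hn1 hn2 hb κ l s
      have h3 := boostC_sum_bd (univ.filter (fun q : Cell m => ln κ q = l ∧ ¬ Av C q s))
        (fun q => uz (eQ C w) (eE C w) q s) hB (fun q _ => uz_bd hm hn hb.x1 hb.y1 q s)
        (av_entry C hC κ l s hq)
      have h4 : (4 * β + 16 * M + 55 * L * M) / (n : ℝ) =
          (4 * β + 16 * M) / n + 5 * L * (11 * M / n) := by
        field_simp
        ring
      rw [h4]
      rw [abs_sub_comm] at h2
      exact (abs_add_le _ _).trans (add_le_add h2 h3)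

theorem err_init {L : ℝ} (C : Finset (Vt m n)) (hm : 1 ≤ m)
    (hn1 : 2 * m - 1 ≤ n) (hn2 : n ≤ 2 * m + 3) (hC : ∀ σ, (deg C σ : ℝ) ≤ L) :
    (∀ q, |eQ C (fun _ _ => 1 / (n : ℝ)) q| ≤ (4 + 5 * L) / n) ∧
    ∀ κ l s, |eE C (fun _ _ => 1 / (n : ℝ)) κ l s| ≤ (4 + 5 * L) / n := by
  have hn : 1 ≤ n := by omega
  have hn0 : (0 : ℝ) < n := by exact_mod_cast hn
  have hL : 0 ≤ L := (Nat.cast_nonneg _).trans (hC (Sum.inl (0, ⟨0, by omega⟩)))
  have hR : 0 ≤ (4 + 5 * L) / (n : ℝ) := by positivity
  constructor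
  · intro q
    by_cases hq : (Sum.inl q : Vt m n) ∈ C
    · unfold eQ
      rw [if_pos hq, abs_zero]
      exact hR
    · have h1 : eQ C (fun _ _ => 1 / (n : ℝ)) q =
          ((univ.filter (fun s : Fin n => ¬ Av C q s)).card : ℝ) / n := by
        rw [boostC_eQ C _ q, if_pos hq]
        unfold sQ
        rw [Finset.sum_const, nsmul_eq_mul]
        have h2 := Finset.card_filter_add_card_filter_not (s := (univ : Finset (Fin n)))
          (fun s : Fin n => Av C q s)
        rw [Finset.card_univ, Fintype.card_fin] at h2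
        have h3 : ((univ.filter (fun s : Fin n => Av C q s)).card : ℝ) +
            ((univ.filter (fun s : Fin n => ¬ Av C q s)).card : ℝ) = n := by
          exact_mod_cast h2
        field_simp
        linarith
      rw [h1, abs_of_nonneg (by positivity), div_le_div_iff_of_pos_right hn0]
      have := av_cell C hC q hq
      linarith
  · intro κ l s
    by_cases hq : (Sum.inr (κ, l, s) : Vt m n) ∈ C
    · unfold eE
      rw [if_pos hq, abs_zero]
      exact hR
    · have h1 : eE C (fun _ _ => 1 / (n : ℝ)) κ l s = ((n : ℝ) - (2 * m - 1) +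
          ((univ.filter (fun q : Cell m => ln κ q = l ∧ ¬ Av C q s)).card : ℝ)) / n := by
        rw [boostC_eE C _ κ l s, if_pos hq]
        unfold sE
        rw [Finset.sum_const, nsmul_eq_mul]
        have h2 := Finset.card_filter_add_card_filter_not
          (s := univ.filter (fun q : Cell m => ln κ q = l)) (fun q : Cell m => Av C q s)
        rw [card_line, Finset.filter_filter, Finset.filter_filter] at h2
        have h3 : ((univ.filter (fun q : Cell m => ln κ q = l ∧ Av C q s)).card : ℝ) +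
            ((univ.filter (fun q : Cell m => ln κ q = l ∧ ¬ Av C q s)).card : ℝ) = 2 * m - 1 := by
          have h4 : (((univ.filter (fun q : Cell m => ln κ q = l ∧ Av C q s)).card +
              (univ.filter (fun q : Cell m => ln κ q = l ∧ ¬ Av C q s)).card : ℕ) : ℝ) =
              ((2 * m - 1 : ℕ) : ℝ) := by rw [h2]
          rw [Nat.cast_sub (by omega)] at h4
          push_cast at h4
          exact h4
        field_simp
        linarith
      have h5 : (2 * (m : ℝ) - 1) ≤ n := by
        have h6 : ((2 * m - 1 : ℕ) : ℝ) ≤ (n : ℝ) := by exact_mod_cast hn1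
        rw [Nat.cast_sub (by omega)] at h6
        push_cast at h6
        exact h6
      have h7 : (n : ℝ) ≤ 2 * m + 3 := by exact_mod_cast hn2
      have h8 := av_entry C hC κ l s hq
      have h9 : 0 ≤ ((univ.filter (fun q : Cell m => ln κ q = l ∧ ¬ Av C q s)).card : ℝ) :=
        Nat.cast_nonneg _
      rw [h1, abs_of_nonneg (div_nonneg (by linarith) hn0.le), div_le_div_iff_of_pos_right hn0]
      linarith

end H77.LT.Bst
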