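import Pool.Agent.H73.LT.BoostC

/-!
# [H73 LT BOOSTD] Boosting (MP_0b346b_co)
-/

open Finset

namespace H77.LT.Bst

private theorem boostD_num {N n h M β L K : ℝ} (hh : 1278 ≤ h) (hN : h ≤ N) (hn : N ≤ 2 * n)
    (hM0 : 0 ≤ M) (hβ : 0 ≤ β) (hL : L = N / h) (hβ2 : β = N * K) :
    (4 * β + 16 * M + 55 * L * M) / n ≤ 8 * K + 142 * (M / h) := by
  have hh0 : 0 < h := by linarith
  have hN0 : 0 < N := by linarith
  have hn0 : 0 < n := by linarith
  have hK : 0 ≤ K := by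
    rw [hβ2] at hβ
    by_contra hc
    push Not at hc
    have : N * K < 0 := mul_neg_of_pos_of_neg hN0 hc
    linarith
  rw [div_le_iff₀ hn0]
  have h1 : M ≤ N * (M / h) := by
    rw [mul_div_assoc', le_div_iff₀ hh0]
    nlinarith
  have h2 : L * M = N * (M / h) := by
    rw [hL]
    ring
  have h3 : 0 ≤ M / h := div_nonneg hM0 hh0.le
  calc 4 * β + 16 * M + 55 * L * M ≤ 4 * (N * K) + 16 * (N * (M / h)) + 55 * (N * (M / h)) := by
        rw [hβ2, mul_assoc 55, h2]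
        linarith
    _ = (4 * K + 71 * (M / h)) * N := by ring
    _ ≤ (4 * K + 71 * (M / h)) * (2 * n) := by
        refine mul_le_mul_of_nonneg_left hn ?_
        positivity
    _ = _ := by ring

private theorem boostD_init {N n h L : ℝ} (hh : 1278 ≤ h) (hN : h ≤ N) (hn : N ≤ 2 * n)
    (hL : L = N / h) : (4 + 5 * L) / n ≤ 18 / h := by
  have hh0 : 0 < h := by linarith
  have hN0 : 0 < N := by linarith
  have hn0 : 0 < n := by linarith
  rw [div_le_div_iff₀ hn0 hh0]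
  have h1 : L * h = N := by
    rw [hL]
    field_simp
  calc (4 + 5 * L) * h = 4 * h + 5 * (L * h) := by ring
    _ ≤ 4 * N + 5 * N := by rw [h1]; linarith
    _ = 9 * N := by ring
    _ ≤ 18 * n := by linarith

/-- the induction -/
private theorem boostD_ind (c : ℕ) {m n h : ℕ} (C : Finset (Vt m n)) (hh : 1278 ≤ h)
    (hhN : h ≤ 2 * m + 1) (hn1 : 2 * m - 1 ≤ n) (hn2 : n ≤ 2 * m + 3)
    (hC : ∀ σ, (deg C σ : ℝ) ≤ (2 * m + 1) / (h : ℝ))
    (hb1 : ∀ κ l, |(deg C (Sum.inl (κ, l)) : ℝ)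
        - ((deg C (Sum.inr (Sum.inl (κ, l))) : ℝ) - (n - (2 * m - 1)))|
      ≤ (2 * m + 1) / (h : ℝ) ^ (c + 1))
    (hb2 : ∀ κ κ' s, |(deg C (Sum.inr (Sum.inr (κ, s))) : ℝ) - deg C (Sum.inr (Sum.inr (κ', s)))|
      ≤ (2 * m + 1) / (h : ℝ) ^ (c + 1)) (i : ℕ) :
    ∃ w : Cell m → Fin n → ℝ, (∀ q s, |w q s - 1 / n| ≤ i * (297 / (h * n))) ∧
      (∀ q, |eQ C w q| ≤ (142 / h) ^ i * (18 / h) + 9 * (1 / (h : ℝ) ^ (c + 1))) ∧
      ∀ κ l s, |eE C w κ l s| ≤ (142 / h) ^ i * (18 / h) + 9 * (1 / (h : ℝ) ^ (c + 1)) := by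
  have hhR : (1278 : ℝ) ≤ h := by exact_mod_cast hh
  have hm : 1 ≤ m := by omega
  have hnn : 1 ≤ n := by omega
  have hN : (h : ℝ) ≤ 2 * m + 1 := by exact_mod_cast hhN
  have hn : (2 * m + 1 : ℝ) ≤ 2 * n := by
    have : 2 * m + 1 ≤ 2 * n := by omega
    exact_mod_cast this
  have hn0 : (0 : ℝ) < n := by exact_mod_cast hnn
  have hh0 : (0 : ℝ) < h := by linarith
  have hK0 : 0 ≤ 1 / (h : ℝ) ^ (c + 1) := by positivity
  have hK1 : 1 / (h : ℝ) ^ (c + 1) ≤ 1 / h := by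
    apply one_div_le_one_div_of_le hh0
    calc (h : ℝ) = (h : ℝ) ^ 1 := (pow_one _).symm
      _ ≤ (h : ℝ) ^ (c + 1) := pow_le_pow_right₀ (by linarith) (by omega)
  induction i with
  | zero =>
    obtain ⟨h1, h2⟩ := err_init C hm hn1 hn2 hC
    have h3 := boostD_init (L := (2 * m + 1) / (h : ℝ)) hhR hN hn rfl
    refine ⟨fun _ _ => 1 / (n : ℝ), ?_, ?_, ?_⟩
    · intro q s
      simp
    · intro q
      refine (h1 q).trans (h3.trans ?_)
      rw [pow_zero, one_mul]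
      linarith
    · intro κ l s
      refine (h2 κ l s).trans (h3.trans ?_)
      rw [pow_zero, one_mul]
      linarith
  | succ i ih =>
    obtain ⟨w, hw, h1, h2⟩ := ih
    obtain ⟨M, hM⟩ : ∃ M : ℝ, M = (142 / h) ^ i * (18 / h) + 9 * (1 / (h : ℝ) ^ (c + 1)) :=
      ⟨_, rfl⟩
    rw [← hM] at h1 h2
    have hM0 : 0 ≤ M := by
      rw [hM]
      positivity
    have hM1 : M ≤ 27 / h := by
      have e1 : (142 / (h : ℝ)) ^ i ≤ 1 := by
        apply pow_le_one₀ (by positivity)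
        rw [div_le_one hh0]
        linarith
      have e2 : (142 / (h : ℝ)) ^ i * (18 / h) ≤ 1 * (18 / h) :=
        mul_le_mul_of_nonneg_right e1 (by positivity)
      calc M ≤ 1 * (18 / h) + 9 * (1 / h) := by
            rw [hM]
            linarith
        _ = 27 / h := by ring
    have hB := err_bal C w hm hb1 hb2 h1 h2
    obtain ⟨h3, h4⟩ := err_step C w hm hn1 hn2 hC hB
    have h5 := boostD_num (N := 2 * m + 1) (n := n) (h := h) (M := M)
      (β := (2 * m + 1) / (h : ℝ) ^ (c + 1)) (L := (2 * m + 1) / (h : ℝ))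
      (K := 1 / (h : ℝ) ^ (c + 1)) hhR hN hn hM0 (by positivity) rfl (by ring)
    have h6 : 8 * (1 / (h : ℝ) ^ (c + 1)) + 142 * (M / h) ≤
        (142 / h) ^ (i + 1) * (18 / h) + 9 * (1 / (h : ℝ) ^ (c + 1)) := by
      have e1 : 142 * (M / h) = (142 / (h : ℝ)) ^ (i + 1) * (18 / h) +
          1278 / h * (1 / (h : ℝ) ^ (c + 1)) := by
        rw [hM]
        ring
      have e2 : 1278 / (h : ℝ) ≤ 1 := by
        rw [div_le_one hh0]
        exact hhR
      have e3 := mul_le_mul_of_nonneg_right e2 hK0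
      linarith
    refine ⟨_, ?_, fun q => (h3 q).trans (h5.trans h6), fun κ l s => (h4 κ l s).trans (h5.trans h6)⟩
    intro q s
    have e1 := uz_bd hm hnn h1 h2 q s
    have e2 : 11 * M / n ≤ 297 / (h * n) := by
      rw [div_le_div_iff₀ hn0 (by positivity)]
      have : M * h ≤ 27 := by
        rw [le_div_iff₀ hh0] at hM1
        exact hM1
      calc 11 * M * (h * n) = 11 * (M * h) * n := by ring
        _ ≤ 11 * 27 * n := by gcongr
        _ = 297 * n := by norm_num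
    have e3 := hw q s
    calc |w q s + uz (eQ C w) (eE C w) q s - 1 / n| =
          |(w q s - 1 / n) + uz (eQ C w) (eE C w) q s| := by congr 1; ring
      _ ≤ |w q s - 1 / n| + |uz (eQ C w) (eE C w) q s| := abs_add_le _ _
      _ ≤ i * (297 / (h * n)) + 297 / (h * n) := by linarith
      _ = ((i + 1 : ℕ) : ℝ) * (297 / (h * n)) := by
        push_cast
        ring

theorem boost (c : ℕ) : ∃ h0 : ℕ, ∀ (m n h : ℕ) (C : Finset (Vt m n)), h0 ≤ h →
    h ≤ 2 * m + 1 → 2 * m - 1 ≤ n → n ≤ 2 * m + 3 →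
    (∀ σ, (deg C σ : ℝ) ≤ (2 * m + 1) / (h : ℝ)) →
    (∀ κ l, |(deg C (Sum.inl (κ, l)) : ℝ)
        - ((deg C (Sum.inr (Sum.inl (κ, l))) : ℝ) - (n - (2 * m - 1)))|
      ≤ (2 * m + 1) / (h : ℝ) ^ (c + 1)) →
    (∀ κ κ' s, |(deg C (Sum.inr (Sum.inr (κ, s))) : ℝ) - deg C (Sum.inr (Sum.inr (κ', s)))|
      ≤ (2 * m + 1) / (h : ℝ) ^ (c + 1)) →
    ∃ w : Cell m → Fin n → ℝ, (∀ q s, 0 ≤ w q s ∧ w q s ≤ 8 / (2 * m + 1)) ∧
      (∀ q, (Sum.inl q : Vt m n) ∉ C → |sQ C w q - 1| ≤ 1 / (h : ℝ) ^ c) ∧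
      ∀ κ l s, (Sum.inr (κ, l, s) : Vt m n) ∉ C → |sE C w κ l s - 1| ≤ 1 / (h : ℝ) ^ c := by
  refine ⟨36 * 142 ^ (c + 1) + 594 * (c + 1) + 1278, ?_⟩
  intro m n h C hh hhN hn1 hn2 hC hb1 hb2
  have hh1 : 1278 ≤ h := by omega
  obtain ⟨w, hw, h1, h2⟩ := boostD_ind c C hh1 hhN hn1 hn2 hC hb1 hb2 (c + 1)
  have hhR : (1278 : ℝ) ≤ h := by exact_mod_cast hh1
  have hh0 : (0 : ℝ) < h := by linarith
  have hnn : 1 ≤ n := by omega
  have hn0 : (0 : ℝ) < n := by exact_mod_cast hnn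
  have hnN : (2 * m + 1 : ℝ) ≤ 2 * n := by
    have : 2 * m + 1 ≤ 2 * n := by omega
    exact_mod_cast this
  have hN0 : (0 : ℝ) < 2 * m + 1 := by positivity
  have hM : (142 / (h : ℝ)) ^ (c + 1) * (18 / h) + 9 * (1 / (h : ℝ) ^ (c + 1)) ≤
      1 / (h : ℝ) ^ c := by
    have e0 : (36 * 142 ^ (c + 1) : ℝ) ≤ h := by
      have : 36 * 142 ^ (c + 1) ≤ h := by omega
      exact_mod_cast this
    have e1 : (142 / (h : ℝ)) ^ (c + 1) * (18 / h) + 9 * (1 / (h : ℝ) ^ (c + 1)) =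
        (142 ^ (c + 1) * 18 / h + 9) / h * (1 / (h : ℝ) ^ c) := by
      rw [div_pow, pow_succ (h : ℝ) c]
      field_simp
    rw [e1]
    have e2 : (142 ^ (c + 1) * 18 / (h : ℝ) + 9) / h ≤ 1 := by
      rw [div_le_one hh0]
      have e3 : 142 ^ (c + 1) * 18 / (h : ℝ) ≤ 1 := by
        rw [div_le_one hh0]
        linarith
      linarith
    calc (142 ^ (c + 1) * 18 / (h : ℝ) + 9) / h * (1 / (h : ℝ) ^ c) ≤ 1 * (1 / (h : ℝ) ^ c) :=
          mul_le_mul_of_nonneg_right e2 (by positivity)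
      _ = _ := one_mul _
  refine ⟨w, ?_, ?_, ?_⟩
  · intro q s
    have e1 := hw q s
    have e2 : ((c + 1 : ℕ) : ℝ) * (297 / (h * n)) ≤ 1 / (2 * n) := by
      have e3 : (594 * (c + 1) : ℝ) ≤ h := by
        have : 594 * (c + 1) ≤ h := by omega
        exact_mod_cast this
      rw [mul_div_assoc', div_le_div_iff₀ (by positivity) (by positivity)]
      push_cast
      nlinarith
    have e4 := abs_le.1 (e1.trans e2)
    have e5 : (1 : ℝ) / n = 2 * (1 / (2 * n)) := by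
      field_simp
    have e6 : 0 < 1 / (2 * (n : ℝ)) := by positivity
    constructor
    · linarith [e4.1]
    · have e7 : 3 * (1 / (2 * (n : ℝ))) ≤ 8 / (2 * m + 1) := by
        rw [mul_one_div, div_le_div_iff₀ (by positivity) hN0]
        linarith
      linarith [e4.2]
  · intro q hq
    have e1 := (h1 q).trans hM
    unfold eQ at e1
    rw [if_neg hq] at e1
    rwa [abs_sub_comm]
  · intro κ l s hq
    have e1 := (h2 κ l s).trans hM
    unfold eE at e1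
    rw [if_neg hq] at e1
    rwa [abs_sub_comm]

end H77.LT.Bst
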