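import Pool.Agent.H73.LT.BoostC

/-!
# [H73 LT NIBA] The hypergraph of the latin triangle problem: facts for the nibble theorem

Definitions: `Pool/Agent/H77/LT/Base.lean` (`ed`, `star`, `Forb`), `PMl.lean` (`mem_ed_inl`, `mem_ed_inr`, `mem_star_inl`,
`mem_star_inr`, `card_ed`), `Geo.lean` (`card_line`, `card_pair`, `card_cell`), `BoostB`, `BoostC` (`Av`, `sQ`, `sE`).

Proofs.
* `codeg`: two different cells: no edge. A cell `q` and an entry `(κ,l,s)`: only the edge `(q,s)`. Two entries `(κ,l,s)`,
  `(κ',l',s')`: an edge `(q,t)` through both has `s = t = s'`, `ln κ q = l`, `ln κ' q = l'`; if `κ = κ'` then `l = l'`,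
  excluded; if `κ ≠ κ'` at most `2` cells (`card_pair`; injection of the set of edges into the set of cells by `e ↦ e.1`).
* `ed_star`: the vertices of `ed q s` are `inl q` and the three entries `(κ, ln κ q, s)`. A star `inl (κ,l)` contains only
  cells; a star `inr (inl (κ,l))` only entries of direction `κ`, as does `inr (inr (κ,s))`. So at most one vertex each
  (`Finset.card_le_one`).
* `star_card`: star `inl (κ,l)`: at most `card_line = 2m-1`. Star `inr (inl (κ,l))`: entries `(κ,l,s)` outside `F`: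
  `n - #(F on the line) = 2m-1` (`Forb.line`). Star `inr (inr (κ,s))`: at most `m`.
* `card_vert`: `card_cell`: `m (2m-1) + 3 m n ≤ 8 m^2 + 8 m ≤ (2m+1)^3`. `card_stars`: `3m + 3m + 3n ≤ 12 m + 9`.
* `sum_cell`, `sum_entry`: reindex (`e = (q, s)` resp. `e = (q', s)` with fixed `s`; `Finset.sum_bij` or `sum_image`).
-/

open Finset

namespace H77.LT.Bst

variable {m n : ℕ}

theorem codeg (u v : Vt m n) (h : u ≠ v) :
    (((univ : Finset (Cell m × Fin n)).filter
      (fun e => u ∈ (ed e.1 e.2 : Finset (Vt m n)))).filter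
        (fun e => v ∈ (ed e.1 e.2 : Finset (Vt m n)))).card ≤ 3 := by
  rcases u with q1 | ⟨κ, l, t⟩
  · rcases v with q2 | ⟨κ', l', t'⟩
    · refine (Finset.card_le_card (t := (∅ : Finset (Cell m × Fin n))) ?_).trans (by simp)
      intro e he
      rw [Finset.mem_filter, Finset.mem_filter, mem_ed_inl, mem_ed_inl] at he
      obtain ⟨⟨_, h1⟩, h2⟩ := he
      exact absurd (by rw [h1, h2]) h
    · refine (Finset.card_le_card (t := {(q1, t')}) ?_).trans (by simp)
      intro e he
      rw [Finset.mem_filter, Finset.mem_filter, mem_ed_inl, mem_ed_inr] at he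
      obtain ⟨⟨_, h1⟩, h2⟩ := he
      rw [Finset.mem_singleton]
      exact Prod.ext h1.symm h2.1.symm
  · rcases v with q2 | ⟨κ', l', t'⟩
    · refine (Finset.card_le_card (t := {(q2, t)}) ?_).trans (by simp)
      intro e he
      rw [Finset.mem_filter, Finset.mem_filter, mem_ed_inl, mem_ed_inr] at he
      obtain ⟨⟨_, h1⟩, h2⟩ := he
      rw [Finset.mem_singleton]
      exact Prod.ext h2.symm h1.1.symm
    · by_cases hκ : κ = κ'
      · subst hκ
        refine (Finset.card_le_card (t := (∅ : Finset (Cell m × Fin n))) ?_).trans (by simp)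
        intro e he
        rw [Finset.mem_filter, Finset.mem_filter, mem_ed_inr, mem_ed_inr] at he
        obtain ⟨⟨_, h1⟩, h2⟩ := he
        exact absurd (by rw [h1.1, h1.2, h2.1, h2.2]) h
      · refine (Finset.card_le_card_of_injOn
          (t := univ.filter (fun q : Cell m => ln κ q = l ∧ ln κ' q = l'))
          (fun e => e.1) ?_ ?_).trans ?_
        · intro e he
          rw [Finset.mem_coe, Finset.mem_filter, Finset.mem_filter, mem_ed_inr, mem_ed_inr] at he
          obtain ⟨⟨_, h2⟩, h3⟩ := he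
          rw [Finset.mem_coe, Finset.mem_filter]
          exact ⟨Finset.mem_univ _, h2.2.symm, h3.2.symm⟩
        · intro e he e' he' hee
          rw [Finset.mem_coe, Finset.mem_filter, Finset.mem_filter, mem_ed_inr, mem_ed_inr]
            at he he'
          obtain ⟨⟨_, h2⟩, _⟩ := he
          obtain ⟨⟨_, h3⟩, _⟩ := he'
          exact Prod.ext hee (h2.1.symm.trans h3.1)
        · rw [card_pair κ κ' hκ l l']
          split_ifs <;> norm_num

theorem ed_star (q : Cell m) (s : Fin n) (σ : Star m n) :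
    ((ed q s : Finset (Vt m n)).filter (fun v => σ ∈ star v)).card ≤ 1 := by
  rw [Finset.card_le_one]
  intro a ha b hb
  rw [Finset.mem_filter] at ha hb
  obtain ⟨ha1, ha2⟩ := ha
  obtain ⟨hb1, hb2⟩ := hb
  rcases a with qa | ⟨κa, la, sa⟩
  · rw [mem_ed_inl] at ha1
    subst ha1
    rw [mem_star_inl] at ha2
    obtain ⟨κ, rfl⟩ := ha2
    rcases b with qb | ⟨κb, lb, sb⟩
    · rw [mem_ed_inl] at hb1
      rw [hb1]
    · rw [mem_star_inr] at hb2
      rcases hb2 with h | h <;> exact absurd h (by simp)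
  · rw [mem_ed_inr] at ha1
    rcases b with qb | ⟨κb, lb, sb⟩
    · rw [mem_star_inl] at hb2
      obtain ⟨κ, rfl⟩ := hb2
      rw [mem_star_inr] at ha2
      rcases ha2 with h | h <;> exact absurd h (by simp)
    · rw [mem_ed_inr] at hb1
      rw [mem_star_inr] at ha2 hb2
      obtain ⟨ha3, ha4⟩ := ha1
      obtain ⟨hb3, hb4⟩ := hb1
      have hκ : κa = κb := by
        rcases ha2 with rfl | rfl <;> rcases hb2 with h | h <;> simp_all
      rw [ha3, hb3, ha4, hb4, hκ]

theorem star_card {F : Finset (Fin 3 × Fin m × Fin n)} (hF : Forb m n F) (C : Finset (Vt m n))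
    (hC : ents F ⊆ C) (σ : Star m n) :
    ((univ \ C).filter (fun v => σ ∈ star v)).card ≤ 2 * m + 1 := by
  rcases σ with ⟨κ, l⟩ | ⟨κ, l⟩ | ⟨κ, s⟩
  · have h1 : (univ \ C).filter (fun v => (Sum.inl (κ, l) : Star m n) ∈ star v) ⊆
        (univ.filter (fun q : Cell m => ln κ q = l)).image (fun q => (Sum.inl q : Vt m n)) := by
      intro v hv
      rw [Finset.mem_filter] at hv
      obtain ⟨_, hv2⟩ := hv
      rcases v with q | ⟨κ', l', s'⟩
      · rw [mem_star_inl] at hv2
        obtain ⟨κ', h2⟩ := hv2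
        have h3 := Sum.inl.inj h2
        simp only [Prod.mk.injEq] at h3
        obtain ⟨h4, h5⟩ := h3
        subst h4
        rw [Finset.mem_image]
        refine ⟨q, ?_, rfl⟩
        rw [Finset.mem_filter]
        exact ⟨Finset.mem_univ _, h5.symm⟩
      · rw [mem_star_inr] at hv2
        rcases hv2 with h | h <;> exact absurd h (by simp)
    refine (Finset.card_le_card h1).trans (Finset.card_image_le.trans ?_)
    rw [card_line]
    omega
  · have h1 : (univ \ C).filter (fun v => (Sum.inr (Sum.inl (κ, l)) : Star m n) ∈ star v) ⊆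
        (univ.filter (fun s : Fin n => (κ, l, s) ∉ F)).image
          (fun s => (Sum.inr (κ, l, s) : Vt m n)) := by
      intro v hv
      rw [Finset.mem_filter, Finset.mem_sdiff] at hv
      obtain ⟨⟨_, hv1⟩, hv2⟩ := hv
      rcases v with q | ⟨κ', l', s'⟩
      · rw [mem_star_inl] at hv2
        obtain ⟨κ', h2⟩ := hv2
        exact absurd h2 (by simp)
      · rw [mem_star_inr] at hv2
        rcases hv2 with h | h
        · have h2 := Sum.inl.inj (Sum.inr.inj h)
          simp only [Prod.mk.injEq] at h2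
          obtain ⟨h3, h4⟩ := h2
          subst h3
          subst h4
          rw [Finset.mem_image]
          refine ⟨s', ?_, rfl⟩
          rw [Finset.mem_filter]
          refine ⟨Finset.mem_univ _, fun hF' => hv1 (hC ?_)⟩
          unfold ents
          rw [Finset.mem_image]
          exact ⟨_, hF', rfl⟩
        · exact absurd (Sum.inr.inj h) (by simp)
    refine (Finset.card_le_card h1).trans (Finset.card_image_le.trans ?_)
    have h2 := hF.line κ l
    have h3 : (univ.filter (fun s : Fin n => (κ, l, s) ∈ F)).card =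
        (F.filter (fun e => e.1 = κ ∧ e.2.1 = l)).card := by
      refine Finset.card_bij (fun s _ => (κ, l, s)) ?_ ?_ ?_
      · intro s hs
        rw [Finset.mem_filter] at hs ⊢
        exact ⟨hs.2, rfl, rfl⟩
      · intro s _ s' _ h
        simp only [Prod.mk.injEq] at h
        exact h.2.2
      · rintro ⟨κ', l', s'⟩ he
        rw [Finset.mem_filter] at he
        obtain ⟨he1, he2, he3⟩ := he
        simp only at he2 he3
        subst he2
        subst he3
        refine ⟨s', ?_, rfl⟩
        rw [Finset.mem_filter]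
        exact ⟨Finset.mem_univ _, he1⟩
    have h4 := Finset.card_filter_add_card_filter_not (s := (univ : Finset (Fin n)))
      (fun s : Fin n => (κ, l, s) ∈ F)
    rw [Finset.card_univ, Fintype.card_fin] at h4
    omega
  · have h1 : (univ \ C).filter (fun v => (Sum.inr (Sum.inr (κ, s)) : Star m n) ∈ star v) ⊆
        (univ : Finset (Fin m)).image (fun l => (Sum.inr (κ, l, s) : Vt m n)) := by
      intro v hv
      rw [Finset.mem_filter] at hv
      obtain ⟨_, hv2⟩ := hv
      rcases v with q | ⟨κ', l', s'⟩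
      · rw [mem_star_inl] at hv2
        obtain ⟨κ', h2⟩ := hv2
        exact absurd h2 (by simp)
      · rw [mem_star_inr] at hv2
        rcases hv2 with h | h
        · exact absurd (Sum.inr.inj h) (by simp)
        · have h2 := Sum.inr.inj (Sum.inr.inj h)
          simp only [Prod.mk.injEq] at h2
          obtain ⟨h3, h4⟩ := h2
          subst h3
          subst h4
          rw [Finset.mem_image]
          exact ⟨l', Finset.mem_univ _, rfl⟩
    refine (Finset.card_le_card h1).trans (Finset.card_image_le.trans ?_)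
    rw [Finset.card_univ, Fintype.card_fin]
    omega

theorem card_vert (hm : 1 ≤ m) (hn : n ≤ 2 * m + 3) :
    (univ : Finset (Vt m n)).card ≤ (2 * m + 1) ^ 3 := by
  rw [Finset.card_univ, Fintype.card_sum, card_cell, Fintype.card_prod, Fintype.card_prod,
    Fintype.card_fin, Fintype.card_fin, Fintype.card_fin]
  have h1 : m * (2 * m - 1) ≤ m * (2 * m) := Nat.mul_le_mul_left m (by omega)
  have h2 : 3 * (m * n) ≤ 3 * (m * (2 * m + 3)) :=
    Nat.mul_le_mul_left 3 (Nat.mul_le_mul_left m hn)
  have h3 : m * (2 * m) + 3 * (m * (2 * m + 3)) ≤ (2 * m + 1) ^ 3 := by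
    obtain ⟨k, rfl⟩ : ∃ k, m = k + 1 := ⟨m - 1, by omega⟩
    nlinarith [Nat.zero_le (k ^ 3), Nat.zero_le (k ^ 2), Nat.zero_le k]
  omega

theorem card_stars (hm : 1 ≤ m) (hn : n ≤ 2 * m + 3) :
    (univ : Finset (Star m n)).card ≤ (2 * m + 1) ^ 3 := by
  rw [Finset.card_univ, Fintype.card_sum, Fintype.card_sum, Fintype.card_prod, Fintype.card_prod,
    Fintype.card_fin, Fintype.card_fin, Fintype.card_fin]
  have h3 : 3 * m + (3 * m + 3 * (2 * m + 3)) ≤ (2 * m + 1) ^ 3 := by
    obtain ⟨k, rfl⟩ : ∃ k, m = k + 1 := ⟨m - 1, by omega⟩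
    nlinarith [Nat.zero_le (k ^ 3), Nat.zero_le (k ^ 2), Nat.zero_le k]
  omega

theorem sum_cell (C : Finset (Vt m n)) (w : Cell m → Fin n → ℝ) (q : Cell m) :
    ∑ e ∈ (univ.filter (fun e : Cell m × Fin n => Av C e.1 e.2)).filter
      (fun e => (Sum.inl q : Vt m n) ∈ ed e.1 e.2), w e.1 e.2 = sQ C w q := by
  unfold sQ
  refine Finset.sum_nbij' (fun e => e.2) (fun s => (q, s)) ?_ ?_ ?_ ?_ ?_
  · intro e he
    rw [Finset.mem_filter, Finset.mem_filter, mem_ed_inl] at he
    obtain ⟨⟨_, h1⟩, h2⟩ := he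
    rw [Finset.mem_filter]
    refine ⟨Finset.mem_univ _, ?_⟩
    rw [h2]
    exact h1
  · intro s hs
    rw [Finset.mem_filter] at hs
    rw [Finset.mem_filter, Finset.mem_filter, mem_ed_inl]
    exact ⟨⟨Finset.mem_univ _, hs.2⟩, rfl⟩
  · intro e he
    rw [Finset.mem_filter, Finset.mem_filter, mem_ed_inl] at he
    exact Prod.ext he.2 rfl
  · intro s _
    rfl
  · intro e he
    rw [Finset.mem_filter, Finset.mem_filter, mem_ed_inl] at he
    rw [he.2]

theorem sum_entry (C : Finset (Vt m n)) (w : Cell m → Fin n → ℝ) (κ : Fin 3) (l : Fin m)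
    (s : Fin n) :
    ∑ e ∈ (univ.filter (fun e : Cell m × Fin n => Av C e.1 e.2)).filter
      (fun e => (Sum.inr (κ, l, s) : Vt m n) ∈ ed e.1 e.2), w e.1 e.2 = sE C w κ l s := by
  unfold sE
  refine Finset.sum_nbij' (fun e => e.1) (fun q => (q, s)) ?_ ?_ ?_ ?_ ?_
  · intro e he
    rw [Finset.mem_filter, Finset.mem_filter, mem_ed_inr] at he
    obtain ⟨⟨_, h1⟩, h2, h3⟩ := he
    rw [Finset.mem_filter]
    refine ⟨Finset.mem_univ _, h3.symm, ?_⟩
    rw [h2]
    exact h1
  · intro q hq
    rw [Finset.mem_filter] at hq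
    rw [Finset.mem_filter, Finset.mem_filter, mem_ed_inr]
    exact ⟨⟨Finset.mem_univ _, hq.2.2⟩, rfl, hq.2.1.symm⟩
  · intro e he
    rw [Finset.mem_filter, Finset.mem_filter, mem_ed_inr] at he
    exact Prod.ext rfl he.2.1
  · intro q _
    rfl
  · intro e he
    rw [Finset.mem_filter, Finset.mem_filter, mem_ed_inr] at he
    rw [he.2.1]

end H77.LT.Bst
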