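import Pool.Agent.H77.LT.EXb
import Pool.Agent.H77.LT.EXc

/-!
# [H73 LT RSVA] Concentration of the number of configurations in a random set (MP_0b346b_co)

`EX`, `Pr`: `Pool/Agent/H77/LT/EXa.lean`. `cnt s A T` = number of `j ∈ s` with `A j ⊆ T`.

Proofs.
* `EX_cnt`: `cnt = ∑_{j ∈ s} [A j ⊆ T]`, `EX_sum`, `Pr_cylinder` with `B = ∅`.
* `cnt_lip`: if `A j ⊆ insert e T` and not `A j ⊆ T` then `e ∈ A j`.
* `cnt_dev`: `Pr_dev` with `f = cnt`, `c e = #{j ∈ s : e ∈ A j} ≤ 2` (`cnt_lip`), `lam = 1/(12 k) ≤ 1/2`, `t = S/k`;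
  `∑_{e ∈ E} p e (c e)^2 ≤ 2 ∑_e c e ≤ 2 ∑_{j ∈ s} |A j| ≤ 6 |s| ≤ 6 S` (`p e ≤ 1`; double counting
  `Finset.sum_card_bipartiteAbove_eq_sum_card_bipartiteBelow` or `sum_comm`);
  `- lam t + lam^2 6 S = - S/(12 k^2) + S/(24 k^2) = - S/(24 k^2)`.
* `fam_dev`: `Pr_exists` and `cnt_dev`.
-/

open Finset

namespace H77.LT.Rsv

variable {ι : Type} [DecidableEq ι] {K : Type}

/-- number of configurations inside `T` -/
def cnt (s : Finset K) (A : K → Finset ι) (T : Finset ι) : ℕ :=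
  (s.filter (fun j => A j ⊆ T)).card

/-- its expectation -/
noncomputable def mean (p : ι → ℝ) (s : Finset K) (A : K → Finset ι) : ℝ :=
  ∑ j ∈ s, ∏ v ∈ A j, p v

/-- admissible families of configurations -/
structure Cf (E : Finset ι) (S : ℝ) (s : Finset K) (A : K → Finset ι) : Prop where
  sub : ∀ j ∈ s, A j ⊆ E
  c3 : ∀ j ∈ s, (A j).card ≤ 3
  two : ∀ v, (s.filter (fun j => v ∈ A j)).card ≤ 2
  le : (s.card : ℝ) ≤ S

theorem rsva_ind (E : Finset ι) (p : ι → ℝ) (A : Finset ι) (hA : A ⊆ E) :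
    EX E p (fun T => if A ⊆ T then (1 : ℝ) else 0) = ∏ v ∈ A, p v := by
  have h1 := Pr_cylinder E A ∅ hA (Finset.empty_subset E) (Finset.disjoint_empty_right _) p
  rw [Finset.prod_empty, mul_one] at h1
  rw [← h1]
  unfold Pr
  apply EX_congr
  intro T _
  by_cases h2 : A ⊆ T
  · rw [if_pos h2, if_pos ⟨h2, Finset.disjoint_empty_left T⟩]
  · rw [if_neg h2, if_neg (fun h3 => h2 h3.1)]

theorem rsva_cnt_eq (s : Finset K) (A : K → Finset ι) (T : Finset ι) :
    (cnt s A T : ℝ) = ∑ j ∈ s, (if A j ⊆ T then (1 : ℝ) else 0) := by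
  unfold cnt
  rw [Finset.card_filter, Nat.cast_sum]
  apply Finset.sum_congr rfl
  intro j _
  split_ifs
  · exact Nat.cast_one
  · exact Nat.cast_zero

theorem EX_cnt (E : Finset ι) (p : ι → ℝ) (s : Finset K) (A : K → Finset ι)
    (hA : ∀ j ∈ s, A j ⊆ E) : EX E p (fun T => (cnt s A T : ℝ)) = mean p s A := by
  rw [EX_congr E p _ (fun T => ∑ j ∈ s, (if A j ⊆ T then (1 : ℝ) else 0))
    (fun T _ => rsva_cnt_eq s A T), EX_sum]
  unfold mean
  apply Finset.sum_congr rfl
  intro j hj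
  exact rsva_ind E p (A j) (hA j hj)

theorem cnt_lip (s : Finset K) (A : K → Finset ι) (T : Finset ι) (e : ι) :
    |(cnt s A (insert e T) : ℝ) - cnt s A T| ≤ ((s.filter (fun j => e ∈ A j)).card : ℝ) := by
  classical
  have h1 : cnt s A T ≤ cnt s A (insert e T) := by
    unfold cnt
    apply Finset.card_le_card
    intro j hj
    rw [mem_filter] at hj ⊢
    exact ⟨hj.1, hj.2.trans (Finset.subset_insert e T)⟩
  have h2 : cnt s A (insert e T) ≤ cnt s A T + (s.filter (fun j => e ∈ A j)).card := by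
    unfold cnt
    refine le_trans (Finset.card_le_card (t := s.filter (fun j => A j ⊆ T) ∪
      s.filter (fun j => e ∈ A j)) ?_) (Finset.card_union_le _ _)
    intro j hj
    rw [mem_filter] at hj
    by_cases h3 : e ∈ A j
    · exact mem_union_right _ (mem_filter.2 ⟨hj.1, h3⟩)
    · refine mem_union_left _ (mem_filter.2 ⟨hj.1, ?_⟩)
      intro x hx
      rcases mem_insert.1 (hj.2 hx) with h4 | h4
      · rw [h4] at hx
        exact absurd hx h3
      · exact h4
  have h1' : (cnt s A T : ℝ) ≤ cnt s A (insert e T) := by exact_mod_cast h1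
  have h2' : (cnt s A (insert e T) : ℝ) ≤ cnt s A T + (s.filter (fun j => e ∈ A j)).card := by
    exact_mod_cast h2
  rw [abs_le]
  constructor <;> linarith [Nat.cast_nonneg (α := ℝ) (s.filter (fun j => e ∈ A j)).card]

theorem rsva_double (E : Finset ι) (s : Finset K) (A : K → Finset ι) :
    ∑ e ∈ E, (s.filter (fun j => e ∈ A j)).card ≤ ∑ j ∈ s, (A j).card := by
  simp only [Finset.card_filter]
  rw [Finset.sum_comm]
  apply Finset.sum_le_sum
  intro j _
  rw [← Finset.card_filter]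
  apply Finset.card_le_card
  intro x hx
  exact (mem_filter.1 hx).2

theorem cnt_dev (E : Finset ι) (p : ι → ℝ) (hp : ∀ e ∈ E, 0 ≤ p e ∧ p e ≤ 1) {S k : ℝ}
    (hS : 0 < S) (hk : 1 ≤ k) (s : Finset K) (A : K → Finset ι) (hA : Cf E S s A) :
    Pr E p (fun T => S / k ≤ |(cnt s A T : ℝ) - mean p s A|) ≤
      2 * Real.exp (-(S / (24 * k ^ 2))) := by
  have hkpos : 0 < k := by linarith
  have h1 := Pr_dev E p hp (fun e => ((s.filter (fun j => e ∈ A j)).card : ℝ))
    (fun T => (cnt s A T : ℝ)) (fun e _ T _ _ => cnt_lip s A T e) (6 * S)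
    (by
      have h2 : ∀ e ∈ E, p e * ((s.filter (fun j => e ∈ A j)).card : ℝ) ^ 2 ≤
          2 * ((s.filter (fun j => e ∈ A j)).card : ℝ) := by
        intro e he
        have h3 : ((s.filter (fun j => e ∈ A j)).card : ℝ) ≤ 2 := by exact_mod_cast hA.two e
        have h4 : (0 : ℝ) ≤ ((s.filter (fun j => e ∈ A j)).card : ℝ) := Nat.cast_nonneg _
        have h5 : ((s.filter (fun j => e ∈ A j)).card : ℝ) ^ 2 ≤
            2 * ((s.filter (fun j => e ∈ A j)).card : ℝ) := by
          rw [pow_two]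
          exact mul_le_mul_of_nonneg_right h3 h4
        have h6 : p e * ((s.filter (fun j => e ∈ A j)).card : ℝ) ^ 2 ≤
            1 * ((s.filter (fun j => e ∈ A j)).card : ℝ) ^ 2 :=
          mul_le_mul_of_nonneg_right (hp e he).2 (by positivity)
        linarith
      refine (Finset.sum_le_sum h2).trans ?_
      rw [← Finset.mul_sum]
      have h3 : ∑ e ∈ E, ((s.filter (fun j => e ∈ A j)).card : ℝ) ≤ 3 * S := by
        have h4 := rsva_double E s A
        have h5 : ∑ j ∈ s, (A j).card ≤ s.card * 3 := by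
          rw [← smul_eq_mul]
          exact Finset.sum_le_card_nsmul s _ 3 hA.c3
        have h6 : (∑ e ∈ E, ((s.filter (fun j => e ∈ A j)).card : ℝ)) ≤ (s.card : ℝ) * 3 := by
          exact_mod_cast h4.trans h5
        have h7 := hA.le
        linarith
      linarith)
    (1 / (12 * k)) (by positivity)
    (by
      intro e _
      have h3 : ((s.filter (fun j => e ∈ A j)).card : ℝ) ≤ 2 := by exact_mod_cast hA.two e
      rw [div_mul_eq_mul_div, one_mul, div_le_one (by positivity)]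
      linarith)
    (S / k)
  rw [EX_cnt E p s A hA.sub] at h1
  refine h1.trans (le_of_eq ?_)
  congr 2
  field_simp
  ring

theorem fam_dev {J : Type} (E : Finset ι) (p : ι → ℝ) (hp : ∀ e ∈ E, 0 ≤ p e ∧ p e ≤ 1) {S k : ℝ}
    (hS : 0 < S) (hk : 1 ≤ k) (Js : Finset J) (s : J → Finset K) (A : J → K → Finset ι)
    (hA : ∀ j ∈ Js, Cf E S (s j) (A j)) :
    Pr E p (fun T => ∃ j ∈ Js, S / k ≤ |(cnt (s j) (A j) T : ℝ) - mean p (s j) (A j)|) ≤
      Js.card * (2 * Real.exp (-(S / (24 * k ^ 2)))) := by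
  refine (Pr_exists E p hp Js
    (fun j T => S / k ≤ |(cnt (s j) (A j) T : ℝ) - mean p (s j) (A j)|)).trans ?_
  refine (Finset.sum_le_sum (fun j hj => cnt_dev E p hp hS hk (s j) (A j) (hA j hj))).trans ?_
  rw [Finset.sum_const, nsmul_eq_mul]

end H77.LT.Rsv
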