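import Mathlib

/-!
# [H73 LT RSVB] Counting residues (MP_0b346b_co)

Proofs.
* `cnt_ico`: the integers `b ∈ [A,B)` with `b ≡ r mod K` : `Int.Ico_filter_modEq_card` (or induction over `B - A`, or
  translate to `Nat.count_modEq_card`); the number is `c` with `K (c-1) < B - A < K (c+1)`.
* `cnt_ico2`: for coprime `K`, `K'` the two congruences `b ≡ r`, `b ≡ r'` are equivalent to one congruence
  modulo `K K'` (`Int.modEq_and_modEq_iff_modEq_mul` after choosing a solution by the Chinese remainder theorem,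
  `Nat.chineseRemainder` or `Int.gcd` coefficients), then `cnt_ico`.
* `cnt_fin`, `cnt_fin3`: `A = 0`, `B = n`, transported by the cast of `Fin n` to the integers; three pairwise coprime moduli: `K 0 K 1` is coprime to `K 2`.
-/

open Finset

namespace H77.LT.Rsv

theorem cnt_ico {K : ℕ} (hK : 1 ≤ K) (A B r : ℤ) (hAB : A ≤ B) :
    |(K : ℝ) * (((Ico A B).filter (fun b => b ≡ r [ZMOD K])).card : ℝ) - ((B : ℝ) - A)| ≤ K := by
  have hKp : (0 : ℤ) < (K : ℤ) := by exact_mod_cast hK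
  have h := Int.Ico_filter_modEq_card A B hKp r
  have hKq : (0 : ℚ) < (K : ℚ) := by exact_mod_cast hK
  set x : ℚ := ((B : ℚ) - r) / ((K : ℤ) : ℚ) with hx
  set y : ℚ := ((A : ℚ) - r) / ((K : ℤ) : ℚ) with hy
  have hxy : y ≤ x := by
    rw [hx, hy]
    apply div_le_div_of_nonneg_right
    · have : (A : ℚ) ≤ B := by exact_mod_cast hAB
      linarith
    · exact_mod_cast hKp.le
  have hc : (0 : ℤ) ≤ ⌈x⌉ - ⌈y⌉ := sub_nonneg.2 (Int.ceil_mono hxy)
  rw [max_eq_left hc] at h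
  have h1 : x ≤ ⌈x⌉ := Int.le_ceil x
  have h2 : (⌈x⌉ : ℚ) < x + 1 := Int.ceil_lt_add_one x
  have h3 : y ≤ ⌈y⌉ := Int.le_ceil y
  have h4 : (⌈y⌉ : ℚ) < y + 1 := Int.ceil_lt_add_one y
  have hxK : x * K = B - r := by
    rw [hx]
    push_cast
    field_simp
  have hyK : y * K = A - r := by
    rw [hy]
    push_cast
    field_simp
  have hq : ((((Ico A B).filter (fun b => b ≡ r [ZMOD K])).card : ℤ) : ℚ) = ⌈x⌉ - ⌈y⌉ := by
    rw [h]
    push_cast
    ring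
  have key : |(K : ℚ) * ((((Ico A B).filter (fun b => b ≡ r [ZMOD K])).card : ℤ) : ℚ) -
      ((B : ℚ) - A)| ≤ K := by
    rw [hq, abs_le]
    constructor
    · nlinarith
    · nlinarith
  have key2 : ((|(K : ℚ) * ((((Ico A B).filter (fun b => b ≡ r [ZMOD K])).card : ℤ) : ℚ) -
      ((B : ℚ) - A)| : ℚ) : ℝ) ≤ ((K : ℚ) : ℝ) := by exact_mod_cast key
  push_cast at key2
  exact key2

/-- the Chinese remainder theorem for two congruences -/
theorem rsvB_crt {K K' : ℕ} (hc : Nat.Coprime K K') (r r' : ℤ) :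
    ∃ c : ℤ, ∀ b : ℤ, (b ≡ r [ZMOD K] ∧ b ≡ r' [ZMOD K']) ↔ b ≡ c [ZMOD ((K * K' : ℕ) : ℤ)] := by
  have hcop : IsCoprime (K : ℤ) (K' : ℤ) := Nat.isCoprime_iff_coprime.2 hc
  obtain ⟨u, v, huv⟩ := hcop
  refine ⟨r' * (u * K) + r * (v * K'), fun b => ?_⟩
  have e1 : r' * (u * K) + r * (v * K') ≡ r [ZMOD K] := by
    apply Int.ModEq.symm
    rw [Int.modEq_iff_dvd]
    refine ⟨(r' - r) * u, ?_⟩
    linear_combination r * huv
  have e2 : r' * (u * K) + r * (v * K') ≡ r' [ZMOD K'] := by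
    apply Int.ModEq.symm
    rw [Int.modEq_iff_dvd]
    refine ⟨(r - r') * v, ?_⟩
    linear_combination r' * huv
  have hcop2 : (K : ℤ).natAbs.Coprime (K' : ℤ).natAbs := by simpa using hc
  have h := Int.modEq_and_modEq_iff_modEq_mul (a := b) (b := r' * (u * K) + r * (v * K')) hcop2
  push_cast
  rw [← h]
  constructor
  · rintro ⟨h1, h2⟩
    exact ⟨h1.trans e1.symm, h2.trans e2.symm⟩
  · rintro ⟨h1, h2⟩
    exact ⟨h1.trans e1, h2.trans e2⟩

theorem cnt_ico2 {K K' : ℕ} (hK : 1 ≤ K) (hK' : 1 ≤ K') (hc : Nat.Coprime K K') (A B r r' : ℤ)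
    (hAB : A ≤ B) :
    |(K : ℝ) * K' * (((Ico A B).filter (fun b => b ≡ r [ZMOD K] ∧ b ≡ r' [ZMOD K'])).card : ℝ) -
      ((B : ℝ) - A)| ≤ K * K' := by
  obtain ⟨c, hcc⟩ := rsvB_crt hc r r'
  have h := cnt_ico (K := K * K') (Nat.mul_pos hK hK') A B c hAB
  have he : (Ico A B).filter (fun b => b ≡ r [ZMOD K] ∧ b ≡ r' [ZMOD K']) =
      (Ico A B).filter (fun b => b ≡ c [ZMOD ((K * K' : ℕ) : ℤ)]) :=
    filter_congr fun b _ => hcc b
  rw [he]
  have h2 : ((K * K' : ℕ) : ℝ) = (K : ℝ) * K' := by push_cast; ring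
  rw [h2] at h
  exact h

theorem rsvB_fin (n : ℕ) (P : ℤ → Prop) [DecidablePred P] (Q : ℕ → Prop) [DecidablePred Q]
    (h : ∀ a : ℕ, Q a ↔ P (a : ℤ)) :
    (univ.filter (fun s : Fin n => Q s.val)).card = ((Ico (0 : ℤ) n).filter P).card := by
  refine card_bij (fun s _ => ((s.val : ℕ) : ℤ)) ?_ ?_ ?_
  · intro s hs
    rw [mem_filter] at hs ⊢
    refine ⟨mem_Ico.2 ⟨by positivity, by exact_mod_cast s.isLt⟩, (h _).1 hs.2⟩
  · intro s _ t _ hst
    exact Fin.ext (by exact_mod_cast hst)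
  · intro b hb
    rw [mem_filter, mem_Ico] at hb
    obtain ⟨⟨h0, h1⟩, h2⟩ := hb
    obtain ⟨a, rfl⟩ := Int.eq_ofNat_of_zero_le h0
    refine ⟨⟨a, by exact_mod_cast h1⟩, ?_, rfl⟩
    rw [mem_filter]
    exact ⟨mem_univ _, (h a).2 h2⟩

theorem rsvB_mod {K : ℕ} (r : ℕ) (hr : r < K) (a : ℕ) :
    a % K = r ↔ (a : ℤ) ≡ (r : ℤ) [ZMOD K] := by
  rw [Int.natCast_modEq_iff]
  constructor
  · intro h
    unfold Nat.ModEq
    rw [h, Nat.mod_eq_of_lt hr]
  · intro h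
    unfold Nat.ModEq at h
    rwa [Nat.mod_eq_of_lt hr] at h

theorem cnt_fin {K : ℕ} (n r : ℕ) (hr : r < K) :
    |(K : ℝ) * ((univ.filter (fun s : Fin n => s.val % K = r)).card : ℝ) - n| ≤ K := by
  have h := cnt_ico (K := K) (by omega) 0 n r (by positivity)
  rw [rsvB_fin n (fun b => b ≡ (r : ℤ) [ZMOD K]) (fun a => a % K = r)
    (fun a => rsvB_mod r hr a)]
  simpa using h

theorem cnt_fin3 (K : Fin 3 → ℕ) (h01 : Nat.Coprime (K 0) (K 1)) (h02 : Nat.Coprime (K 0) (K 2))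
    (h12 : Nat.Coprime (K 1) (K 2)) (n : ℕ) (r : Fin 3 → ℕ) (hr : ∀ κ, r κ < K κ) :
    |((K 0 * K 1 * K 2 : ℕ) : ℝ) *
      ((univ.filter (fun s : Fin n => ∀ κ, s.val % K κ = r κ)).card : ℝ) - n| ≤
      ((K 0 * K 1 * K 2 : ℕ) : ℝ) := by
  obtain ⟨c, hc⟩ := rsvB_crt h01 (r 0) (r 1)
  obtain ⟨e, he⟩ := rsvB_crt (Nat.Coprime.mul_left h02 h12) c (r 2)
  have hpos : 1 ≤ K 0 * K 1 * K 2 :=
    Nat.mul_pos (Nat.mul_pos (by have := hr 0; omega) (by have := hr 1; omega))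
      (by have := hr 2; omega)
  have h := cnt_ico hpos 0 n e (by positivity)
  rw [rsvB_fin n (fun b => b ≡ e [ZMOD ((K 0 * K 1 * K 2 : ℕ) : ℤ)])
    (fun a => ∀ κ, a % K κ = r κ) (fun a => by
      rw [← he, ← hc, ← rsvB_mod _ (hr 0), ← rsvB_mod _ (hr 1), ← rsvB_mod _ (hr 2),
        Fin.forall_fin_succ, Fin.forall_fin_succ, Fin.forall_fin_succ]
      simp only [IsEmpty.forall_iff, and_true, Fin.isValue, Fin.succ_zero_eq_one,
        Fin.succ_one_eq_two, and_assoc])]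
  simpa using h

end H77.LT.Rsv
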