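import Pool.Agent.H77.LT.Geo
import Pool.Agent.H73.LT.RsvB

/-!
# [H73 LT RSVC] Counting the cells of a line with given residues of the other two lines (MP_0b346b_co)

Geometry: `Pool/Agent/H77/LT/Base.lean`, `Geo.lean` (`geo_tr`, `geo_mkc`, `geo_ln_mkc`, `lnOf_surj`, `lnOf_eq_iff`).

Proof of `cell_par`. `a = l + 1` (residue with `lnOf a = l`, `1 ≤ a ≤ m`). A cell `q` with `ln κ q = l` has exactly one sign
normalisation with coordinate `κ` equal to `a`; let `b ∈ [1, 2m]` be the representative of coordinate `κ'` in this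
normalisation; `b ≠ N - a` (the third coordinate `-(a+b)` is not zero), `N = 2m+1`. Conversely every
`b ∈ [1,2m]`, `b ≠ N - a` gives a cell (`geo_tr_valid`). The line of direction `κ'` is the class of `b`, number `min b (N-b) - 1`, the
line of direction `κ''` is the class of `c = (a + b) mod N`, number `min c (N-c) - 1`.
So the count is the number of `b` in `[1,N) \ {N-a}` with the two conditions; this set is the disjoint union of
* `1 ≤ b ≤ m-a`: numbers `b-1`, `a+b-1`;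
* `m-a < b ≤ m`: numbers `b-1`, `N-a-b-1`;
* `m < b < N-a`: numbers `N-b-1`, `N-a-b-1`;
* `N-a < b < N`: numbers `N-b-1`, `a+b-N-1`.
In each part the conditions say `b ≡ u mod K'`, `b ≡ v mod K''` with suitable integers `u`, `v`.

Proof of `cnt_cell`: `cell_par` and `cnt_ico2` for each part; the lengths of the parts have the sum `2m-1`:
`|K' K'' # - (2m-1)| ≤ 4 K' K''`.
-/

open Finset

namespace H77.LT.Rsv

variable {m n : ℕ}

theorem rsvC_sum {κ κ' κ'' : Fin 3} (h1 : κ ≠ κ') (h2 : κ ≠ κ'') (h3 : κ' ≠ κ'')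
    (x : Fin 3 → ZN m) : x κ + x κ' + x κ'' = x 0 + x 1 + x 2 := by
  fin_cases κ <;> fin_cases κ' <;> fin_cases κ'' <;> simp at h1 h2 h3 ⊢ <;> ring

theorem rsvC_natint (A B : ℕ) (P : ℕ → Prop) [DecidablePred P] (Q : ℤ → Prop) [DecidablePred Q]
    (h : ∀ b, A ≤ b → b < B → (P b ↔ Q (b : ℤ))) :
    ((Ico A B).filter P).card = ((Ico (A : ℤ) (B : ℤ)).filter Q).card := by
  refine Finset.card_bij (fun (b : ℕ) _ => (b : ℤ)) ?_ ?_ ?_
  · intro b hb
    rw [mem_filter, mem_Ico] at hb ⊢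
    refine ⟨⟨by exact_mod_cast hb.1.1, by exact_mod_cast hb.1.2⟩, (h b hb.1.1 hb.1.2).1 hb.2⟩
  · intro b _ b' _ hbb
    exact_mod_cast hbb
  · intro b hb
    rw [mem_filter, mem_Ico] at hb
    obtain ⟨n, rfl⟩ := Int.eq_ofNat_of_zero_le (le_trans (Int.natCast_nonneg A) hb.1.1)
    have h1 : A ≤ n := by exact_mod_cast hb.1.1
    have h2 : n < B := by exact_mod_cast hb.1.2
    refine ⟨n, ?_, rfl⟩
    rw [mem_filter, mem_Ico]
    exact ⟨⟨h1, h2⟩, (h n h1 h2).2 hb.2⟩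

theorem rsvC_mod {K r : ℕ} (hr : r < K) (y : ℕ) (z : ℤ) (hz : (y : ℤ) = z) :
    y % K = r ↔ z ≡ r [ZMOD K] := by
  rw [← hz, Int.natCast_modEq_iff, Nat.ModEq, Nat.mod_eq_of_lt hr]

theorem rsvC_add (K b c r : ℤ) : (b + c ≡ r [ZMOD K]) ↔ (b ≡ r - c [ZMOD K]) := by
  rw [Int.modEq_iff_dvd, Int.modEq_iff_dvd]
  have : r - (b + c) = r - c - b := by ring
  rw [this]

theorem rsvC_sub (K b c r : ℤ) : (c - b ≡ r [ZMOD K]) ↔ (b ≡ c - r [ZMOD K]) := by
  rw [Int.modEq_iff_dvd, Int.modEq_iff_dvd]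
  have : r - (c - b) = -(c - r - b) := by ring
  rw [this, dvd_neg]

/-- the condition on the natural number `b` -/
def rsvC_P (m l K' r' K'' r'' : ℕ) (b : ℕ) : Prop :=
  (min b (2 * m + 1 - b) - 1) % K' = r' ∧
    (min ((l + 1 + b) % (2 * m + 1)) (2 * m + 1 - (l + 1 + b) % (2 * m + 1)) - 1) % K'' = r''

instance (m l K' r' K'' r'' : ℕ) : DecidablePred (rsvC_P m l K' r' K'' r'') := fun b => by
  unfold rsvC_P; infer_instance

theorem rsvC_bij {κ κ' κ'' : Fin 3} (h1 : κ ≠ κ') (h2 : κ ≠ κ'') (h3 : κ' ≠ κ'') (l : Fin m)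
    {K' K'' : ℕ} (r' r'' : ℕ) :
    (univ.filter (fun q : Cell m => ln κ q = l ∧ (ln κ' q).val % K' = r' ∧
        (ln κ'' q).val % K'' = r'')).card =
    ((Ico 1 (2 * m + 1)).filter (fun b => b ≠ 2 * m - l.val ∧
      rsvC_P m l.val K' r' K'' r'' b)).card := by
  have hl := l.isLt
  set A : ZN m := ((l.val + 1 : ℕ) : ZN m) with hAdef
  have hAv : A.val = l.val + 1 := ZMod.val_cast_of_lt (by omega)
  have hA : A ≠ 0 := by
    intro h
    rw [h, ZMod.val_zero] at hAv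
    omega
  have hlA : lnOf A hA = l := by
    apply Fin.ext
    change cls A - 1 = l.val
    rw [cls, hAv]
    omega
  -- facts about b
  have hBv : ∀ b : ℕ, b < 2 * m + 1 → ((b : ℕ) : ZN m).val = b := fun b hb =>
    ZMod.val_cast_of_lt hb
  have hB0 : ∀ b : ℕ, 1 ≤ b → b < 2 * m + 1 → ((b : ℕ) : ZN m) ≠ 0 := by
    intro b hb1 hb2 h
    have := hBv b hb2
    rw [h, ZMod.val_zero] at this
    omega
  have hAB : ∀ b : ℕ, 1 ≤ b → b < 2 * m + 1 → b ≠ 2 * m - l.val → A ≠ -((b : ℕ) : ZN m) := by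
    intro b hb1 hb2 hb3 h
    have h4 := congrArg ZMod.val h
    rw [geo_val_neg (hB0 b hb1 hb2), hAv, hBv b hb2] at h4
    omega
  -- the condition for the cell of b
  have hcell : ∀ (b : ℕ) (hb1 : 1 ≤ b) (hb2 : b < 2 * m + 1) (hb3 : b ≠ 2 * m - l.val)
      (hv : Valid (geo_tr κ κ' A ((b : ℕ) : ZN m))),
      ln κ (mkc (geo_tr κ κ' A ((b : ℕ) : ZN m)) hv) = l ∧
      (ln κ' (mkc (geo_tr κ κ' A ((b : ℕ) : ZN m)) hv)).val = min b (2 * m + 1 - b) - 1 ∧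
      (ln κ'' (mkc (geo_tr κ κ' A ((b : ℕ) : ZN m)) hv)).val =
        min ((l.val + 1 + b) % (2 * m + 1)) (2 * m + 1 - (l.val + 1 + b) % (2 * m + 1)) - 1 := by
    intro b hb1 hb2 hb3 hv
    obtain ⟨h4, h5⟩ := geo_ln_mkc h1 hA (hB0 b hb1 hb2) hv
    refine ⟨h4.trans hlA, ?_, ?_⟩
    · rw [h5]
      change cls ((b : ℕ) : ZN m) - 1 = _
      rw [cls, hBv b hb2]
    · rw [ln_mkc]
      have hs0 : A + ((b : ℕ) : ZN m) ≠ 0 := by
        intro h6
        exact hAB b hb1 hb2 hb3 (eq_neg_of_add_eq_zero_left h6)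
      have h6 : lnOf (geo_tr κ κ' A ((b : ℕ) : ZN m) κ'') (hv.1 κ'') =
          lnOf (A + ((b : ℕ) : ZN m)) hs0 := by
        rw [lnOf_eq_iff]
        right
        unfold geo_tr
        rw [if_neg h2.symm, if_neg h3.symm]
        ring
      rw [h6]
      change cls (A + ((b : ℕ) : ZN m)) - 1 = _
      rw [cls, ZMod.val_add, hAv, hBv b hb2]
  symm
  have hval : ∀ b ∈ (Ico 1 (2 * m + 1)).filter (fun b => b ≠ 2 * m - l.val ∧
      rsvC_P m l.val K' r' K'' r'' b), Valid (geo_tr κ κ' A ((b : ℕ) : ZN m)) := by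
    intro b hb
    rw [mem_filter, mem_Ico] at hb
    exact geo_tr_valid h1 hA (hB0 b hb.1.1 hb.1.2) (hAB b hb.1.1 hb.1.2 hb.2.1)
  apply Finset.card_bij (fun b hb => mkc (geo_tr κ κ' A ((b : ℕ) : ZN m)) (hval b hb))
  · intro b hb
    have hv := hval b hb
    rw [mem_filter, mem_Ico] at hb
    obtain ⟨h4, h5, h6⟩ := hcell b hb.1.1 hb.1.2 hb.2.1 hv
    rw [mem_filter]
    refine ⟨mem_univ _, h4, ?_, ?_⟩
    · rw [h5]; exact hb.2.2.1
    · rw [h6]; exact hb.2.2.2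
  · intro b hb b' hb' hbb
    rw [mkc_eq_iff] at hbb
    rw [mem_filter, mem_Ico] at hb hb'
    rcases hbb with h4 | h4
    · have h5 := congrFun h4 κ'
      rw [geo_tr_snd h1, geo_tr_snd h1] at h5
      have h6 := congrArg ZMod.val h5
      rwa [hBv b hb.1.2, hBv b' hb'.1.2] at h6
    · have h5 := congrFun h4 κ
      rw [Pi.neg_apply, geo_tr_fst, geo_tr_fst] at h5
      exact absurd h5 (two_ne_zero' hA)
  · intro q hq
    rw [mem_filter] at hq
    obtain ⟨-, hq1, hq2, hq3⟩ := hq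
    have hsum := rsvC_sum h1 h2 h3 q.1
    rw [q.2.1.2] at hsum
    have h3ne : q.1 κ'' ≠ 0 := q.2.1.1 κ''
    have hκ : q.1 κ = A ∨ q.1 κ = -A := by
      rw [← hlA] at hq1
      unfold ln at hq1
      rwa [lnOf_eq_iff] at hq1
    -- the normalised second coordinate
    obtain ⟨B, hB, hBA, hcase⟩ : ∃ B : ZN m, B ≠ 0 ∧ A ≠ -B ∧
        ((q.1 κ = A ∧ q.1 κ' = B) ∨ (q.1 κ = -A ∧ q.1 κ' = -B)) := by
      rcases hκ with h4 | h4
      · refine ⟨q.1 κ', q.2.1.1 κ', ?_, Or.inl ⟨h4, rfl⟩⟩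
        intro h5
        apply h3ne
        rw [h4, h5] at hsum
        linear_combination hsum
      · refine ⟨-(q.1 κ'), neg_ne_zero.2 (q.2.1.1 κ'), ?_, Or.inr ⟨h4, by rw [neg_neg]⟩⟩
        intro h5
        apply h3ne
        rw [h4, h5] at hsum
        linear_combination hsum
    have hBlt : B.val < 2 * m + 1 := ZMod.val_lt B
    have hB1 := geo_val_pos hB
    have hBc : ((B.val : ℕ) : ZN m) = B := ZMod.natCast_zmod_val B
    have hBne : B.val ≠ 2 * m - l.val := by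
      intro h5
      apply hBA
      apply ZMod.val_injective
      rw [geo_val_neg hB, hAv, h5]
      omega
    have hv : Valid (geo_tr κ κ' A B) := geo_tr_valid h1 hA hB hBA
    have hqe := geo_mkc h1 q hv hcase
    have hv' : Valid (geo_tr κ κ' A ((B.val : ℕ) : ZN m)) := by rw [hBc]; exact hv
    have hqe' : q = mkc (geo_tr κ κ' A ((B.val : ℕ) : ZN m)) hv' := by
      rw [hqe]
      congr 1
      rw [hBc]
    obtain ⟨h4, h5, h6⟩ := hcell B.val hB1 hBlt hBne hv'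
    rw [← hqe'] at h4 h5 h6
    have hmem : B.val ∈ (Ico 1 (2 * m + 1)).filter (fun b => b ≠ 2 * m - l.val ∧
        rsvC_P m l.val K' r' K'' r'' b) := by
      rw [mem_filter, mem_Ico]
      refine ⟨⟨hB1, hBlt⟩, hBne, ?_, ?_⟩
      · rw [← h5]; exact hq2
      · rw [← h6]; exact hq3
    exact ⟨B.val, hmem, hqe'.symm⟩

theorem rsvC_split (m l : ℕ) (hl : l < m) (P : ℕ → Prop) [DecidablePred P] :
    ((Ico 1 (2 * m + 1)).filter (fun b => b ≠ 2 * m - l ∧ P b)).card =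
      ((Ico 1 (m - l)).filter P).card + ((Ico (m - l) (m + 1)).filter P).card +
      ((Ico (m + 1) (2 * m - l)).filter P).card +
      ((Ico (2 * m - l + 1) (2 * m + 1)).filter P).card := by
  have h1 : (Ico 1 (2 * m + 1)).filter (fun b => b ≠ 2 * m - l ∧ P b) =
      ((((Ico 1 (m - l)).filter P) ∪ ((Ico (m - l) (m + 1)).filter P)) ∪
      ((Ico (m + 1) (2 * m - l)).filter P)) ∪
      ((Ico (2 * m - l + 1) (2 * m + 1)).filter P) := by
    ext b
    simp only [mem_filter, mem_union, mem_Ico]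
    constructor
    · rintro ⟨⟨h1, h2⟩, h3, h4⟩
      rcases lt_or_ge b (m - l) with h5 | h5
      · exact Or.inl (Or.inl (Or.inl ⟨⟨h1, h5⟩, h4⟩))
      · rcases lt_or_ge b (m + 1) with h6 | h6
        · exact Or.inl (Or.inl (Or.inr ⟨⟨h5, h6⟩, h4⟩))
        · rcases lt_or_ge b (2 * m - l) with h7 | h7
          · exact Or.inl (Or.inr ⟨⟨h6, h7⟩, h4⟩)
          · exact Or.inr ⟨⟨by omega, h2⟩, h4⟩
    · rintro (((⟨⟨h1, h2⟩, h3⟩ | ⟨⟨h1, h2⟩, h3⟩) | ⟨⟨h1, h2⟩, h3⟩) | ⟨⟨h1, h2⟩, h3⟩)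
      · exact ⟨⟨by omega, by omega⟩, by omega, h3⟩
      · exact ⟨⟨by omega, by omega⟩, by omega, h3⟩
      · exact ⟨⟨by omega, by omega⟩, by omega, h3⟩
      · exact ⟨⟨by omega, by omega⟩, by omega, h3⟩
  rw [h1, card_union_of_disjoint, card_union_of_disjoint, card_union_of_disjoint]
  · rw [Finset.disjoint_left]
    intro b hb hb'
    simp only [mem_filter, mem_Ico] at hb hb'
    omega
  · rw [Finset.disjoint_left]
    intro b hb hb'
    simp only [mem_filter, mem_union, mem_Ico] at hb hb'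
    omega
  · rw [Finset.disjoint_left]
    intro b hb hb'
    simp only [mem_filter, mem_union, mem_Ico] at hb hb'
    omega

theorem cell_par {κ κ' κ'' : Fin 3} (h1 : κ ≠ κ') (h2 : κ ≠ κ'') (h3 : κ' ≠ κ'') (l : Fin m)
    {K' K'' : ℕ} (r' r'' : ℕ) (hr' : r' < K') (hr'' : r'' < K'') :
    ∃ u v : Fin 4 → ℤ,
      (univ.filter (fun q : Cell m => ln κ q = l ∧ (ln κ' q).val % K' = r' ∧
        (ln κ'' q).val % K'' = r'')).card =
      ((Ico (1 : ℤ) (m - l.val)).filter (fun b => b ≡ u 0 [ZMOD K'] ∧ b ≡ v 0 [ZMOD K''])).card +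
      ((Ico (m - l.val : ℤ) (m + 1)).filter (fun b => b ≡ u 1 [ZMOD K'] ∧ b ≡ v 1 [ZMOD K''])).card +
      ((Ico (m + 1 : ℤ) (2 * m - l.val)).filter (fun b => b ≡ u 2 [ZMOD K'] ∧ b ≡ v 2 [ZMOD K''])).card +
      ((Ico (2 * m - l.val + 1 : ℤ) (2 * m + 1)).filter
        (fun b => b ≡ u 3 [ZMOD K'] ∧ b ≡ v 3 [ZMOD K''])).card := by
  have hl := l.isLt
  refine ⟨![r' - (-1), r' - (-1), 2 * m - r', 2 * m - r'],
    ![r'' - l.val, 2 * m - 1 - l.val - r'', 2 * m - 1 - l.val - r'', r'' - (l.val - 2 * m - 1)], ?_⟩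
  rw [rsvC_bij h1 h2 h3 l r' r'', rsvC_split m l.val hl]
  simp only [Matrix.cons_val]
  have e1 : ((m - l.val : ℕ) : ℤ) = (m : ℤ) - l.val := by
    rw [Nat.cast_sub hl.le]
  have e2 : ((2 * m - l.val : ℕ) : ℤ) = 2 * (m : ℤ) - l.val := by
    rw [Nat.cast_sub (by omega)]
    push_cast
    ring
  have e3 : ((m + 1 : ℕ) : ℤ) = (m : ℤ) + 1 := by push_cast; ring
  have e4 : ((2 * m + 1 : ℕ) : ℤ) = 2 * (m : ℤ) + 1 := by push_cast; ring
  have e5 : ((2 * m - l.val + 1 : ℕ) : ℤ) = 2 * (m : ℤ) - l.val + 1 := by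
    rw [Nat.cast_add, e2]
    push_cast
    ring
  have p1 := rsvC_natint 1 (m - l.val) (rsvC_P m l.val K' r' K'' r'')
    (fun b => b ≡ (r' : ℤ) - (-1) [ZMOD K'] ∧ b ≡ (r'' : ℤ) - l.val [ZMOD K'']) (by
      intro b hb1 hb2
      unfold rsvC_P
      have hmod : (l.val + 1 + b) % (2 * m + 1) = l.val + 1 + b := Nat.mod_eq_of_lt (by omega)
      rw [hmod, rsvC_mod hr' _ ((b : ℤ) + (-1)) (by omega), rsvC_mod hr'' _ ((b : ℤ) + l.val)
        (by omega), rsvC_add, rsvC_add])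
  have p2 := rsvC_natint (m - l.val) (m + 1) (rsvC_P m l.val K' r' K'' r'')
    (fun b => b ≡ (r' : ℤ) - (-1) [ZMOD K'] ∧ b ≡ 2 * (m : ℤ) - 1 - l.val - r'' [ZMOD K'']) (by
      intro b hb1 hb2
      unfold rsvC_P
      have hmod : (l.val + 1 + b) % (2 * m + 1) = l.val + 1 + b := Nat.mod_eq_of_lt (by omega)
      rw [hmod, rsvC_mod hr' _ ((b : ℤ) + (-1)) (by omega),
        rsvC_mod hr'' _ (2 * (m : ℤ) - 1 - l.val - b) (by omega), rsvC_add, rsvC_sub])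
  have p3 := rsvC_natint (m + 1) (2 * m - l.val) (rsvC_P m l.val K' r' K'' r'')
    (fun b => b ≡ 2 * (m : ℤ) - r' [ZMOD K'] ∧ b ≡ 2 * (m : ℤ) - 1 - l.val - r'' [ZMOD K'']) (by
      intro b hb1 hb2
      unfold rsvC_P
      have hmod : (l.val + 1 + b) % (2 * m + 1) = l.val + 1 + b := Nat.mod_eq_of_lt (by omega)
      rw [hmod, rsvC_mod hr' _ (2 * (m : ℤ) - b) (by omega),
        rsvC_mod hr'' _ (2 * (m : ℤ) - 1 - l.val - b) (by omega), rsvC_sub, rsvC_sub])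
  have p4 := rsvC_natint (2 * m - l.val + 1) (2 * m + 1) (rsvC_P m l.val K' r' K'' r'')
    (fun b => b ≡ 2 * (m : ℤ) - r' [ZMOD K'] ∧ b ≡ (r'' : ℤ) - (l.val - 2 * m - 1) [ZMOD K'']) (by
      intro b hb1 hb2
      unfold rsvC_P
      have hmod : (l.val + 1 + b) % (2 * m + 1) = l.val + 1 + b - (2 * m + 1) := by
        rw [Nat.mod_eq_sub_mod (by omega), Nat.mod_eq_of_lt (by omega)]
      rw [hmod, rsvC_mod hr' _ (2 * (m : ℤ) - b) (by omega),
        rsvC_mod hr'' _ ((b : ℤ) + (l.val - 2 * m - 1)) (by omega), rsvC_sub, rsvC_add])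
  rw [e1] at p1 p2
  rw [e3] at p2 p3
  rw [e2] at p3
  rw [e5, e4] at p4
  rw [p1, p2, p3, p4]
  push_cast
  rfl

theorem cnt_cell {κ κ' κ'' : Fin 3} (h1 : κ ≠ κ') (h2 : κ ≠ κ'') (h3 : κ' ≠ κ'') (l : Fin m)
    {K' K'' : ℕ} (hc : Nat.Coprime K' K'') (r' r'' : ℕ) (hr' : r' < K') (hr'' : r'' < K'') :
    |(K' : ℝ) * K'' * ((univ.filter (fun q : Cell m => ln κ q = l ∧ (ln κ' q).val % K' = r' ∧
      (ln κ'' q).val % K'' = r'')).card : ℝ) - (2 * m + 1)| ≤ 6 * (K' * K'') := by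
  have hl := l.isLt
  obtain ⟨u, v, huv⟩ := cell_par h1 h2 h3 l r' r'' hr' hr''
  have hK' : 1 ≤ K' := by omega
  have hK'' : 1 ≤ K'' := by omega
  have p1 := cnt_ico2 hK' hK'' hc (1 : ℤ) (m - l.val) (u 0) (v 0) (by omega)
  have p2 := cnt_ico2 hK' hK'' hc (m - l.val : ℤ) (m + 1) (u 1) (v 1) (by omega)
  have p3 := cnt_ico2 hK' hK'' hc (m + 1 : ℤ) (2 * m - l.val) (u 2) (v 2) (by omega)
  have p4 := cnt_ico2 hK' hK'' hc (2 * m - l.val + 1 : ℤ) (2 * m + 1) (u 3) (v 3) (by omega)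
  have hKK : (1 : ℝ) ≤ (K' : ℝ) * K'' := by
    have h4 : (1 : ℝ) ≤ (K' : ℝ) := by exact_mod_cast hK'
    have h5 : (1 : ℝ) ≤ (K'' : ℝ) := by exact_mod_cast hK''
    nlinarith
  rw [huv]
  push_cast at p1 p2 p3 p4 ⊢
  rw [abs_le] at p1 p2 p3 p4 ⊢
  obtain ⟨a1, b1⟩ := p1
  obtain ⟨a2, b2⟩ := p2
  obtain ⟨a3, b3⟩ := p3
  obtain ⟨a4, b4⟩ := p4
  constructor <;> linarith

end H77.LT.Rsv
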