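import Pool.Agent.H77.LT.Blocks

/-!
# [H73 LT RSVD] Numerical facts for the union bound (MP_0b346b_co)

Proofs.
* `nd_exp`: `k = h^(E+20)`, `N ≥ h^(4(E+20))`, so `k^2 ≤ √N` and `2N/(24 k^2) ≥ √N/12`; `100 N^3 exp(-√N/12) < 1` for large `N`
  (`Real.tendsto_pow_mul_exp_neg_atTop_nhds_zero` with `x = √N/12`), and `N ≥ h ≥ h0`.
* `nd_blk`: `(h^4-1) h^4 (h^4+1) ≤ h^12 ≤ h^60 ≤ N`.
-/

open Finset

namespace H77.LT.Rsv

theorem nd_exp (E : ℕ) : ∃ h0 : ℕ, ∀ N h : ℕ, h0 ≤ h → h ^ (4 * (E + 20)) ≤ N →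
    100 * (N : ℝ) ^ 3 * Real.exp (-(2 * N / (24 * ((h : ℝ) ^ (E + 20)) ^ 2))) < 1 := by
  have hlim := Real.tendsto_pow_mul_exp_neg_atTop_nhds_zero 6
  have hev := hlim.eventually (gt_mem_nhds (show (0 : ℝ) < 1 / (100 * 12 ^ 6) by positivity))
  obtain ⟨X0, hX0⟩ := Filter.eventually_atTop.1 hev
  obtain ⟨h0, hh0⟩ := exists_nat_gt ((12 * |X0|) ^ 2)
  refine ⟨h0 + 1, fun N h hh hN => ?_⟩
  have hh1 : 1 ≤ h := by omega
  have hhN : h ≤ N := (Nat.le_self_pow (by omega) h).trans hN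
  have hNR : (12 * |X0|) ^ 2 ≤ (N : ℝ) := by
    have h1 : (h0 : ℝ) ≤ N := by
      have : h0 ≤ N := by omega
      exact_mod_cast this
    linarith
  have hN0 : (0 : ℝ) < N := by
    have : 0 < N := by omega
    exact_mod_cast this
  have hs : 12 * |X0| ≤ Real.sqrt N := Real.le_sqrt_of_sq_le hNR
  have hsq : Real.sqrt N * Real.sqrt N = N := Real.mul_self_sqrt hN0.le
  have hs0 : 0 < Real.sqrt N := Real.sqrt_pos.2 hN0
  have hk0 : (0 : ℝ) < ((h : ℝ) ^ (E + 20)) ^ 2 := by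
    have : (0 : ℝ) < h := by exact_mod_cast hh1
    positivity
  have hk : ((h : ℝ) ^ (E + 20)) ^ 2 ≤ Real.sqrt N := by
    apply Real.le_sqrt_of_sq_le
    have h1 : (((h : ℝ) ^ (E + 20)) ^ 2) ^ 2 = ((h ^ (4 * (E + 20)) : ℕ) : ℝ) := by
      push_cast
      rw [← pow_mul, ← pow_mul]
      congr 1
      ring
    rw [h1]
    exact_mod_cast hN
  have hexp : Real.sqrt N / 12 ≤ 2 * N / (24 * ((h : ℝ) ^ (E + 20)) ^ 2) := by
    rw [div_le_div_iff₀ (by norm_num) (by positivity)]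
    have h1 : Real.sqrt N * ((h : ℝ) ^ (E + 20)) ^ 2 ≤ Real.sqrt N * Real.sqrt N :=
      mul_le_mul_of_nonneg_left hk hs0.le
    rw [hsq] at h1
    linarith
  have hx : X0 ≤ Real.sqrt N / 12 := by
    have := le_abs_self X0
    linarith
  have h2 := hX0 _ hx
  have h3 : (N : ℝ) ^ 3 = (12 : ℝ) ^ 6 * (Real.sqrt N / 12) ^ 6 := by
    rw [div_pow, mul_div_cancel₀ _ (by norm_num)]
    nth_rewrite 1 [← hsq]
    ring
  have h4 : Real.exp (-(2 * N / (24 * ((h : ℝ) ^ (E + 20)) ^ 2))) ≤ Real.exp (-(Real.sqrt N / 12)) :=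
    Real.exp_le_exp.2 (neg_le_neg hexp)
  calc 100 * (N : ℝ) ^ 3 * Real.exp (-(2 * N / (24 * ((h : ℝ) ^ (E + 20)) ^ 2)))
      ≤ 100 * (N : ℝ) ^ 3 * Real.exp (-(Real.sqrt N / 12)) :=
        mul_le_mul_of_nonneg_left h4 (by positivity)
    _ = 100 * 12 ^ 6 * ((Real.sqrt N / 12) ^ 6 * Real.exp (-(Real.sqrt N / 12))) := by
        rw [h3]
        ring
    _ < 100 * 12 ^ 6 * (1 / (100 * 12 ^ 6)) := by
        apply mul_lt_mul_of_pos_left h2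
        norm_num
    _ = 1 := by norm_num

theorem nd_blk {N h : ℕ} (hh : 1 ≤ h) (hN : h ^ 60 ≤ N) : KK h 0 * KK h 1 * KK h 2 ≤ N := by
  refine le_trans ?_ hN
  have e0 : KK h 0 = h ^ 4 - 1 := rfl
  have e1 : KK h 1 = h ^ 4 := rfl
  have e2 : KK h 2 = h ^ 4 + 1 := rfl
  rw [e0, e1, e2]
  have ha : 1 ≤ h ^ 4 := Nat.one_le_pow _ _ hh
  obtain ⟨a, ha'⟩ : ∃ a, h ^ 4 = a + 1 := ⟨h ^ 4 - 1, by omega⟩
  have h1 : (h ^ 4 - 1) * h ^ 4 * (h ^ 4 + 1) ≤ (h ^ 4) ^ 3 := by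
    rw [ha', Nat.add_sub_cancel]
    nlinarith [Nat.zero_le a]
  refine h1.trans ?_
  rw [← pow_mul]
  exact Nat.pow_le_pow_right hh (by norm_num)

end H77.LT.Rsv
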