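import Pool.Agent.H77.LT.Blocks
import Pool.Agent.H73.LT.RsvA

/-!
# [H73 LT RSVE] The random reserve: definitions (MP_0b346b_co)

Ground set `E0 h F`: all cells and all board entries not in `F`. Probabilities `pp h`: `x0 h` for
cells, `x0 h * KK h κ` for entries of direction `κ`. For each statistic of `Res` a family of
configurations: index set `s..`, configurations `a..` (sets of vertices).
-/

open Finset

namespace H77.LT.Rsv

variable {m n : ℕ}

/-- admissible entries -/
def Adm (h : ℕ) (F : Finset (Fin 3 × Fin m × Fin n)) (e : Fin 3 × Fin m × Fin n) : Prop :=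
  OnB h e ∧ e ∉ F

instance (h : ℕ) (F : Finset (Fin 3 × Fin m × Fin n)) (e : Fin 3 × Fin m × Fin n) :
    Decidable (Adm h F e) := by
  unfold Adm; infer_instance

/-- the ground set -/
def E0 (h : ℕ) (F : Finset (Fin 3 × Fin m × Fin n)) : Finset (Vt m n) :=
  cels univ ∪ ents (univ.filter (fun e => Adm h F e))

/-- the probabilities -/
noncomputable def pp (h : ℕ) : Vt m n → ℝ
  | Sum.inl _ => x0 h
  | Sum.inr e => x0 h * KK h e.1

/-- the cells of the random set -/
def XQ (T : Finset (Vt m n)) : Finset (Cell m) := univ.filter (fun q => (Sum.inl q : Vt m n) ∈ T)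

/-- the entries of the random set -/
def XE (T : Finset (Vt m n)) : Finset (Fin 3 × Fin m × Fin n) :=
  univ.filter (fun e => (Sum.inr e : Vt m n) ∈ T)

/-- one cell -/
def aC (q : Cell m) : Finset (Vt m n) := {Sum.inl q}

/-- cells of a line -/
def sQl (κ : Fin 3) (l : Fin m) : Finset (Cell m) := univ.filter (fun q => ln κ q = l)

/-- cells of a block -/
def sBk (h : ℕ) (b : Fin 3 → ℕ) : Finset (Cell m) := univ.filter (fun q => blc h q = b)

/-- cells of a block on a line -/
def sBl (h : ℕ) (κ : Fin 3) (l : Fin m) (b : Fin 3 → ℕ) : Finset (Cell m) :=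
  univ.filter (fun q => blc h q = b ∧ ln κ q = l)

/-- admissible entries of a line -/
def sEl (h : ℕ) (F : Finset (Fin 3 × Fin m × Fin n)) (κ : Fin 3) (l : Fin m) : Finset (Fin n) :=
  univ.filter (fun s => Adm h F (κ, l, s))

/-- one entry of a line -/
def aEl (κ : Fin 3) (l : Fin m) (s : Fin n) : Finset (Vt m n) := {Sum.inr (κ, l, s)}

/-- admissible entries of a line, symbol in a block -/
def sBe (h : ℕ) (F : Finset (Fin 3 × Fin m × Fin n)) (κ : Fin 3) (l : Fin m) (b : Fin 3 → ℕ) :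
    Finset (Fin n) :=
  univ.filter (fun s => bls h s = b ∧ Adm h F (κ, l, s))

/-- admissible entries of a symbol -/
def sEs (h : ℕ) (F : Finset (Fin 3 × Fin m × Fin n)) (κ : Fin 3) (s : Fin n) : Finset (Fin m) :=
  univ.filter (fun l => Adm h F (κ, l, s))

/-- one entry of a symbol -/
def aEs (κ : Fin 3) (s : Fin n) (l : Fin m) : Finset (Vt m n) := {Sum.inr (κ, l, s)}

/-- symbols supporting a cell -/
def sSq (h : ℕ) (F : Finset (Fin 3 × Fin m × Fin n)) (q : Cell m) : Finset (Fin n) :=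
  univ.filter (fun s => ∀ κ, Adm h F (κ, ln κ q, s))

/-- the three entries -/
def aSq (q : Cell m) (s : Fin n) : Finset (Vt m n) :=
  univ.image (fun κ : Fin 3 => (Sum.inr (κ, ln κ q, s) : Vt m n))

/-- cells supporting an entry -/
def sSe (h : ℕ) (F : Finset (Fin 3 × Fin m × Fin n)) (κ : Fin 3) (l : Fin m) (s : Fin n) :
    Finset (Cell m) :=
  univ.filter (fun q => ln κ q = l ∧ ∀ κ', κ' ≠ κ → Adm h F (κ', ln κ' q, s))

/-- the cell and the two other entries -/
def aSe (κ : Fin 3) (s : Fin n) (q : Cell m) : Finset (Vt m n) :=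
  insert (Sum.inl q) ((univ.erase κ).image (fun κ' : Fin 3 => (Sum.inr (κ', ln κ' q, s) : Vt m n)))

/-- deviation of a family of configurations -/
def Dev {K : Type} (h : ℕ) (T : Finset (Vt m n)) (t : ℝ) (s : Finset K)
    (A : K → Finset (Vt m n)) : Prop :=
  |(cnt s A T : ℝ) - mean (pp h) s A| < t

/-- all deviations are small -/
structure Good (m n h : ℕ) (F : Finset (Fin 3 × Fin m × Fin n)) (k : ℝ) (T : Finset (Vt m n)) :
    Prop where
  sub : T ⊆ E0 h F
  ql : ∀ κ l, Dev h T (2 * (2 * m + 1) / k) (sQl κ l) aC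
  el : ∀ κ l, Dev h T (2 * (2 * m + 1) / k) (sEl h F κ l) (aEl κ l)
  es : ∀ κ s, Dev h T (2 * (2 * m + 1) / k) (sEs h F κ s) (aEs κ s)
  sq : ∀ q, Dev h T (2 * (2 * m + 1) / k) (sSq h F q) (aSq q)
  se : ∀ κ l s, Dev h T (2 * (2 * m + 1) / k) (sSe h F κ l s) (aSe κ s)
  bk : ∀ b, IsBlk h b → Dev h T ((2 * m + 1) ^ 2 / k) (sBk h b) aC
  bl : ∀ κ l b, IsBlk h b → Dev h T (2 * (2 * m + 1) / k) (sBl h κ l b) aC
  be : ∀ κ l b, IsBlk h b → Dev h T (2 * (2 * m + 1) / k) (sBe h F κ l b) (aEl κ l)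

end H77.LT.Rsv
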