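import Pool.Agent.H77.LT.Geo
import Pool.Agent.H73.LT.RsvE

/-!
# [H73 LT RSVF] The families of configurations are admissible (MP_0b346b_co)

`Cf E S s A` (`RsvA`): configurations inside `E`, at most `3` elements, every vertex in at most `2` of them, at most `S`
of them. Definitions in `RsvE`.

Proofs. `sub`: cells are in `cels univ`, admissible entries in `ents (filter Adm)`. `c3`: singletons; `aSq`: image of
`Fin 3`; `aSe`: `1 + 2`. `two`: for singletons and for `aSq` at most one index (`s` is determined by the entry, `l` by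
the entry, `q` by the cell); `aSe`: `inl q` only for the index `q`; `inr (κ',l',s')` with `κ' ≠ κ` only for the cells on the
lines `(κ,l)` and `(κ',l')`, at most `2` (`card_pair`). `le`: `card_line = 2m-1`; `n ≤ 2m+3 ≤ 2 (2m+1)`; `m`; `card_cell = m (2m-1)`.
* `pp_mem`: `KK h κ ≤ h^4 + 1 ≤ 2 h^4`.
-/

open Finset

namespace H77.LT.Rsv

variable {m n : ℕ}

theorem rsvF_KK (h : ℕ) (κ : Fin 3) : KK h κ ≤ h ^ 4 + 1 := by
  unfold KK
  fin_cases κ
  · change h ^ 4 - 1 ≤ h ^ 4 + 1
    omega
  · change h ^ 4 ≤ h ^ 4 + 1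
    omega
  · exact le_refl _

theorem pp_mem {h : ℕ} (hh : 1 ≤ h) (v : Vt m n) : 0 ≤ pp h v ∧ pp h v ≤ 1 := by
  have h1 : (1 : ℝ) ≤ (h : ℝ) ^ 4 := one_le_pow₀ (by exact_mod_cast hh)
  have hx0 : 0 ≤ x0 h := by
    unfold x0
    positivity
  have hx1 : x0 h * (h : ℝ) ^ 4 = 1 / 1000 := by
    unfold x0
    have : (h : ℝ) ^ 4 ≠ 0 := by positivity
    field_simp
  rcases v with q | e
  · change 0 ≤ x0 h ∧ x0 h ≤ 1
    refine ⟨hx0, ?_⟩
    nlinarith
  · change 0 ≤ x0 h * KK h e.1 ∧ x0 h * KK h e.1 ≤ 1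
    refine ⟨by positivity, ?_⟩
    have h2 : (KK h e.1 : ℝ) ≤ (h : ℝ) ^ 4 + 1 := by exact_mod_cast rsvF_KK h e.1
    have h3 : x0 h * KK h e.1 ≤ x0 h * ((h : ℝ) ^ 4 + 1) := mul_le_mul_of_nonneg_left h2 hx0
    nlinarith

theorem rsvF_cell (h : ℕ) (F : Finset (Fin 3 × Fin m × Fin n)) (q : Cell m) :
    (Sum.inl q : Vt m n) ∈ E0 h F :=
  mem_union_left _ (mem_image_of_mem _ (mem_univ q))

theorem rsvF_ent (h : ℕ) (F : Finset (Fin 3 × Fin m × Fin n)) (e : Fin 3 × Fin m × Fin n)
    (he : Adm h F e) : (Sum.inr e : Vt m n) ∈ E0 h F :=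
  mem_union_right _ (mem_image_of_mem _ (mem_filter.2 ⟨mem_univ e, he⟩))

theorem rsvF_aC (s : Finset (Cell m)) (v : Vt m n) :
    (s.filter (fun j => v ∈ (aC j : Finset (Vt m n)))).card ≤ 2 := by
  refine le_trans (Finset.card_le_one.2 ?_) (by norm_num)
  intro a ha b hb
  have h1 : v = Sum.inl a := mem_singleton.1 (mem_filter.1 ha).2
  have h2 : v = Sum.inl b := mem_singleton.1 (mem_filter.1 hb).2
  exact Sum.inl_injective (h1.symm.trans h2)

theorem rsvF_cfC (h : ℕ) (F : Finset (Fin 3 × Fin m × Fin n)) (s : Finset (Cell m)) (S : ℝ)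
    (hS : (s.card : ℝ) ≤ S) : Cf (E0 h F) S s aC where
  sub q _ := by
    unfold aC
    rw [singleton_subset_iff]
    exact rsvF_cell h F q
  c3 q _ := by
    unfold aC
    rw [card_singleton]
    norm_num
  two v := rsvF_aC s v
  le := hS

theorem rsvF_line (κ : Fin 3) (l : Fin m) :
    (((univ.filter (fun q : Cell m => ln κ q = l)).card : ℕ) : ℝ) ≤ 2 * (2 * m + 1) := by
  rw [card_line]
  have : 2 * m - 1 ≤ 2 * (2 * m + 1) := by omega
  exact_mod_cast this

theorem cf_ql (h : ℕ) (F : Finset (Fin 3 × Fin m × Fin n)) (κ : Fin 3) (l : Fin m) :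
    Cf (E0 h F) (2 * (2 * m + 1)) (sQl κ l) aC :=
  rsvF_cfC h F _ _ (rsvF_line κ l)

theorem cf_bk (h : ℕ) (F : Finset (Fin 3 × Fin m × Fin n)) (b : Fin 3 → ℕ) :
    Cf (E0 h F) ((2 * m + 1) ^ 2) (sBk h b) aC := by
  refine rsvF_cfC h F _ _ ?_
  have h1 : (sBk h b : Finset (Cell m)).card ≤ m * (2 * m - 1) := by
    rw [← card_cell, ← Finset.card_univ]
    exact card_le_card (subset_univ _)
  have h2 : m * (2 * m - 1) ≤ (2 * m + 1) ^ 2 := by
    have h3 : m * (2 * m - 1) ≤ (2 * m + 1) * (2 * m + 1) :=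
      Nat.mul_le_mul (by omega) (by omega)
    rwa [sq]
  exact_mod_cast h1.trans h2

theorem cf_bl (h : ℕ) (F : Finset (Fin 3 × Fin m × Fin n)) (κ : Fin 3) (l : Fin m)
    (b : Fin 3 → ℕ) : Cf (E0 h F) (2 * (2 * m + 1)) (sBl h κ l b) aC := by
  refine rsvF_cfC h F _ _ (le_trans ?_ (rsvF_line κ l))
  refine Nat.cast_le.2 (card_le_card ?_)
  intro q hq
  unfold sBl at hq
  rw [mem_filter] at hq ⊢
  exact ⟨hq.1, hq.2.2⟩

theorem rsvF_n {m n : ℕ} (hn : n ≤ 2 * m + 3) (hm : 1 ≤ m) (s : Finset (Fin n)) :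
    (s.card : ℝ) ≤ 2 * (2 * m + 1) := by
  have h1 : s.card ≤ n := by
    have := card_le_univ s
    rwa [Fintype.card_fin] at this
  have h2 : s.card ≤ 2 * (2 * m + 1) := by omega
  exact_mod_cast h2

theorem rsvF_pos (l : Fin m) : 1 ≤ m := by
  have := l.isLt
  omega

theorem rsvF_cfEl (h : ℕ) (F : Finset (Fin 3 × Fin m × Fin n)) (hn : n ≤ 2 * m + 3) (κ : Fin 3)
    (l : Fin m) (s : Finset (Fin n)) (hs : ∀ x ∈ s, Adm h F (κ, l, x)) :
    Cf (E0 h F) (2 * (2 * m + 1)) s (aEl κ l) where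
  sub x hx := by
    unfold aEl
    rw [singleton_subset_iff]
    exact rsvF_ent h F _ (hs x hx)
  c3 q _ := by
    unfold aEl
    rw [card_singleton]
    norm_num
  two v := by
    refine le_trans (Finset.card_le_one.2 ?_) (by norm_num)
    intro a ha b hb
    have h1 : v = Sum.inr (κ, l, a) := mem_singleton.1 (mem_filter.1 ha).2
    have h2 : v = Sum.inr (κ, l, b) := mem_singleton.1 (mem_filter.1 hb).2
    have h3 := Sum.inr_injective (h1.symm.trans h2)
    simp only [Prod.mk.injEq, true_and] at h3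
    exact h3
  le := rsvF_n hn (rsvF_pos l) s

theorem cf_el (h : ℕ) (F : Finset (Fin 3 × Fin m × Fin n)) (hn : n ≤ 2 * m + 3) (κ : Fin 3)
    (l : Fin m) : Cf (E0 h F) (2 * (2 * m + 1)) (sEl h F κ l) (aEl κ l) := by
  refine rsvF_cfEl h F hn κ l _ fun x hx => ?_
  unfold sEl at hx
  exact (mem_filter.1 hx).2

theorem cf_be (h : ℕ) (F : Finset (Fin 3 × Fin m × Fin n)) (hn : n ≤ 2 * m + 3) (κ : Fin 3)
    (l : Fin m) (b : Fin 3 → ℕ) :
    Cf (E0 h F) (2 * (2 * m + 1)) (sBe h F κ l b) (aEl κ l) := by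
  refine rsvF_cfEl h F hn κ l _ fun x hx => ?_
  unfold sBe at hx
  exact (mem_filter.1 hx).2.2

theorem cf_es (h : ℕ) (F : Finset (Fin 3 × Fin m × Fin n)) (κ : Fin 3) (s : Fin n) :
    Cf (E0 h F) (2 * (2 * m + 1)) (sEs h F κ s) (aEs κ s) where
  sub x hx := by
    unfold aEs
    rw [singleton_subset_iff]
    unfold sEs at hx
    exact rsvF_ent h F _ (mem_filter.1 hx).2
  c3 q _ := by
    unfold aEs
    rw [card_singleton]
    norm_num
  two v := by
    refine le_trans (Finset.card_le_one.2 ?_) (by norm_num)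
    intro a ha b hb
    have h1 : v = Sum.inr (κ, a, s) := mem_singleton.1 (mem_filter.1 ha).2
    have h2 : v = Sum.inr (κ, b, s) := mem_singleton.1 (mem_filter.1 hb).2
    have h3 := Sum.inr_injective (h1.symm.trans h2)
    simp only [Prod.mk.injEq, true_and, and_true] at h3
    exact h3
  le := by
    have h1 : (sEs h F κ s).card ≤ m := by
      have := card_le_univ (sEs h F κ s)
      rwa [Fintype.card_fin] at this
    have h2 : (sEs h F κ s).card ≤ 2 * (2 * m + 1) := by omega
    exact_mod_cast h2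

theorem cf_sq (h : ℕ) (F : Finset (Fin 3 × Fin m × Fin n)) (hn : n ≤ 2 * m + 3) (q : Cell m) :
    Cf (E0 h F) (2 * (2 * m + 1)) (sSq h F q) (aSq q) where
  sub x hx := by
    unfold sSq at hx
    have hx2 := (mem_filter.1 hx).2
    intro v hv
    unfold aSq at hv
    obtain ⟨κ, -, rfl⟩ := mem_image.1 hv
    exact rsvF_ent h F _ (hx2 κ)
  c3 x _ := by
    unfold aSq
    refine card_image_le.trans ?_
    rw [Finset.card_univ, Fintype.card_fin]
  two v := by
    refine le_trans (Finset.card_le_one.2 ?_) (by norm_num)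
    intro a ha b hb
    have h1 := (mem_filter.1 ha).2
    have h2 := (mem_filter.1 hb).2
    unfold aSq at h1 h2
    obtain ⟨κ, -, h3⟩ := mem_image.1 h1
    obtain ⟨κ', -, h4⟩ := mem_image.1 h2
    have h5 := Sum.inr_injective (h3.trans h4.symm)
    simp only [Prod.mk.injEq] at h5
    exact h5.2.2
  le := rsvF_n hn (rsvF_pos (ln 0 q)) _

theorem cf_se (h : ℕ) (F : Finset (Fin 3 × Fin m × Fin n)) (κ : Fin 3) (l : Fin m) (s : Fin n) :
    Cf (E0 h F) (2 * (2 * m + 1)) (sSe h F κ l s) (aSe κ s) where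
  sub q hq := by
    unfold sSe at hq
    have hq2 := (mem_filter.1 hq).2.2
    intro v hv
    unfold aSe at hv
    rcases mem_insert.1 hv with rfl | hv
    · exact rsvF_cell h F q
    · obtain ⟨κ', hκ', rfl⟩ := mem_image.1 hv
      exact rsvF_ent h F _ (hq2 κ' (ne_of_mem_erase hκ'))
  c3 q _ := by
    unfold aSe
    refine (card_insert_le _ _).trans ?_
    have h1 : ((univ.erase κ).image
        (fun κ' : Fin 3 => (Sum.inr (κ', ln κ' q, s) : Vt m n))).card ≤ 2 := by
      refine card_image_le.trans ?_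
      rw [card_erase_of_mem (mem_univ κ), Finset.card_univ, Fintype.card_fin]
    omega
  two v := by
    rcases v with q0 | ⟨κ', l', s'⟩
    · refine le_trans (Finset.card_le_one.2 ?_) (by norm_num)
      have key : ∀ a ∈ (sSe h F κ l s).filter (fun j => (Sum.inl q0 : Vt m n) ∈ aSe κ s j),
          q0 = a := by
        intro a ha
        have h1 := (mem_filter.1 ha).2
        unfold aSe at h1
        rcases mem_insert.1 h1 with h1 | h1
        · exact Sum.inl_injective h1
        · obtain ⟨κ', -, h2⟩ := mem_image.1 h1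
          exact absurd h2 (by simp)
      intro a ha b hb
      rw [← key a ha, ← key b hb]
    · by_cases hκ : κ' = κ
      · refine le_trans (le_of_eq (Finset.card_eq_zero.2 ?_)) (by norm_num : 0 ≤ 2)
        rw [Finset.eq_empty_iff_forall_notMem]
        intro a ha
        have h1 := (mem_filter.1 ha).2
        unfold aSe at h1
        rcases mem_insert.1 h1 with h1 | h1
        · exact absurd h1 (by simp)
        · obtain ⟨κ'', h3, h2⟩ := mem_image.1 h1
          have h5 := Sum.inr_injective h2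
          simp only [Prod.mk.injEq] at h5
          exact ne_of_mem_erase h3 (h5.1.trans hκ)
      · have hsub : (sSe h F κ l s).filter
            (fun j => (Sum.inr (κ', l', s') : Vt m n) ∈ aSe κ s j) ⊆
            univ.filter (fun q : Cell m => ln κ q = l ∧ ln κ' q = l') := by
          intro a ha
          have h0 := (mem_filter.1 ha).1
          have h1 := (mem_filter.1 ha).2
          unfold sSe at h0
          unfold aSe at h1
          rw [mem_filter]
          refine ⟨mem_univ _, (mem_filter.1 h0).2.1, ?_⟩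
          rcases mem_insert.1 h1 with h1 | h1
          · exact absurd h1 (by simp)
          · obtain ⟨κ'', h3, h2⟩ := mem_image.1 h1
            have h5 := Sum.inr_injective h2
            simp only [Prod.mk.injEq] at h5
            rw [← h5.1]
            exact h5.2.1
        refine (card_le_card hsub).trans ?_
        rw [card_pair κ κ' (fun h => hκ h.symm)]
        split_ifs <;> norm_num
  le := by
    refine le_trans ?_ (rsvF_line κ l)
    refine Nat.cast_le.2 (card_le_card ?_)
    intro q hq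
    unfold sSe at hq
    rw [mem_filter] at hq ⊢
    exact ⟨hq.1, hq.2.1⟩

end H77.LT.Rsv
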