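import Pool.Agent.H73.LT.RsvC
import Pool.Agent.H73.LT.RsvE

/-!
# [H73 LT RSVG] The sizes of the families (MP_0b346b_co), first part

Definitions in `RsvE`; `N = 2m+1`. `OnB h (κ,l,s)` says `l.val % KK h κ = s.val % KK h κ`. `Forb.line`: exactly `n - (2m-1) ≤ 4`
entries of `F` on a line; `Forb.symb2`: at most `2` entries `(κ,*,s)` of `F`.

Proofs.
* `cop`: consecutive numbers are coprime; `h^4 - 1`, `h^4 + 1` are odd (`h` even) and differ by `2`.
* `cg_el`: `cnt_fin` with `r = l % K`: `|K #{s : s % K = l % K} - n| ≤ K`; at most `4` of these are in `F`; `|n - (2m+1)| ≤ 2`.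
* `cg_es`: `cnt_fin` on `Fin m`, at most `2` in `F`.
* `cg_sq`: `cnt_fin3` with `r κ = (ln κ q) % KK h κ`: at least `n - P` times `1/P`; at most `3 * 4` of them have an entry in `F`; `n ≥ N - 2`.
* `cg_be`: `bls h s = b` says `s % KK h κ = b κ` for all `κ`: `cnt_fin3`, `n ≤ N + 2`.
-/

open Finset

namespace H77.LT.Rsv

variable {m n : ℕ}

theorem KK_pos {h : ℕ} (hh : 2 ≤ h) (κ : Fin 3) : 1 ≤ KK h κ := by
  have h1 : 2 ^ 4 ≤ h ^ 4 := Nat.pow_le_pow_left hh 4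
  have h2 : (2 : ℕ) ^ 4 = 16 := by norm_num
  rw [h2] at h1
  fin_cases κ
  · change 1 ≤ h ^ 4 - 1
    omega
  · change 1 ≤ h ^ 4
    omega
  · change 1 ≤ h ^ 4 + 1
    omega

theorem rsvG_cop01 {h : ℕ} (hh : 2 ≤ h) : Nat.Coprime (KK h 0) (KK h 1) := by
  have h1 : 1 ≤ h ^ 4 := Nat.one_le_pow _ _ (by omega)
  change Nat.Coprime (h ^ 4 - 1) (h ^ 4)
  obtain ⟨k, hk⟩ : ∃ k, h ^ 4 = k + 1 := ⟨h ^ 4 - 1, by omega⟩
  rw [hk, Nat.add_sub_cancel]
  exact Nat.coprime_self_add_right.2 (Nat.coprime_one_right k)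

theorem rsvG_cop12 {h : ℕ} : Nat.Coprime (KK h 1) (KK h 2) := by
  change Nat.Coprime (h ^ 4) (h ^ 4 + 1)
  exact Nat.coprime_self_add_right.2 (Nat.coprime_one_right _)

theorem rsvG_cop02 {h : ℕ} (hh : 2 ≤ h) (he : Even h) : Nat.Coprime (KK h 0) (KK h 2) := by
  have h1 : 1 ≤ h ^ 4 := Nat.one_le_pow _ _ (by omega)
  have h4 : Even (h ^ 4) := he.pow_of_ne_zero (by norm_num)
  change Nat.Coprime (h ^ 4 - 1) (h ^ 4 + 1)
  obtain ⟨k, hk⟩ : ∃ k, h ^ 4 = k + 1 := ⟨h ^ 4 - 1, by omega⟩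
  rw [hk] at h4 ⊢
  rw [Nat.add_sub_cancel, show k + 1 + 1 = k + 2 by ring]
  rw [Nat.coprime_self_add_right]
  have hodd : Odd k := by
    rw [Nat.even_add_one, Nat.not_even_iff_odd] at h4
    exact h4
  exact (Nat.coprime_two_right).2 hodd

theorem cop {h : ℕ} (hh : 2 ≤ h) (he : Even h) {κ κ' : Fin 3} (hκ : κ ≠ κ') :
    Nat.Coprime (KK h κ) (KK h κ') := by
  have a := rsvG_cop01 hh
  have b := rsvG_cop12 (h := h)
  have c := rsvG_cop02 hh he
  fin_cases κ <;> fin_cases κ' <;> simp at hκ ⊢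
  · exact a
  · exact c
  · exact a.symm
  · exact b
  · exact c.symm
  · exact b.symm

/-- `F` on a line -/
theorem rsvG_line {F : Finset (Fin 3 × Fin m × Fin n)} (hF : Forb m n F) (κ : Fin 3) (l : Fin m) :
    (univ.filter (fun s : Fin n => (κ, l, s) ∈ F)).card ≤ 4 ∧ 2 * m - 1 ≤ n := by
  have h1 := hF.line κ l
  have h2 := hF.hn
  have h3 : (univ.filter (fun s : Fin n => (κ, l, s) ∈ F)).card ≤
      (F.filter (fun e => e.1 = κ ∧ e.2.1 = l)).card := by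
    apply card_le_card_of_injOn (fun s => (κ, l, s))
    · intro s hs
      rw [mem_coe, mem_filter] at hs
      rw [mem_coe, mem_filter]
      exact ⟨hs.2, rfl, rfl⟩
    · intro s _ s' _ hss
      exact (Prod.mk.inj (Prod.mk.inj hss).2).2
  omega

theorem rsvG_symb {F : Finset (Fin 3 × Fin m × Fin n)} (hF : Forb m n F) (κ : Fin 3) (s : Fin n) :
    (univ.filter (fun l : Fin m => (κ, l, s) ∈ F)).card ≤ 2 := by
  refine le_trans ?_ (hF.symb2 κ s)
  apply card_le_card_of_injOn (fun l => (κ, l, s))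
  · intro l hl
    rw [mem_coe, mem_filter] at hl
    rw [mem_coe, mem_filter]
    exact ⟨hl.2, rfl, rfl⟩
  · intro l _ l' _ hll
    exact (Prod.mk.inj (Prod.mk.inj hll).2).1

/-- cardinality of a difference of filters -/
theorem rsvG_diff {α : Type} [Fintype α] [DecidableEq α] (P Q R : α → Prop) [DecidablePred P]
    [DecidablePred Q] [DecidablePred R] (h : ∀ a, R a ↔ P a ∧ ¬ Q a) :
    (univ.filter R).card ≤ (univ.filter P).card ∧
      (univ.filter P).card ≤ (univ.filter R).card + (univ.filter Q).card := by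
  constructor
  · apply card_le_card
    intro a ha
    rw [mem_filter] at ha ⊢
    exact ⟨ha.1, ((h a).1 ha.2).1⟩
  · refine le_trans (card_le_card ?_) (card_union_le _ _)
    intro a ha
    rw [mem_union, mem_filter, mem_filter]
    rw [mem_filter] at ha
    by_cases hQ : Q a
    · exact Or.inr ⟨ha.1, hQ⟩
    · exact Or.inl ⟨ha.1, (h a).2 ⟨ha.2, hQ⟩⟩

theorem cg_el {h : ℕ} (hh : 2 ≤ h) {F : Finset (Fin 3 × Fin m × Fin n)} (hF : Forb m n F)
    (κ : Fin 3) (l : Fin m) :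
    |(KK h κ : ℝ) * (sEl h F κ l).card - (2 * m + 1)| ≤ 7 * KK h κ := by
  have hK := KK_pos hh κ
  have hl := l.isLt
  obtain ⟨hf, hn1⟩ := rsvG_line hF κ l
  have hn2 := hF.hn
  have hc := cnt_fin n (l.val % KK h κ) (Nat.mod_lt _ hK)
  obtain ⟨hd1, hd2⟩ := rsvG_diff (fun s : Fin n => s.val % KK h κ = l.val % KK h κ)
    (fun s : Fin n => (κ, l, s) ∈ F) (fun s : Fin n => Adm h F (κ, l, s)) (by
      intro s
      unfold Adm OnB
      constructor
      · rintro ⟨h1, h2⟩; exact ⟨h1.symm, h2⟩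
      · rintro ⟨h1, h2⟩; exact ⟨h1.symm, h2⟩)
  have he : (sEl h F κ l).card = (univ.filter (fun s : Fin n => Adm h F (κ, l, s))).card := rfl
  rw [← he] at hd1 hd2
  set c := (univ.filter (fun s : Fin n => s.val % KK h κ = l.val % KK h κ)).card with hcdef
  have e1 : ((sEl h F κ l).card : ℝ) ≤ c := by exact_mod_cast hd1
  have e2 : (c : ℝ) ≤ (sEl h F κ l).card + 4 := by
    have : c ≤ (sEl h F κ l).card + 4 := by omega
    exact_mod_cast this
  have e3 : (n : ℝ) ≤ 2 * m + 3 := by exact_mod_cast hn2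
  have e4 : (2 * m : ℝ) ≤ n + 1 := by
    have : 2 * m ≤ n + 1 := by omega
    exact_mod_cast this
  have e5 : (1 : ℝ) ≤ KK h κ := by exact_mod_cast hK
  rw [abs_le] at hc ⊢
  obtain ⟨h1, h2⟩ := hc
  have e6 : (KK h κ : ℝ) * (sEl h F κ l).card ≤ KK h κ * c :=
    mul_le_mul_of_nonneg_left e1 (by linarith)
  have e7 : (KK h κ : ℝ) * c ≤ KK h κ * ((sEl h F κ l).card + 4) :=
    mul_le_mul_of_nonneg_left e2 (by linarith)
  constructor <;> linarith

theorem cg_es {h : ℕ} (hh : 2 ≤ h) {F : Finset (Fin 3 × Fin m × Fin n)} (hF : Forb m n F)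
    (κ : Fin 3) (s : Fin n) :
    |(KK h κ : ℝ) * (sEs h F κ s).card - m| ≤ 3 * KK h κ := by
  have hK := KK_pos hh κ
  have hf := rsvG_symb hF κ s
  have hc := cnt_fin m (s.val % KK h κ) (Nat.mod_lt _ hK)
  obtain ⟨hd1, hd2⟩ := rsvG_diff (fun l : Fin m => l.val % KK h κ = s.val % KK h κ)
    (fun l : Fin m => (κ, l, s) ∈ F) (fun l : Fin m => Adm h F (κ, l, s)) (by
      intro l
      unfold Adm OnB
      exact Iff.rfl)
  have he : (sEs h F κ s).card = (univ.filter (fun l : Fin m => Adm h F (κ, l, s))).card := rfl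
  rw [← he] at hd1 hd2
  set c := (univ.filter (fun l : Fin m => l.val % KK h κ = s.val % KK h κ)).card with hcdef
  have e1 : ((sEs h F κ s).card : ℝ) ≤ c := by exact_mod_cast hd1
  have e2 : (c : ℝ) ≤ (sEs h F κ s).card + 2 := by
    have : c ≤ (sEs h F κ s).card + 2 := by omega
    exact_mod_cast this
  have e5 : (1 : ℝ) ≤ KK h κ := by exact_mod_cast hK
  rw [abs_le] at hc ⊢
  obtain ⟨h1, h2⟩ := hc
  have e6 : (KK h κ : ℝ) * (sEs h F κ s).card ≤ KK h κ * c :=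
    mul_le_mul_of_nonneg_left e1 (by linarith)
  have e7 : (KK h κ : ℝ) * c ≤ KK h κ * ((sEs h F κ s).card + 2) :=
    mul_le_mul_of_nonneg_left e2 (by linarith)
  constructor <;> linarith

theorem cg_sq {h : ℕ} (hh : 2 ≤ h) (he : Even h) {F : Finset (Fin 3 × Fin m × Fin n)}
    (hF : Forb m n F) (q : Cell m) :
    (2 * m + 1) - 15 * ((KK h 0 * KK h 1 * KK h 2 : ℕ) : ℝ) ≤
      ((KK h 0 * KK h 1 * KK h 2 : ℕ) : ℝ) * (sSq h F q).card := by
  have hl := (ln 0 q).isLt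
  have hn1 := (rsvG_line hF 0 (ln 0 q)).2
  have hc := cnt_fin3 (KK h) (rsvG_cop01 hh) (rsvG_cop02 hh he) rsvG_cop12 n
    (fun κ => (ln κ q).val % KK h κ) (fun κ => Nat.mod_lt _ (KK_pos hh κ))
  obtain ⟨-, hd2⟩ := rsvG_diff (fun s : Fin n => ∀ κ, s.val % KK h κ = (ln κ q).val % KK h κ)
    (fun s : Fin n => ∃ κ, (κ, ln κ q, s) ∈ F) (fun s : Fin n => ∀ κ, Adm h F (κ, ln κ q, s)) (by
      intro s
      unfold Adm OnB
      constructor
      · intro h1
        exact ⟨fun κ => (h1 κ).1.symm, fun ⟨κ, hκ⟩ => (h1 κ).2 hκ⟩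
      · rintro ⟨h1, h2⟩ κ
        exact ⟨(h1 κ).symm, fun hκ => h2 ⟨κ, hκ⟩⟩)
  have hq : (univ.filter (fun s : Fin n => ∃ κ, (κ, ln κ q, s) ∈ F)).card ≤ 12 := by
    have h1 : (univ.filter (fun s : Fin n => ∃ κ, (κ, ln κ q, s) ∈ F)) ⊆
        (univ : Finset (Fin 3)).biUnion (fun κ => univ.filter (fun s : Fin n =>
          (κ, ln κ q, s) ∈ F)) := by
      intro s hs
      rw [mem_filter] at hs
      obtain ⟨κ, hκ⟩ := hs.2
      rw [mem_biUnion]
      exact ⟨κ, mem_univ _, mem_filter.2 ⟨mem_univ _, hκ⟩⟩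
    calc _ ≤ _ := card_le_card h1
      _ ≤ ∑ κ : Fin 3, (univ.filter (fun s : Fin n => (κ, ln κ q, s) ∈ F)).card :=
          card_biUnion_le
      _ ≤ ∑ _κ : Fin 3, 4 := sum_le_sum fun κ _ => (rsvG_line hF κ (ln κ q)).1
      _ = 12 := by simp
  have hse : (sSq h F q).card = (univ.filter (fun s : Fin n =>
      ∀ κ, Adm h F (κ, ln κ q, s))).card := rfl
  rw [← hse] at hd2
  set c := (univ.filter (fun s : Fin n => ∀ κ, s.val % KK h κ = (ln κ q).val % KK h κ)).card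
    with hcdef
  set P : ℝ := ((KK h 0 * KK h 1 * KK h 2 : ℕ) : ℝ) with hP
  have hP1 : 1 ≤ P := by
    have h1 : 1 ≤ KK h 0 * KK h 1 * KK h 2 :=
      Nat.mul_pos (Nat.mul_pos (KK_pos hh 0) (KK_pos hh 1)) (KK_pos hh 2)
    rw [hP]
    exact_mod_cast h1
  have e2 : (c : ℝ) ≤ (sSq h F q).card + 12 := by
    have : c ≤ (sSq h F q).card + 12 := by omega
    exact_mod_cast this
  have e4 : (2 * m : ℝ) ≤ n + 1 := by
    have : 2 * m ≤ n + 1 := by omega
    exact_mod_cast this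
  rw [abs_le] at hc
  obtain ⟨h1, h2⟩ := hc
  have e7 : P * c ≤ P * ((sSq h F q).card + 12) := mul_le_mul_of_nonneg_left e2 (by linarith)
  linarith

theorem cg_be {h : ℕ} (hh : 2 ≤ h) (he : Even h) {F : Finset (Fin 3 × Fin m × Fin n)}
    (hF : Forb m n F) (κ : Fin 3) (l : Fin m) (b : Fin 3 → ℕ) (hb : IsBlk h b) :
    ((KK h 0 * KK h 1 * KK h 2 : ℕ) : ℝ) * (sBe h F κ l b).card ≤
      (2 * m + 1) + 3 * ((KK h 0 * KK h 1 * KK h 2 : ℕ) : ℝ) := by
  have hn2 := hF.hn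
  have hc := cnt_fin3 (KK h) (rsvG_cop01 hh) (rsvG_cop02 hh he) rsvG_cop12 n b hb
  have hd1 : (sBe h F κ l b).card ≤ (univ.filter (fun s : Fin n => ∀ κ, s.val % KK h κ = b κ)).card := by
    apply card_le_card
    intro s hs
    unfold sBe at hs
    rw [mem_filter] at hs ⊢
    refine ⟨hs.1, fun κ' => ?_⟩
    exact congrFun hs.2.1 κ'
  set c := (univ.filter (fun s : Fin n => ∀ κ, s.val % KK h κ = b κ)).card with hcdef
  set P : ℝ := ((KK h 0 * KK h 1 * KK h 2 : ℕ) : ℝ) with hP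
  have hP1 : 1 ≤ P := by
    have h1 : 1 ≤ KK h 0 * KK h 1 * KK h 2 :=
      Nat.mul_pos (Nat.mul_pos (KK_pos hh 0) (KK_pos hh 1)) (KK_pos hh 2)
    rw [hP]
    exact_mod_cast h1
  have e1 : ((sBe h F κ l b).card : ℝ) ≤ c := by exact_mod_cast hd1
  have e3 : (n : ℝ) ≤ 2 * m + 3 := by exact_mod_cast hn2
  rw [abs_le] at hc
  obtain ⟨h1, h2⟩ := hc
  have e6 : P * (sBe h F κ l b).card ≤ P * c := mul_le_mul_of_nonneg_left e1 (by linarith)
  linarith

end H77.LT.Rsv
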