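import Pool.Agent.H73.LT.RsvG

/-!
# [H73 LT RSVGB] The sizes of the families (MP_0b346b_co), second part

Definitions in `RsvE`; `N = 2m+1`, `P = KK h 0 * KK h 1 * KK h 2`. `blc h q = b` says `(ln κ q) % KK h κ = b κ` for all `κ`. The product over
`univ.erase κ` has two factors `KK h κ'`, `KK h κ''` (`{κ, κ', κ''}` = all of `Fin 3`; do the three cases of `κ` by `fin_cases`,
or a general auxiliary lemma).

Proofs.
* `cg_se`: `cnt_cell` with `r' = s % KK h κ'`, `r'' = s % KK h κ''`: at least `N - 6 K' K''` times `1/(K' K'')`; a cell `q` of the line for which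
  `(κ', ln κ' q, s) ∈ F`: at most `2` lines `ln κ' q` (`Forb.symb2`) with at most `2` cells each (`card_pair`), two values of
  `κ'`: at most `8` cells.
* `cg_bl`: if `l % KK h κ ≠ b κ` the set is empty; otherwise `cnt_cell` with `r' = b κ'`, `r'' = b κ''`.
* `cg_bk`: sum of `cnt_cell` (`κ = 0`) over the lines `l` with `l % KK h 0 = b 0`; let `a` be their number, `|KK h 0 * a - m| ≤ KK h 0`
  (`cnt_fin`). `P # = KK h 0 * ∑_l (N + 6 θ_l K1 K2)`, `|P # - m N| ≤ K0 N + 6 (m + K0) K1 K2 ≤ 10 N P`, `|m N - N^2/2| = N/2`.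
-/

open Finset

namespace H77.LT.Rsv

variable {m n : ℕ}

/-- the two other directions -/
theorem gb_third (κ : Fin 3) : ∃ κ' κ'' : Fin 3, κ ≠ κ' ∧ κ ≠ κ'' ∧ κ' ≠ κ'' ∧
    univ.erase κ = {κ', κ''} ∧ ∀ i : Fin 3, i ≠ κ → i = κ' ∨ i = κ'' := by
  fin_cases κ
  · exact ⟨1, 2, by decide, by decide, by decide, by decide, by decide⟩
  · exact ⟨0, 2, by decide, by decide, by decide, by decide, by decide⟩
  · exact ⟨0, 1, by decide, by decide, by decide, by decide, by decide⟩

/-- cells of a line with a forbidden entry in one direction -/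
theorem gb_forb {F : Finset (Fin 3 × Fin m × Fin n)} (hF : Forb m n F) {κ κ' : Fin 3}
    (hk : κ ≠ κ') (l : Fin m) (s : Fin n) :
    (univ.filter (fun q : Cell m => ln κ q = l ∧ (κ', ln κ' q, s) ∈ F)).card ≤ 4 := by
  have h1 : (univ.filter (fun q : Cell m => ln κ q = l ∧ (κ', ln κ' q, s) ∈ F)).card ≤
      2 * ((univ.filter (fun q : Cell m => ln κ q = l ∧ (κ', ln κ' q, s) ∈ F)).image
        (fun q => ln κ' q)).card := by
    refine card_le_mul_card_image _ 2 ?_
    intro y _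
    refine le_trans (card_le_card (t := univ.filter
      (fun q : Cell m => ln κ q = l ∧ ln κ' q = y)) ?_) ?_
    · intro q hq
      simp only [mem_filter, mem_univ, true_and] at hq ⊢
      exact ⟨hq.1.1, hq.2⟩
    · rw [card_pair κ κ' hk]
      split_ifs <;> omega
  have h2 : ((univ.filter (fun q : Cell m => ln κ q = l ∧ (κ', ln κ' q, s) ∈ F)).image
        (fun q => ln κ' q)).card ≤ 2 := by
    refine le_trans ?_ (hF.symb2 κ' s)
    refine card_le_card_of_injOn (fun y => (κ', y, s)) ?_ ?_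
    · intro y hy
      simp only [coe_image, Set.mem_image, mem_coe, mem_filter, mem_univ, true_and] at hy ⊢
      obtain ⟨q, hq, rfl⟩ := hy
      exact ⟨hq.2, trivial⟩
    · intro y _ y' _ hyy
      simp only [Prod.mk.injEq, true_and] at hyy
      exact hyy.1
  omega

theorem cg_se {h : ℕ} (hh : 2 ≤ h) (he : Even h) {F : Finset (Fin 3 × Fin m × Fin n)}
    (hF : Forb m n F) (κ : Fin 3) (l : Fin m) (s : Fin n) :
    (2 * m + 1) - 14 * ((∏ κ' ∈ univ.erase κ, KK h κ' : ℕ) : ℝ) ≤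
      ((∏ κ' ∈ univ.erase κ, KK h κ' : ℕ) : ℝ) * (sSe h F κ l s).card := by
  obtain ⟨κ', κ'', h1, h2, h3, h4, h5⟩ := gb_third κ
  rw [h4, prod_pair h3]
  have k1 := KK_pos hh κ'
  have k2 := KK_pos hh κ''
  have hc := cnt_cell h1 h2 h3 l (cop hh he h3) (s.val % KK h κ') (s.val % KK h κ'')
    (Nat.mod_lt _ k1) (Nat.mod_lt _ k2)
  have hsub : (univ.filter (fun q : Cell m => ln κ q = l ∧ (ln κ' q).val % KK h κ' =
      s.val % KK h κ' ∧ (ln κ'' q).val % KK h κ'' = s.val % KK h κ'')) ⊆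
      (sSe h F κ l s ∪ univ.filter (fun q : Cell m => ln κ q = l ∧ (κ', ln κ' q, s) ∈ F)) ∪
        univ.filter (fun q : Cell m => ln κ q = l ∧ (κ'', ln κ'' q, s) ∈ F) := by
    intro q hq
    simp only [mem_filter, mem_univ, true_and] at hq
    obtain ⟨q1, q2, q3⟩ := hq
    by_cases f1 : (κ', ln κ' q, s) ∈ F
    · refine mem_union_left _ (mem_union_right _ ?_)
      simp only [mem_filter, mem_univ, true_and]
      exact ⟨q1, f1⟩
    · by_cases f2 : (κ'', ln κ'' q, s) ∈ F
      · refine mem_union_right _ ?_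
        simp only [mem_filter, mem_univ, true_and]
        exact ⟨q1, f2⟩
      · refine mem_union_left _ (mem_union_left _ ?_)
        unfold sSe
        simp only [mem_filter, mem_univ, true_and]
        refine ⟨q1, fun i hi => ?_⟩
        rcases h5 i hi with rfl | rfl
        · exact ⟨q2, f1⟩
        · exact ⟨q3, f2⟩
  have hcard := (card_le_card hsub).trans (card_union_le _ _)
  have hcard2 := card_union_le (sSe h F κ l s)
    (univ.filter (fun q : Cell m => ln κ q = l ∧ (κ', ln κ' q, s) ∈ F))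
  have f1 := gb_forb hF h1 l s
  have f2 := gb_forb hF h2 l s
  have hle : (univ.filter (fun q : Cell m => ln κ q = l ∧ (ln κ' q).val % KK h κ' =
      s.val % KK h κ' ∧ (ln κ'' q).val % KK h κ'' = s.val % KK h κ'')).card ≤
      (sSe h F κ l s).card + 8 := by omega
  have hle' : ((univ.filter (fun q : Cell m => ln κ q = l ∧ (ln κ' q).val % KK h κ' =
      s.val % KK h κ' ∧ (ln κ'' q).val % KK h κ'' = s.val % KK h κ'')).card : ℝ) ≤
      (sSe h F κ l s).card + 8 := by exact_mod_cast hle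
  have hP : (0 : ℝ) ≤ (KK h κ' : ℝ) * KK h κ'' := by positivity
  have h6 := mul_le_mul_of_nonneg_left hle' hP
  have h7 := (abs_le.1 hc).1
  push_cast
  linarith

theorem cg_bl {h : ℕ} (hh : 2 ≤ h) (he : Even h) (κ : Fin 3) (l : Fin m) (b : Fin 3 → ℕ)
    (hb : IsBlk h b) :
    ((∏ κ' ∈ univ.erase κ, KK h κ' : ℕ) : ℝ) * (sBl h κ l b).card ≤
      (2 * m + 1) + 6 * ((∏ κ' ∈ univ.erase κ, KK h κ' : ℕ) : ℝ) := by
  obtain ⟨κ', κ'', h1, h2, h3, h4, h5⟩ := gb_third κ
  rw [h4, prod_pair h3]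
  have hc := cnt_cell h1 h2 h3 l (cop hh he h3) (b κ') (b κ'') (hb κ') (hb κ'')
  have hle : (sBl h κ l b).card ≤ (univ.filter (fun q : Cell m => ln κ q = l ∧
      (ln κ' q).val % KK h κ' = b κ' ∧ (ln κ'' q).val % KK h κ'' = b κ'')).card := by
    refine card_le_card ?_
    intro q hq
    unfold sBl at hq
    simp only [mem_filter, mem_univ, true_and] at hq ⊢
    exact ⟨hq.2, congrFun hq.1 κ', congrFun hq.1 κ''⟩
  have hle' : ((sBl h κ l b).card : ℝ) ≤ ((univ.filter (fun q : Cell m => ln κ q = l ∧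
      (ln κ' q).val % KK h κ' = b κ' ∧ (ln κ'' q).val % KK h κ'' = b κ'')).card : ℝ) := by
    exact_mod_cast hle
  have hP : (0 : ℝ) ≤ (KK h κ' : ℝ) * KK h κ'' := by positivity
  have h6 := mul_le_mul_of_nonneg_left hle' hP
  have h7 := (abs_le.1 hc).2
  push_cast
  linarith

theorem cg_bk {h : ℕ} (hh : 2 ≤ h) (he : Even h) (b : Fin 3 → ℕ) (hb : IsBlk h b) :
    |((KK h 0 * KK h 1 * KK h 2 : ℕ) : ℝ) * (sBk (m := m) h b).card - (2 * m + 1) ^ 2 / 2| ≤
      14 * (2 * m + 1) * ((KK h 0 * KK h 1 * KK h 2 : ℕ) : ℝ) := by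
  have k0 := KK_pos hh 0
  have k1 := KK_pos hh 1
  have k2 := KK_pos hh 2
  have c12 : Nat.Coprime (KK h 1) (KK h 2) := cop hh he (by decide)
  -- the lines
  set La : Finset (Fin m) := univ.filter (fun l : Fin m => l.val % KK h 0 = b 0) with hLa
  have ha := cnt_fin m (b 0) (hb 0)
  rw [← hLa] at ha
  set A : Fin m → Finset (Cell m) := fun l => univ.filter (fun q : Cell m => ln 0 q = l ∧
      (ln 1 q).val % KK h 1 = b 1 ∧ (ln 2 q).val % KK h 2 = b 2) with hA
  have hcell : ∀ l, |(KK h 1 : ℝ) * KK h 2 * ((A l).card : ℝ) - (2 * m + 1)| ≤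
      6 * (KK h 1 * KK h 2) := fun l =>
    cnt_cell (by decide) (by decide) (by decide) l c12 (b 1) (b 2) (hb 1) (hb 2)
  have hsum : (sBk (m := m) h b).card = ∑ l ∈ La, (A l).card := by
    rw [card_eq_sum_card_fiberwise (f := fun q : Cell m => ln 0 q) (t := La)]
    · refine sum_congr rfl fun l hl => ?_
      congr 1
      ext q
      unfold sBk
      simp only [hA, hLa, mem_filter, mem_univ, true_and] at hl ⊢
      constructor
      · rintro ⟨h1, h2⟩
        exact ⟨h2, congrFun h1 1, congrFun h1 2⟩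
      · rintro ⟨h1, h2, h3⟩
        refine ⟨?_, h1⟩
        funext i
        unfold blc
        fin_cases i
        · change (ln 0 q).val % KK h 0 = b 0
          rw [h1]; exact hl
        · exact h2
        · exact h3
    · intro q hq
      unfold sBk at hq
      simp only [coe_filter, mem_univ, true_and, Set.mem_ofPred_eq] at hq
      simp only [hLa, coe_filter, mem_univ, true_and, Set.mem_ofPred_eq]
      exact congrFun hq 0
  have hR0 : (1 : ℝ) ≤ (KK h 0 : ℝ) := by exact_mod_cast k0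
  have hR1 : (1 : ℝ) ≤ (KK h 1 : ℝ) := by exact_mod_cast k1
  have hR2 : (1 : ℝ) ≤ (KK h 2 : ℝ) := by exact_mod_cast k2
  have hR12 : (1 : ℝ) ≤ (KK h 1 : ℝ) * KK h 2 := by nlinarith
  have hm : (0 : ℝ) ≤ m := Nat.cast_nonneg m
  -- the sum
  have h1 : |(KK h 1 : ℝ) * KK h 2 * ((sBk (m := m) h b).card : ℝ) - La.card * (2 * m + 1)| ≤
      La.card * (6 * (KK h 1 * KK h 2)) := by
    have e1 : (KK h 1 : ℝ) * KK h 2 * ((sBk (m := m) h b).card : ℝ) - La.card * (2 * m + 1) =
        ∑ l ∈ La, ((KK h 1 : ℝ) * KK h 2 * ((A l).card : ℝ) - (2 * m + 1)) := by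
      rw [hsum, sum_sub_distrib, ← mul_sum, sum_const, nsmul_eq_mul]
      push_cast
      ring
    rw [e1]
    refine (abs_sum_le_sum_abs _ _).trans ?_
    refine (sum_le_sum (fun l _ => hcell l)).trans ?_
    rw [sum_const, nsmul_eq_mul]
  -- notation
  generalize (sBk (m := m) h b).card = S at h1 ⊢
  generalize La.card = a at ha h1
  push_cast
  generalize (KK h 0 : ℝ) = K0 at *
  set K12 : ℝ := (KK h 1 : ℝ) * KK h 2 with hK12
  clear_value K12
  have hm' : (KK h 1 : ℝ) * KK h 2 = K12 := hK12.symm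
  have e2 : K0 * (KK h 1 : ℝ) * KK h 2 = K0 * K12 := by rw [mul_assoc, hm']
  rw [e2]
  have hS := abs_le.1 h1
  have ha' := abs_le.1 ha
  have hN : (0 : ℝ) ≤ 2 * m + 1 := by positivity
  -- multiply by K0
  have g1 : K0 * (K12 * S - a * (2 * m + 1)) ≤ K0 * (a * (6 * K12)) :=
    mul_le_mul_of_nonneg_left hS.2 (by linarith)
  have g2 : K0 * -(a * (6 * K12)) ≤ K0 * (K12 * S - a * (2 * m + 1)) :=
    mul_le_mul_of_nonneg_left hS.1 (by linarith)
  have g3 : (K0 * a) * (2 * m + 1) ≤ (m + K0) * (2 * m + 1) :=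
    mul_le_mul_of_nonneg_right (by linarith) hN
  have g4 : (m - K0) * (2 * m + 1) ≤ (K0 * a) * (2 * m + 1) :=
    mul_le_mul_of_nonneg_right (by linarith) hN
  have g5 : (K0 * a) * (6 * K12) ≤ (m + K0) * (6 * K12) :=
    mul_le_mul_of_nonneg_right (by linarith) (by linarith)
  have g6 : (2 * (m : ℝ) + 1) * K0 ≤ (2 * m + 1) * (K0 * K12) := by
    refine mul_le_mul_of_nonneg_left ?_ hN
    nlinarith
  have g7 : (m : ℝ) * K12 ≤ m * (K0 * K12) := by
    refine mul_le_mul_of_nonneg_left ?_ hm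
    nlinarith
  have g8 : (2 * (m : ℝ) + 1) ≤ (2 * m + 1) * (K0 * K12) := by
    have : (1 : ℝ) ≤ K0 * K12 := by nlinarith
    nlinarith
  have g9 : (0 : ℝ) ≤ m * (K0 * K12) := by positivity
  have g10 : (0 : ℝ) ≤ K0 * K12 := by positivity
  rw [abs_le]
  constructor
  · nlinarith
  · nlinarith

end H77.LT.Rsv
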