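import Pool.Agent.H77.LT.Blocks

/-!
# [H73 LT RSVN] Numerical facts for the reserve (MP_0b346b_co)

`x0 h = 1/(1000 h^4)`, `KK h = (h^4-1, h^4, h^4+1)`, `h ≥ 10^10`, `N = 2m+1 ≥ h^(E+60)`.

Proofs. `h^4/2 ≤ KK h κ ≤ 2 h^4`, more precisely `K' K'' ≥ (h^4-1) h^4 ≥ h^8/2` and `K0 K1 K2 = (h^8 - 1) h^4 ≤ h^12`. All claims are
clear with room: put `u = N/h^(E+20)`; then `1 ≤ h^40 ≤ u`, and `N/h^E = h^20 u`.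
* `nm_ql`: `|x0 (2m-1) - x0 (2m+1)| = 2 x0 ≤ 1`.
* `nm_el`, `nm_es`: multiply the hypothesis by `x0`: at most `7 x0 KK ≤ 1` (and `x0/2` for `m = N/2 - 1/2`).
* `nm_sq`, `nm_se`: `x0^3 (N - 15 P) ≥ x0^3 N/2 = N/(2 10^9 h^12) ≥ 2 N/h^13` as `15 P ≤ 15 h^12 ≤ N/2`, `h ≥ 10^10`.
* `nm_bk`: divide the hypothesis by `P`: `|c - N^2/(2P)| ≤ 14 N`, and `14 x0 N ≤ N^2/(2 h^E)`.
* `nm_bl`: `c ≤ N/(K'K'') + 6 ≤ 2 N/h^8 + 6`: `x0 c ≤ 2 x0 N/h^8 + 1`, and `1 + 2N/h^(E+20) ≤ x0 N/h^8` (`x0/h^8 = 1/(1000 h^12)`).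
* `nm_be`: `x0 KK h κ c ≤ x0 (N/(K'K'') + 3 KK h κ)`, `P = KK h κ K' K''`.
-/

open Finset

namespace H77.LT.Rsv

/-- bounds for the moduli -/
private theorem nm_K {h : ℕ} (hh : 10 ^ 10 ≤ h) (κ : Fin 3) :
    (h : ℝ) ^ 4 - 1 ≤ (KK h κ : ℝ) ∧ (KK h κ : ℝ) ≤ (h : ℝ) ^ 4 + 1 := by
  have h1 : 1 ≤ h ^ 4 := Nat.one_le_pow _ _ (by omega)
  have h2 : ∀ κ : Fin 3, h ^ 4 ≤ KK h κ + 1 ∧ KK h κ ≤ h ^ 4 + 1 := by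
    intro κ
    have e0 : KK h 0 = h ^ 4 - 1 := rfl
    have e1 : KK h 1 = h ^ 4 := rfl
    have e2 : KK h 2 = h ^ 4 + 1 := rfl
    fin_cases κ
    · show h ^ 4 ≤ KK h 0 + 1 ∧ KK h 0 ≤ h ^ 4 + 1
      rw [e0]
      omega
    · show h ^ 4 ≤ KK h 1 + 1 ∧ KK h 1 ≤ h ^ 4 + 1
      rw [e1]
      omega
    · show h ^ 4 ≤ KK h 2 + 1 ∧ KK h 2 ≤ h ^ 4 + 1
      rw [e2]
      omega
  obtain ⟨h3, h4⟩ := h2 κ
  have h3' : (h : ℝ) ^ 4 ≤ (KK h κ : ℝ) + 1 := by exact_mod_cast h3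
  have h4' : (KK h κ : ℝ) ≤ (h : ℝ) ^ 4 + 1 := by exact_mod_cast h4
  exact ⟨by linarith, h4'⟩

private theorem nm_P {h : ℕ} (hh : 10 ^ 10 ≤ h) :
    ((KK h 0 * KK h 1 * KK h 2 : ℕ) : ℝ) = ((h : ℝ) ^ 4 - 1) * ((h : ℝ) ^ 4 + 1) * (h : ℝ) ^ 4 := by
  have h1 : 1 ≤ h ^ 4 := Nat.one_le_pow _ _ (by omega)
  have e0 : KK h 0 = h ^ 4 - 1 := rfl
  have e1 : KK h 1 = h ^ 4 := rfl
  have e2 : KK h 2 = h ^ 4 + 1 := rfl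
  rw [e0, e1, e2]
  push_cast [h1]
  ring

private theorem nm_erase {h : ℕ} (κ : Fin 3) :
    (KK h κ : ℝ) * ((∏ κ' ∈ univ.erase κ, KK h κ' : ℕ) : ℝ) =
      ((KK h 0 * KK h 1 * KK h 2 : ℕ) : ℝ) := by
  have e1 := Finset.mul_prod_erase univ (fun κ' => KK h κ') (Finset.mem_univ κ)
  rw [Fin.prod_univ_three] at e1
  rw [← e1]
  push_cast
  ring

/-- bounds for the product of two moduli -/
private theorem nm_P2 {h : ℕ} (hh : 10 ^ 10 ≤ h) (κ : Fin 3) :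
    (h : ℝ) ^ 8 / 2 ≤ ((∏ κ' ∈ univ.erase κ, KK h κ' : ℕ) : ℝ) ∧
      ((∏ κ' ∈ univ.erase κ, KK h κ' : ℕ) : ℝ) ≤ 2 * (h : ℝ) ^ 8 := by
  obtain ⟨k1, k2⟩ := nm_K hh κ
  have e1 := nm_erase (h := h) κ
  rw [nm_P hh] at e1
  have hH : (10 : ℝ) ^ 10 ≤ (h : ℝ) := by exact_mod_cast hh
  have hH1 : (1 : ℝ) ≤ (h : ℝ) := le_trans (by norm_num) hH
  set H : ℝ := (h : ℝ) with hHd
  set P2 : ℝ := ((∏ κ' ∈ univ.erase κ, KK h κ' : ℕ) : ℝ) with hP2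
  set K : ℝ := (KK h κ : ℝ) with hK
  have hP0 : 0 ≤ P2 := Nat.cast_nonneg _
  have h4 : (10 : ℝ) ^ 10 ≤ H ^ 4 := by
    calc (10 : ℝ) ^ 10 ≤ H := hH
      _ = H ^ 1 := (pow_one _).symm
      _ ≤ H ^ 4 := pow_le_pow_right₀ hH1 (by norm_num)
  have h48 : H ^ 8 = H ^ 4 * H ^ 4 := by ring
  set Z : ℝ := H ^ 4 with hZ
  have hZ2 : (2 : ℝ) ≤ Z := le_trans (by norm_num) h4
  constructor
  · -- (Z-1)(Z+1) Z = K P2 ≤ (Z+1) P2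
    have e2 : K * P2 ≤ (Z + 1) * P2 := mul_le_mul_of_nonneg_right k2 hP0
    rw [e1] at e2
    have e3 : (Z - 1) * Z ≤ P2 := by
      have e4 : (Z + 1) * ((Z - 1) * Z) ≤ (Z + 1) * P2 := by nlinarith [e2]
      exact le_of_mul_le_mul_left e4 (by linarith)
    rw [h48]
    nlinarith [e3]
  · have e2 : (Z - 1) * P2 ≤ K * P2 := mul_le_mul_of_nonneg_right k1 hP0
    rw [e1] at e2
    have e3 : P2 ≤ (Z + 1) * Z := by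
      have e4 : (Z - 1) * P2 ≤ (Z - 1) * ((Z + 1) * Z) := by nlinarith [e2]
      exact le_of_mul_le_mul_left e4 (by linarith)
    rw [h48]
    nlinarith [e3]

/-- the unit `u = N / h^(E+20)` -/
private theorem nm_u {m h E : ℕ} (hh : 10 ^ 10 ≤ h) (hN : h ^ (E + 60) ≤ 2 * m + 1) :
    ∃ u : ℝ, 1 ≤ u ∧ (2 * (m : ℝ) + 1) / (h : ℝ) ^ (E + 20) = u ∧
      (2 * (m : ℝ) + 1) / (h : ℝ) ^ E = (h : ℝ) ^ 20 * u ∧ u * (h : ℝ) ^ 20 ≤ 2 * (m : ℝ) + 1 ∧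
      (h : ℝ) ^ 60 ≤ 2 * (m : ℝ) + 1 := by
  have hH : (10 : ℝ) ^ 10 ≤ (h : ℝ) := by exact_mod_cast hh
  have hH1 : (1 : ℝ) ≤ (h : ℝ) := le_trans (by norm_num) hH
  have hH0 : (0 : ℝ) < (h : ℝ) := by linarith
  have hN' : (h : ℝ) ^ (E + 60) ≤ 2 * (m : ℝ) + 1 := by exact_mod_cast hN
  have hp : (0 : ℝ) < (h : ℝ) ^ (E + 20) := pow_pos hH0 _
  have hpE : (0 : ℝ) < (h : ℝ) ^ E := pow_pos hH0 _
  refine ⟨(2 * (m : ℝ) + 1) / (h : ℝ) ^ (E + 20), ?_, rfl, ?_, ?_, ?_⟩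
  · rw [le_div_iff₀ hp, one_mul]
    exact (pow_le_pow_right₀ hH1 (by omega)).trans hN'
  · rw [pow_add]
    field_simp
  · have e1 : (2 * (m : ℝ) + 1) / (h : ℝ) ^ (E + 20) * (h : ℝ) ^ 20 =
        (2 * (m : ℝ) + 1) / (h : ℝ) ^ E := by
      rw [pow_add]
      field_simp
    rw [e1]
    exact div_le_self (by positivity) (one_le_pow₀ hH1)
  · exact (pow_le_pow_right₀ hH1 (by omega)).trans hN'

private theorem nm_x0 {h : ℕ} (hh : 10 ^ 10 ≤ h) :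
    0 ≤ x0 h ∧ x0 h * 1000 * (h : ℝ) ^ 4 = 1 ∧ x0 h * (7 * ((h : ℝ) ^ 4 + 1)) ≤ 1 / 10 ∧
      x0 h ≤ 1 / 1000 := by
  have hH : (10 : ℝ) ^ 10 ≤ (h : ℝ) := by exact_mod_cast hh
  have hH1 : (1 : ℝ) ≤ (h : ℝ) := le_trans (by norm_num) hH
  have hH0 : (0 : ℝ) < (h : ℝ) := by linarith
  have h4 : (1 : ℝ) ≤ (h : ℝ) ^ 4 := one_le_pow₀ hH1
  have e1 : x0 h * 1000 * (h : ℝ) ^ 4 = 1 := by
    unfold x0
    field_simp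
  have e0 : 0 ≤ x0 h := by
    unfold x0
    positivity
  refine ⟨e0, e1, ?_, ?_⟩
  · nlinarith [mul_nonneg e0 (sub_nonneg.2 h4)]
  · nlinarith [mul_nonneg e0 (sub_nonneg.2 h4)]

/-- `1 + 2 u ≤ h^20 u` -/
private theorem nm_fin {h : ℕ} (hh : 10 ^ 10 ≤ h) (u : ℝ) (hu : 1 ≤ u) :
    1 + 2 * u ≤ (h : ℝ) ^ 20 * u := by
  have hH : (10 : ℝ) ^ 10 ≤ (h : ℝ) := by exact_mod_cast hh
  have hH1 : (1 : ℝ) ≤ (h : ℝ) := le_trans (by norm_num) hH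
  have h20 : (3 : ℝ) ≤ (h : ℝ) ^ 20 := by
    calc (3 : ℝ) ≤ (h : ℝ) := le_trans (by norm_num) hH
      _ = (h : ℝ) ^ 1 := (pow_one _).symm
      _ ≤ (h : ℝ) ^ 20 := pow_le_pow_right₀ hH1 (by norm_num)
  nlinarith

/-- `1 + 2 u ≤ x0 N / h^8` -/
private theorem nm_fin8 {m h : ℕ} (hh : 10 ^ 10 ≤ h) (u : ℝ) (hu : 1 ≤ u)
    (huN : u * (h : ℝ) ^ 20 ≤ 2 * (m : ℝ) + 1) :
    1 + 2 * u ≤ x0 h * (2 * (m : ℝ) + 1) / (h : ℝ) ^ 8 := by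
  have hH : (10 : ℝ) ^ 10 ≤ (h : ℝ) := by exact_mod_cast hh
  have hH1 : (1 : ℝ) ≤ (h : ℝ) := le_trans (by norm_num) hH
  have hH0 : (0 : ℝ) < (h : ℝ) := by linarith
  obtain ⟨x1, x2, x3, x4⟩ := nm_x0 hh
  have h8 : (3000 : ℝ) ≤ (h : ℝ) ^ 8 := by
    calc (3000 : ℝ) ≤ (h : ℝ) := le_trans (by norm_num) hH
      _ = (h : ℝ) ^ 1 := (pow_one _).symm
      _ ≤ (h : ℝ) ^ 8 := pow_le_pow_right₀ hH1 (by norm_num)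
  rw [le_div_iff₀ (pow_pos hH0 8)]
  have e1 : 3 * u * (h : ℝ) ^ 8 ≤ x0 h * (u * (h : ℝ) ^ 20) := by
    have e2 : x0 h * (u * (h : ℝ) ^ 20) =
        (x0 h * 1000 * (h : ℝ) ^ 4) * (u * (h : ℝ) ^ 8 * ((h : ℝ) ^ 8 / 1000)) := by ring
    rw [e2, x2, one_mul]
    have e3 : 3 * u * (h : ℝ) ^ 8 = u * (h : ℝ) ^ 8 * 3 := by ring
    rw [e3]
    refine mul_le_mul_of_nonneg_left ?_ (by positivity)
    linarith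
  have e4 : x0 h * (u * (h : ℝ) ^ 20) ≤ x0 h * (2 * (m : ℝ) + 1) :=
    mul_le_mul_of_nonneg_left huN x1
  have e5 : (1 + 2 * u) * (h : ℝ) ^ 8 ≤ 3 * u * (h : ℝ) ^ 8 :=
    mul_le_mul_of_nonneg_right (by linarith) (by positivity)
  linarith

/-- `2 N / h^13 ≤ x0^3 N / 2` and the consequence for the supports -/
private theorem nm_fin13 {m h E : ℕ} (hh : 10 ^ 10 ≤ h) (hN : h ^ (E + 60) ≤ 2 * m + 1) (Q c : ℝ)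
    (hQ : 30 * Q ≤ (h : ℝ) ^ 13) (hc : (2 * (m : ℝ) + 1) - 15 * Q ≤ Q * c) :
    (2 * (m : ℝ) + 1) / (h : ℝ) ^ 13 + 2 * (2 * (m : ℝ) + 1) / (h : ℝ) ^ (E + 20) ≤
      x0 h ^ 3 * Q * c := by
  have hH : (10 : ℝ) ^ 10 ≤ (h : ℝ) := by exact_mod_cast hh
  have hH1 : (1 : ℝ) ≤ (h : ℝ) := le_trans (by norm_num) hH
  have hH0 : (0 : ℝ) < (h : ℝ) := by linarith
  obtain ⟨x1, x2, x3, x4⟩ := nm_x0 hh
  obtain ⟨u, hu1, hu2, hu3, hu4, hu5⟩ := nm_u (E := E) hh hN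
  have e0 : 2 * (2 * (m : ℝ) + 1) / (h : ℝ) ^ (E + 20) = 2 * u := by
    rw [mul_div_assoc, hu2]
  rw [e0]
  set N : ℝ := 2 * (m : ℝ) + 1 with hNd
  have hN0 : 0 ≤ N := by positivity
  have p13 : (0 : ℝ) < (h : ℝ) ^ 13 := pow_pos hH0 _
  -- u ≤ N / h^13 / 2
  have h7 : (2 : ℝ) ≤ (h : ℝ) ^ 7 := by
    calc (2 : ℝ) ≤ (h : ℝ) := le_trans (by norm_num) hH
      _ = (h : ℝ) ^ 1 := (pow_one _).symm
      _ ≤ (h : ℝ) ^ 7 := pow_le_pow_right₀ hH1 (by norm_num)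
  have e1 : 2 * u ≤ N / (h : ℝ) ^ 13 := by
    rw [le_div_iff₀ p13]
    refine le_trans ?_ hu4
    have e2 : u * (h : ℝ) ^ 20 = (h : ℝ) ^ 7 * (u * (h : ℝ) ^ 13) := by ring
    rw [e2, mul_assoc]
    exact mul_le_mul_of_nonneg_right h7 (by positivity)
  -- 15 Q ≤ N / 2
  have e3 : 15 * Q ≤ N / 2 := by
    have : (h : ℝ) ^ 13 ≤ (h : ℝ) ^ 60 := pow_le_pow_right₀ hH1 (by norm_num)
    linarith
  have e4 : x0 h ^ 3 * (N / 2) ≤ x0 h ^ 3 * Q * c := by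
    rw [mul_assoc]
    refine mul_le_mul_of_nonneg_left ?_ (pow_nonneg x1 3)
    linarith
  have e5 : 2 * (N / (h : ℝ) ^ 13) ≤ x0 h ^ 3 * (N / 2) := by
    have e6 : x0 h ^ 3 = 1 / (10 ^ 9 * (h : ℝ) ^ 12) := by
      unfold x0
      rw [div_pow, one_pow]
      congr 1
      ring
    have e8 : 2 * (N / (h : ℝ) ^ 13) = (4 * 10 ^ 9) * (N / (2 * (10 ^ 9 * (h : ℝ) ^ 13))) := by
      field_simp
      ring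
    have e9 : x0 h ^ 3 * (N / 2) = (h : ℝ) * (N / (2 * (10 ^ 9 * (h : ℝ) ^ 13))) := by
      rw [e6]
      field_simp
    rw [e8, e9]
    refine mul_le_mul_of_nonneg_right ?_ (by positivity)
    linarith
  linarith

theorem nm_ql {m h E : ℕ} (hh : 10 ^ 10 ≤ h) (hN : h ^ (E + 60) ≤ 2 * m + 1) :
    |x0 h * (2 * m - 1) - x0 h * (2 * m + 1)| + 2 * (2 * m + 1) / (h : ℝ) ^ (E + 20) ≤
      (2 * m + 1) / (h : ℝ) ^ E := by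
  obtain ⟨x1, x2, x3, x4⟩ := nm_x0 hh
  obtain ⟨u, hu1, hu2, hu3, hu4, hu5⟩ := nm_u (E := E) hh hN
  rw [hu3, mul_div_assoc, hu2]
  have e1 : x0 h * (2 * m - 1) - x0 h * (2 * m + 1) = -(2 * x0 h) := by ring
  rw [e1, abs_neg, abs_of_nonneg (by linarith)]
  have := nm_fin hh u hu1
  linarith

theorem nm_el {m h E : ℕ} (hh : 10 ^ 10 ≤ h) (hN : h ^ (E + 60) ≤ 2 * m + 1) (κ : Fin 3) (c : ℝ)
    (hc : |(KK h κ : ℝ) * c - (2 * m + 1)| ≤ 7 * KK h κ) :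
    |x0 h * KK h κ * c - x0 h * (2 * m + 1)| + 2 * (2 * m + 1) / (h : ℝ) ^ (E + 20) ≤
      (2 * m + 1) / (h : ℝ) ^ E := by
  obtain ⟨x1, x2, x3, x4⟩ := nm_x0 hh
  obtain ⟨u, hu1, hu2, hu3, hu4, hu5⟩ := nm_u (E := E) hh hN
  obtain ⟨k1, k2⟩ := nm_K hh κ
  rw [hu3, mul_div_assoc, hu2]
  have e1 : x0 h * KK h κ * c - x0 h * (2 * m + 1) = x0 h * ((KK h κ : ℝ) * c - (2 * m + 1)) := by
    ring
  rw [e1, abs_mul, abs_of_nonneg x1]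
  have e2 : x0 h * |(KK h κ : ℝ) * c - (2 * m + 1)| ≤ x0 h * (7 * ((h : ℝ) ^ 4 + 1)) :=
    mul_le_mul_of_nonneg_left (hc.trans (by linarith)) x1
  have := nm_fin hh u hu1
  linarith

theorem nm_es {m h E : ℕ} (hh : 10 ^ 10 ≤ h) (hN : h ^ (E + 60) ≤ 2 * m + 1) (κ : Fin 3) (c : ℝ)
    (hc : |(KK h κ : ℝ) * c - m| ≤ 3 * KK h κ) :
    |x0 h * KK h κ * c - x0 h * (2 * m + 1) / 2| + 2 * (2 * m + 1) / (h : ℝ) ^ (E + 20) ≤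
      (2 * m + 1) / (h : ℝ) ^ E := by
  obtain ⟨x1, x2, x3, x4⟩ := nm_x0 hh
  obtain ⟨u, hu1, hu2, hu3, hu4, hu5⟩ := nm_u (E := E) hh hN
  obtain ⟨k1, k2⟩ := nm_K hh κ
  rw [hu3, mul_div_assoc 2, hu2]
  have e1 : x0 h * KK h κ * c - x0 h * (2 * m + 1) / 2 =
      x0 h * (((KK h κ : ℝ) * c - m) - 1 / 2) := by
    ring
  rw [e1, abs_mul, abs_of_nonneg x1]
  have e3 : |((KK h κ : ℝ) * c - m) - 1 / 2| ≤ 7 * ((h : ℝ) ^ 4 + 1) := by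
    refine (abs_sub _ _).trans ?_
    have e4 : |(1 / 2 : ℝ)| = 1 / 2 := abs_of_pos (by norm_num)
    rw [e4]
    have h4 : (0 : ℝ) ≤ (h : ℝ) ^ 4 := by positivity
    linarith
  have e2 := mul_le_mul_of_nonneg_left e3 x1
  have := nm_fin hh u hu1
  linarith

theorem nm_sq {m h E : ℕ} (hh : 10 ^ 10 ≤ h) (hN : h ^ (E + 60) ≤ 2 * m + 1) (c : ℝ)
    (hc : (2 * m + 1) - 15 * ((KK h 0 * KK h 1 * KK h 2 : ℕ) : ℝ) ≤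
      ((KK h 0 * KK h 1 * KK h 2 : ℕ) : ℝ) * c) :
    (2 * m + 1) / (h : ℝ) ^ 13 + 2 * (2 * m + 1) / (h : ℝ) ^ (E + 20) ≤
      x0 h ^ 3 * ((KK h 0 * KK h 1 * KK h 2 : ℕ) : ℝ) * c := by
  refine nm_fin13 hh hN _ c ?_ hc
  rw [nm_P hh]
  have hH : (10 : ℝ) ^ 10 ≤ (h : ℝ) := by exact_mod_cast hh
  have hH1 : (1 : ℝ) ≤ (h : ℝ) := le_trans (by norm_num) hH
  have e1 : ((h : ℝ) ^ 4 - 1) * ((h : ℝ) ^ 4 + 1) * (h : ℝ) ^ 4 = (h : ℝ) ^ 12 - (h : ℝ) ^ 4 := by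
    ring
  rw [e1]
  have e2 : (h : ℝ) ^ 13 = (h : ℝ) * (h : ℝ) ^ 12 := by ring
  rw [e2]
  have e3 : (30 : ℝ) * (h : ℝ) ^ 12 ≤ (h : ℝ) * (h : ℝ) ^ 12 :=
    mul_le_mul_of_nonneg_right (le_trans (by norm_num) hH) (by positivity)
  have e4 : (0 : ℝ) ≤ (h : ℝ) ^ 4 := by positivity
  linarith

theorem nm_se {m h E : ℕ} (hh : 10 ^ 10 ≤ h) (hN : h ^ (E + 60) ≤ 2 * m + 1) (κ : Fin 3) (c : ℝ)
    (hc : (2 * m + 1) - 14 * ((∏ κ' ∈ univ.erase κ, KK h κ' : ℕ) : ℝ) ≤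
      ((∏ κ' ∈ univ.erase κ, KK h κ' : ℕ) : ℝ) * c) :
    (2 * m + 1) / (h : ℝ) ^ 13 + 2 * (2 * m + 1) / (h : ℝ) ^ (E + 20) ≤
      x0 h ^ 3 * ((∏ κ' ∈ univ.erase κ, KK h κ' : ℕ) : ℝ) * c := by
  obtain ⟨p1, p2⟩ := nm_P2 hh κ
  have hP0 : (0 : ℝ) ≤ ((∏ κ' ∈ univ.erase κ, KK h κ' : ℕ) : ℝ) := Nat.cast_nonneg _
  refine nm_fin13 hh hN _ c ?_ (by linarith)
  have hH : (10 : ℝ) ^ 10 ≤ (h : ℝ) := by exact_mod_cast hh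
  have hH1 : (1 : ℝ) ≤ (h : ℝ) := le_trans (by norm_num) hH
  have e2 : (60 : ℝ) ≤ (h : ℝ) ^ 5 := by
    calc (60 : ℝ) ≤ (h : ℝ) := le_trans (by norm_num) hH
      _ = (h : ℝ) ^ 1 := (pow_one _).symm
      _ ≤ (h : ℝ) ^ 5 := pow_le_pow_right₀ hH1 (by norm_num)
  have e3 : (60 : ℝ) * (h : ℝ) ^ 8 ≤ (h : ℝ) ^ 5 * (h : ℝ) ^ 8 :=
    mul_le_mul_of_nonneg_right e2 (by positivity)
  have e4 : (h : ℝ) ^ 13 = (h : ℝ) ^ 5 * (h : ℝ) ^ 8 := by ring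
  rw [e4]
  linarith

theorem nm_bk {m h E : ℕ} (hh : 10 ^ 10 ≤ h) (hN : h ^ (E + 60) ≤ 2 * m + 1) (c : ℝ)
    (hc : |((KK h 0 * KK h 1 * KK h 2 : ℕ) : ℝ) * c - (2 * m + 1) ^ 2 / 2| ≤
      14 * (2 * m + 1) * ((KK h 0 * KK h 1 * KK h 2 : ℕ) : ℝ)) :
    |x0 h * c - x0 h * (2 * m + 1) ^ 2 / (2 * ((KK h 0 * KK h 1 * KK h 2 : ℕ) : ℝ))| +
      (2 * m + 1) ^ 2 / (h : ℝ) ^ (E + 20) ≤ (2 * m + 1) ^ 2 / (h : ℝ) ^ E := by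
  obtain ⟨x1, x2, x3, x4⟩ := nm_x0 hh
  obtain ⟨u, hu1, hu2, hu3, hu4, hu5⟩ := nm_u (E := E) hh hN
  have hH : (10 : ℝ) ^ 10 ≤ (h : ℝ) := by exact_mod_cast hh
  have hH1 : (1 : ℝ) ≤ (h : ℝ) := le_trans (by norm_num) hH
  have hP : (0 : ℝ) < ((KK h 0 * KK h 1 * KK h 2 : ℕ) : ℝ) := by
    rw [nm_P hh]
    have h4 : (1 : ℝ) < (h : ℝ) ^ 4 := by
      calc (1 : ℝ) < (h : ℝ) := lt_of_lt_of_le (by norm_num) hH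
        _ = (h : ℝ) ^ 1 := (pow_one _).symm
        _ ≤ (h : ℝ) ^ 4 := pow_le_pow_right₀ hH1 (by norm_num)
    have h5 : (0 : ℝ) < (h : ℝ) ^ 4 - 1 := by linarith
    positivity
  set P : ℝ := ((KK h 0 * KK h 1 * KK h 2 : ℕ) : ℝ) with hPd
  set N : ℝ := 2 * (m : ℝ) + 1 with hNd
  have hN0 : 0 ≤ N := by positivity
  have e1 : N ^ 2 / (h : ℝ) ^ (E + 20) = N * u := by
    rw [pow_two, mul_div_assoc, hu2]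
  have e2 : N ^ 2 / (h : ℝ) ^ E = N * ((h : ℝ) ^ 20 * u) := by
    rw [pow_two, mul_div_assoc, hu3]
  rw [e1, e2]
  have e3 : x0 h * c - x0 h * N ^ 2 / (2 * P) = x0 h * ((P * c - N ^ 2 / 2) / P) := by
    field_simp
  rw [e3, abs_mul, abs_of_nonneg x1, abs_div, abs_of_pos hP]
  have e4 : |P * c - N ^ 2 / 2| / P ≤ 14 * N := by
    rw [div_le_iff₀ hP]
    exact hc
  have e5 : x0 h * (|P * c - N ^ 2 / 2| / P) ≤ (1 / 1000) * (14 * N) :=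
    mul_le_mul x4 e4 (by positivity) (by norm_num)
  have e6 := nm_fin hh u hu1
  have e7 : N * (1 + 2 * u) ≤ N * ((h : ℝ) ^ 20 * u) := mul_le_mul_of_nonneg_left e6 hN0
  have e8 : 0 ≤ N * u := mul_nonneg hN0 (by linarith)
  nlinarith

theorem nm_bl {m h E : ℕ} (hh : 10 ^ 10 ≤ h) (hN : h ^ (E + 60) ≤ 2 * m + 1) (κ : Fin 3) (c : ℝ)
    (hc : ((∏ κ' ∈ univ.erase κ, KK h κ' : ℕ) : ℝ) * c ≤
      (2 * m + 1) + 6 * ((∏ κ' ∈ univ.erase κ, KK h κ' : ℕ) : ℝ)) :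
    x0 h * c + 2 * (2 * m + 1) / (h : ℝ) ^ (E + 20) ≤ 3 * x0 h * (2 * m + 1) / (h : ℝ) ^ 8 := by
  obtain ⟨x1, x2, x3, x4⟩ := nm_x0 hh
  obtain ⟨u, hu1, hu2, hu3, hu4, hu5⟩ := nm_u (E := E) hh hN
  obtain ⟨p1, p2⟩ := nm_P2 hh κ
  have hH : (10 : ℝ) ^ 10 ≤ (h : ℝ) := by exact_mod_cast hh
  have hH0 : (0 : ℝ) < (h : ℝ) := lt_of_lt_of_le (by norm_num) hH
  rw [mul_div_assoc, hu2]
  set P2 : ℝ := ((∏ κ' ∈ univ.erase κ, KK h κ' : ℕ) : ℝ) with hP2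
  set N : ℝ := 2 * (m : ℝ) + 1 with hNd
  have hN0 : 0 ≤ N := by positivity
  have h8 : (0 : ℝ) < (h : ℝ) ^ 8 := pow_pos hH0 _
  have hP : 0 < P2 := by linarith
  have e1 : c ≤ 2 * (N / (h : ℝ) ^ 8) + 6 := by
    have e2 : P2 * (c - 6) ≤ P2 * (2 * (N / (h : ℝ) ^ 8)) := by
      have e3 : N ≤ P2 * (2 * (N / (h : ℝ) ^ 8)) := by
        have e4 : (h : ℝ) ^ 8 / 2 * (2 * (N / (h : ℝ) ^ 8)) = N := by field_simp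
        calc N = (h : ℝ) ^ 8 / 2 * (2 * (N / (h : ℝ) ^ 8)) := e4.symm
          _ ≤ P2 * (2 * (N / (h : ℝ) ^ 8)) := mul_le_mul_of_nonneg_right p1 (by positivity)
      nlinarith
    have e5 := le_of_mul_le_mul_left e2 hP
    linarith
  have e6 := nm_fin8 (m := m) hh u hu1 hu4
  have e7 : x0 h * c ≤ x0 h * (2 * (N / (h : ℝ) ^ 8) + 6) := mul_le_mul_of_nonneg_left e1 x1
  have e8 : 3 * x0 h * N / (h : ℝ) ^ 8 = 2 * (x0 h * N / (h : ℝ) ^ 8) + x0 h * N / (h : ℝ) ^ 8 := by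
    ring
  have e9 : x0 h * (2 * (N / (h : ℝ) ^ 8) + 6) = 2 * (x0 h * N / (h : ℝ) ^ 8) + 6 * x0 h := by
    ring
  rw [e8]
  linarith

theorem nm_be {m h E : ℕ} (hh : 10 ^ 10 ≤ h) (hN : h ^ (E + 60) ≤ 2 * m + 1) (κ : Fin 3) (c : ℝ)
    (hc : ((KK h 0 * KK h 1 * KK h 2 : ℕ) : ℝ) * c ≤
      (2 * m + 1) + 3 * ((KK h 0 * KK h 1 * KK h 2 : ℕ) : ℝ)) :
    x0 h * KK h κ * c + 2 * (2 * m + 1) / (h : ℝ) ^ (E + 20) ≤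
      3 * x0 h * (2 * m + 1) / (h : ℝ) ^ 8 := by
  obtain ⟨x1, x2, x3, x4⟩ := nm_x0 hh
  obtain ⟨u, hu1, hu2, hu3, hu4, hu5⟩ := nm_u (E := E) hh hN
  obtain ⟨p1, p2⟩ := nm_P2 hh κ
  obtain ⟨k1, k2⟩ := nm_K hh κ
  rw [← nm_erase (h := h) κ] at hc
  have hH : (10 : ℝ) ^ 10 ≤ (h : ℝ) := by exact_mod_cast hh
  have hH0 : (0 : ℝ) < (h : ℝ) := lt_of_lt_of_le (by norm_num) hH
  rw [mul_div_assoc 2, hu2]
  set P2 : ℝ := ((∏ κ' ∈ univ.erase κ, KK h κ' : ℕ) : ℝ) with hP2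
  set K : ℝ := (KK h κ : ℝ) with hK
  set N : ℝ := 2 * (m : ℝ) + 1 with hNd
  have hN0 : 0 ≤ N := by positivity
  have h8 : (0 : ℝ) < (h : ℝ) ^ 8 := pow_pos hH0 _
  have hP : 0 < P2 := by linarith
  have e1 : K * c ≤ 2 * (N / (h : ℝ) ^ 8) + 3 * K := by
    have e2 : P2 * (K * c - 3 * K) ≤ P2 * (2 * (N / (h : ℝ) ^ 8)) := by
      have e3 : N ≤ P2 * (2 * (N / (h : ℝ) ^ 8)) := by
        have e4 : (h : ℝ) ^ 8 / 2 * (2 * (N / (h : ℝ) ^ 8)) = N := by field_simp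
        calc N = (h : ℝ) ^ 8 / 2 * (2 * (N / (h : ℝ) ^ 8)) := e4.symm
          _ ≤ P2 * (2 * (N / (h : ℝ) ^ 8)) := mul_le_mul_of_nonneg_right p1 (by positivity)
      have e5 : P2 * (K * c - 3 * K) = K * P2 * c - 3 * (K * P2) := by ring
      rw [e5]
      linarith
    have e5 := le_of_mul_le_mul_left e2 hP
    linarith
  have e6 := nm_fin8 (m := m) hh u hu1 hu4
  have e7 : x0 h * (K * c) ≤ x0 h * (2 * (N / (h : ℝ) ^ 8) + 3 * K) :=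
    mul_le_mul_of_nonneg_left e1 x1
  have e8 : 3 * x0 h * N / (h : ℝ) ^ 8 = 2 * (x0 h * N / (h : ℝ) ^ 8) + x0 h * N / (h : ℝ) ^ 8 := by
    ring
  have e9 : x0 h * (2 * (N / (h : ℝ) ^ 8) + 3 * K) =
      2 * (x0 h * N / (h : ℝ) ^ 8) + x0 h * (3 * K) := by
    ring
  have e10 : x0 h * (3 * K) ≤ x0 h * (7 * ((h : ℝ) ^ 4 + 1)) := by
    refine mul_le_mul_of_nonneg_left ?_ x1
    have h4 : (0 : ℝ) ≤ (h : ℝ) ^ 4 := by positivity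
    linarith
  rw [e8, mul_assoc (x0 h) K c]
  linarith

end H77.LT.Rsv
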