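import Pool.Agent.H73.LT.RsvE

/-!
# [H73 LT RSVT] Translation of the statistics, expectations (MP_0b346b_co)

Definitions in `RsvE`. `T ⊆ E0 h F` implies that every entry of `XE T` is admissible (`Adm`).

Proofs. `tr_*`: the filters are in bijection (for the entries of a line `e ↦ e.2.2`, `s ↦ (κ,l,s)`; for a symbol `e ↦ e.2.1`);
`aC q ⊆ T` iff `inl q ∈ T` iff `q ∈ XQ T`, and so on. `mean_*`: `mean` is a sum of equal products: the product over `aSq q s`
is `∏ κ, x0 h * KK h κ` (`Finset.prod_image`, injective in `κ`; `Fin.prod_univ_three`), over `aSe κ s q` it is `x0 h` times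
`∏ κ' ∈ univ.erase κ, x0 h * KK h κ'` (`prod_insert`, `inl` is not an `inr`; `univ.erase κ` has two elements).
-/

open Finset

namespace H77.LT.Rsv

variable {m n : ℕ}

theorem xe_adm {h : ℕ} {F : Finset (Fin 3 × Fin m × Fin n)} {T : Finset (Vt m n)}
    (hT : T ⊆ E0 h F) {e : Fin 3 × Fin m × Fin n} (he : e ∈ XE T) : Adm h F e := by
  have h1 : (Sum.inr e : Vt m n) ∈ T := by simpa [XE] using he
  have h2 := hT h1
  simpa [E0, cels, ents] using h2

theorem rsvt_mem_xq (T : Finset (Vt m n)) (q : Cell m) : q ∈ XQ T ↔ (Sum.inl q : Vt m n) ∈ T := by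
  simp [XQ]

theorem rsvt_mem_xe (T : Finset (Vt m n)) (e : Fin 3 × Fin m × Fin n) :
    e ∈ XE T ↔ (Sum.inr e : Vt m n) ∈ T := by
  simp [XE]

theorem tr_ql (T : Finset (Vt m n)) (κ : Fin 3) (l : Fin m) :
    ((XQ T).filter (fun q => ln κ q = l)).card = cnt (sQl κ l) aC T := by
  unfold cnt
  congr 1
  ext q
  simp only [mem_filter, rsvt_mem_xq, sQl, aC, mem_univ, true_and, singleton_subset_iff]
  tauto

theorem tr_bk (h : ℕ) (T : Finset (Vt m n)) (b : Fin 3 → ℕ) :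
    ((XQ T).filter (fun q => blc h q = b)).card = cnt (sBk h b) aC T := by
  unfold cnt
  congr 1
  ext q
  simp only [mem_filter, rsvt_mem_xq, sBk, aC, mem_univ, true_and, singleton_subset_iff]
  tauto

theorem tr_bl (h : ℕ) (T : Finset (Vt m n)) (κ : Fin 3) (l : Fin m) (b : Fin 3 → ℕ) :
    ((XQ T).filter (fun q => blc h q = b ∧ ln κ q = l)).card = cnt (sBl h κ l b) aC T := by
  unfold cnt
  congr 1
  ext q
  simp only [mem_filter, rsvt_mem_xq, sBl, aC, mem_univ, true_and, singleton_subset_iff]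
  tauto

theorem tr_el {h : ℕ} {F : Finset (Fin 3 × Fin m × Fin n)} {T : Finset (Vt m n)}
    (hT : T ⊆ E0 h F) (κ : Fin 3) (l : Fin m) :
    ((XE T).filter (fun e => e.1 = κ ∧ e.2.1 = l)).card = cnt (sEl h F κ l) (aEl κ l) T := by
  unfold cnt
  have hinj : Function.Injective (fun s : Fin n => ((κ, l, s) : Fin 3 × Fin m × Fin n)) := by
    intro s s' hs
    simpa using hs
  rw [← card_image_of_injective _ hinj]
  congr 1
  ext e
  obtain ⟨κ', l', s'⟩ := e
  simp only [mem_filter, rsvt_mem_xe, sEl, aEl, mem_univ, true_and, singleton_subset_iff,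
    mem_image, Prod.mk.injEq]
  constructor
  · rintro ⟨h1, rfl, rfl⟩
    exact ⟨s', ⟨xe_adm hT ((rsvt_mem_xe T _).2 h1), h1⟩, rfl, rfl, rfl⟩
  · rintro ⟨s, ⟨_, h2⟩, rfl, rfl, rfl⟩
    exact ⟨h2, rfl, rfl⟩

theorem tr_es {h : ℕ} {F : Finset (Fin 3 × Fin m × Fin n)} {T : Finset (Vt m n)}
    (hT : T ⊆ E0 h F) (κ : Fin 3) (s : Fin n) :
    ((XE T).filter (fun e => e.1 = κ ∧ e.2.2 = s)).card = cnt (sEs h F κ s) (aEs κ s) T := by
  unfold cnt
  have hinj : Function.Injective (fun l : Fin m => ((κ, l, s) : Fin 3 × Fin m × Fin n)) := by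
    intro l l' hs
    simpa using hs
  rw [← card_image_of_injective _ hinj]
  congr 1
  ext e
  obtain ⟨κ', l', s'⟩ := e
  simp only [mem_filter, rsvt_mem_xe, sEs, aEs, mem_univ, true_and, singleton_subset_iff,
    mem_image, Prod.mk.injEq]
  constructor
  · rintro ⟨h1, rfl, rfl⟩
    exact ⟨l', ⟨xe_adm hT ((rsvt_mem_xe T _).2 h1), h1⟩, rfl, rfl, rfl⟩
  · rintro ⟨l, ⟨_, h2⟩, rfl, rfl, rfl⟩
    exact ⟨h2, rfl, rfl⟩

theorem tr_sq {h : ℕ} {F : Finset (Fin 3 × Fin m × Fin n)} {T : Finset (Vt m n)}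
    (hT : T ⊆ E0 h F) (q : Cell m) :
    (univ.filter (fun s : Fin n => ∀ κ, (κ, ln κ q, s) ∈ XE T)).card =
      cnt (sSq h F q) (aSq q) T := by
  unfold cnt
  congr 1
  ext s
  simp only [mem_filter, sSq, mem_univ, true_and]
  constructor
  · intro h1
    refine ⟨fun κ => xe_adm hT (h1 κ), ?_⟩
    intro v hv
    obtain ⟨κ, _, rfl⟩ := mem_image.1 hv
    exact (rsvt_mem_xe T _).1 (h1 κ)
  · rintro ⟨_, h2⟩ κ
    exact (rsvt_mem_xe T _).2 (h2 (mem_image_of_mem _ (mem_univ κ)))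

theorem tr_se {h : ℕ} {F : Finset (Fin 3 × Fin m × Fin n)} {T : Finset (Vt m n)}
    (hT : T ⊆ E0 h F) (κ : Fin 3) (l : Fin m) (s : Fin n) :
    ((XQ T).filter (fun q => ln κ q = l ∧ ∀ κ', κ' ≠ κ → (κ', ln κ' q, s) ∈ XE T)).card =
      cnt (sSe h F κ l s) (aSe κ s) T := by
  unfold cnt
  congr 1
  ext q
  simp only [mem_filter, sSe, mem_univ, true_and, rsvt_mem_xq]
  constructor
  · rintro ⟨h1, h2, h3⟩
    refine ⟨⟨h2, fun κ' hκ' => xe_adm hT (h3 κ' hκ')⟩, ?_⟩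
    intro v hv
    rcases mem_insert.1 hv with rfl | hv
    · exact h1
    · obtain ⟨κ', hκ', rfl⟩ := mem_image.1 hv
      exact (rsvt_mem_xe T _).1 (h3 κ' (ne_of_mem_erase hκ'))
  · rintro ⟨⟨h2, _⟩, h3⟩
    refine ⟨h3 (mem_insert_self _ _), h2,
      fun κ' hκ' => (rsvt_mem_xe T _).2 (h3 (mem_insert_of_mem ?_))⟩
    exact mem_image_of_mem _ (mem_erase.2 ⟨hκ', mem_univ _⟩)

theorem tr_be {h : ℕ} {F : Finset (Fin 3 × Fin m × Fin n)} {T : Finset (Vt m n)}
    (hT : T ⊆ E0 h F) (κ : Fin 3) (l : Fin m) (b : Fin 3 → ℕ) :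
    (univ.filter (fun s : Fin n => bls h s = b ∧ (κ, l, s) ∈ XE T)).card =
      cnt (sBe h F κ l b) (aEl κ l) T := by
  unfold cnt
  congr 1
  ext s
  simp only [mem_filter, sBe, aEl, mem_univ, true_and, singleton_subset_iff]
  constructor
  · rintro ⟨h1, h2⟩
    exact ⟨⟨h1, xe_adm hT h2⟩, (rsvt_mem_xe T _).1 h2⟩
  · rintro ⟨⟨h1, _⟩, h2⟩
    exact ⟨h1, (rsvt_mem_xe T _).2 h2⟩

theorem mean_C (h : ℕ) (s : Finset (Cell m)) :
    mean (pp h) s (aC (n := n)) = x0 h * s.card := by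
  simp [mean, aC, pp, mul_comm]

theorem mean_El (h : ℕ) (κ : Fin 3) (l : Fin m) (s : Finset (Fin n)) :
    mean (pp h) s (aEl κ l) = x0 h * KK h κ * s.card := by
  simp [mean, aEl, pp, mul_comm]

theorem mean_Es (h : ℕ) (κ : Fin 3) (s : Fin n) (t : Finset (Fin m)) :
    mean (pp h) t (aEs κ s) = x0 h * KK h κ * t.card := by
  simp [mean, aEs, pp, mul_comm]

theorem mean_Sq (h : ℕ) (q : Cell m) (s : Finset (Fin n)) :
    mean (pp h) s (aSq q) = x0 h ^ 3 * ((KK h 0 * KK h 1 * KK h 2 : ℕ) : ℝ) * s.card := by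
  have h1 : ∀ j ∈ s, ∏ v ∈ aSq q j, pp h v =
      x0 h ^ 3 * ((KK h 0 * KK h 1 * KK h 2 : ℕ) : ℝ) := by
    intro j _
    unfold aSq
    rw [prod_image (by
      intro a _ b _ hab
      simp only [Sum.inr.injEq, Prod.mk.injEq] at hab
      exact hab.1), Fin.prod_univ_three]
    simp only [pp]
    push_cast
    ring
  unfold mean
  rw [sum_congr rfl h1, sum_const, nsmul_eq_mul]
  ring

theorem mean_Se (h : ℕ) (κ : Fin 3) (s : Fin n) (t : Finset (Cell m)) :
    mean (pp h) t (aSe κ s) = x0 h ^ 3 * ((∏ κ' ∈ univ.erase κ, KK h κ' : ℕ) : ℝ) * t.card := by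
  have h1 : ∀ q ∈ t, ∏ v ∈ aSe κ s q, pp h v =
      x0 h ^ 3 * ((∏ κ' ∈ univ.erase κ, KK h κ' : ℕ) : ℝ) := by
    intro q _
    unfold aSe
    rw [prod_insert (by simp), prod_image (by
      intro a _ b _ hab
      simp only [Sum.inr.injEq, Prod.mk.injEq] at hab
      exact hab.1)]
    simp only [pp]
    rw [prod_mul_distrib, prod_const, card_erase_of_mem (mem_univ κ), card_univ, Fintype.card_fin]
    push_cast
    ring
  unfold mean
  rw [sum_congr rfl h1, sum_const, nsmul_eq_mul]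
  ring

end H77.LT.Rsv
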