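import Pool.Agent.H73.LT.RsvD
import Pool.Agent.H73.LT.RsvF
import Pool.Agent.H73.LT.RsvT
import Pool.Agent.H73.LT.RsvGB
import Pool.Agent.H73.LT.RsvN

/-!
# [H73 LT RSVM] The reserve: assembly (MP_0b346b_co)
-/

open Finset

namespace H77.LT.Rsv

variable {m n : ℕ}

/-- the blocks -/
def blks (h : ℕ) : Finset (Fin 3 → ℕ) := Fintype.piFinset (fun κ => range (KK h κ))

theorem mem_blks {h : ℕ} {b : Fin 3 → ℕ} : b ∈ blks h ↔ IsBlk h b := by
  unfold blks IsBlk
  rw [Fintype.mem_piFinset]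
  simp only [mem_range]

theorem card_blks (h : ℕ) : (blks h).card = KK h 0 * KK h 1 * KK h 2 := by
  unfold blks
  rw [Fintype.card_piFinset, Fin.prod_univ_three]
  simp only [card_range]

/-- one family -/
private theorem rsvM_fam {J K : Type} {h : ℕ} {F : Finset (Fin 3 × Fin m × Fin n)}
    (hh : 1 ≤ h) {S k N e : ℝ} (hk : 1 ≤ k) (hN : 1 ≤ N) (hS : 2 * N ≤ S)
    (he : e = Real.exp (-(2 * N / (24 * k ^ 2)))) (Js : Finset J) (hJ : (Js.card : ℝ) ≤ 6 * N ^ 3)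
    (s : J → Finset K) (A : J → K → Finset (Vt m n)) (hA : ∀ j ∈ Js, Cf (E0 h F) S (s j) (A j)) :
    Pr (E0 h F) (pp h) (fun T => ∃ j ∈ Js,
      S / k ≤ |(cnt (s j) (A j) T : ℝ) - mean (pp h) (s j) (A j)|) ≤ 12 * N ^ 3 * e := by
  refine (fam_dev (E0 h F) (pp h) (fun v _ => pp_mem hh v) (by linarith) hk Js s A hA).trans ?_
  have h1 : Real.exp (-(S / (24 * k ^ 2))) ≤ e := by
    rw [he]
    apply Real.exp_le_exp.2
    apply neg_le_neg
    apply div_le_div_of_nonneg_right hS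
    positivity
  have h2 : 0 ≤ Real.exp (-(S / (24 * k ^ 2))) := (Real.exp_pos _).le
  calc (Js.card : ℝ) * (2 * Real.exp (-(S / (24 * k ^ 2)))) ≤ (6 * N ^ 3) * (2 * e) := by
        gcongr
    _ = 12 * N ^ 3 * e := by ring

theorem good_exists (E : ℕ) : ∃ h0 : ℕ, ∀ (m n h : ℕ) (F : Finset (Fin 3 × Fin m × Fin n)),
    h0 ≤ h → h ^ (4 * (E + 20) + 60) ≤ 2 * m + 1 → n ≤ 2 * m + 3 →
    ∃ T : Finset (Vt m n), Good m n h F ((h : ℝ) ^ (E + 20)) T := by
  obtain ⟨h0, hexp⟩ := nd_exp E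
  refine ⟨h0 + 2, ?_⟩
  intro m n h F hh hN hn
  have hh1 : 1 ≤ h := by omega
  have hN1 : h ^ (4 * (E + 20)) ≤ 2 * m + 1 := (Nat.pow_le_pow_right hh1 (by omega)).trans hN
  have hN2 : h ^ 60 ≤ 2 * m + 1 := (Nat.pow_le_pow_right hh1 (by omega)).trans hN
  have hm : 1 ≤ m := by
    have h1 : 2 ≤ h := by omega
    have h2 : h ^ 1 ≤ h ^ 60 := Nat.pow_le_pow_right hh1 (by omega)
    rw [pow_one] at h2
    omega
  have hmR : (1 : ℝ) ≤ m := by exact_mod_cast hm
  obtain ⟨N, hNe⟩ : ∃ N : ℝ, N = 2 * (m : ℝ) + 1 := ⟨_, rfl⟩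
  have hN3 : 3 ≤ N := by linarith
  have hNm : (m : ℝ) ≤ N := by linarith
  have hNn : (n : ℝ) ≤ 2 * N := by
    have : (n : ℝ) ≤ 2 * m + 3 := by exact_mod_cast hn
    linarith
  obtain ⟨k, hk⟩ : ∃ k : ℝ, k = (h : ℝ) ^ (E + 20) := ⟨_, rfl⟩
  have hk1 : 1 ≤ k := by
    rw [hk]
    exact one_le_pow₀ (by exact_mod_cast hh1)
  obtain ⟨e, he⟩ : ∃ e : ℝ, e = Real.exp (-(2 * N / (24 * k ^ 2))) := ⟨_, rfl⟩
  have he1 : 100 * N ^ 3 * e < 1 := by
    have := hexp (2 * m + 1) h (by omega) hN1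
    rw [he, hNe, hk]
    push_cast at this
    exact this
  have hP : ((KK h 0 * KK h 1 * KK h 2 : ℕ) : ℝ) ≤ N := by
    have := nd_blk hh1 hN2
    rw [hNe]
    exact_mod_cast this
  have hN0 : 0 ≤ N := by linarith
  have hNN : 1 ≤ N := by linarith
  have hN33 : N ≤ N ^ 3 := by
    calc N = N ^ 1 := (pow_one N).symm
      _ ≤ N ^ 3 := pow_le_pow_right₀ hNN (by norm_num)
  have hN23 : N ^ 2 ≤ N ^ 3 := pow_le_pow_right₀ hNN (by norm_num)
  have hS2 : 2 * N ≤ N ^ 2 := by nlinarith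
  have j0 : (((univ : Finset (Fin 3 × Fin m)).card : ℕ) : ℝ) ≤ 6 * N ^ 3 := by
    rw [card_univ, Fintype.card_prod, Fintype.card_fin, Fintype.card_fin]
    push_cast
    linarith
  have j1 : (((univ : Finset (Fin 3 × Fin n)).card : ℕ) : ℝ) ≤ 6 * N ^ 3 := by
    rw [card_univ, Fintype.card_prod, Fintype.card_fin, Fintype.card_fin]
    push_cast
    linarith
  have j2 : (((univ : Finset (Cell m)).card : ℕ) : ℝ) ≤ 6 * N ^ 3 := by
    rw [card_univ, card_cell]
    have h1 : m * (2 * m - 1) ≤ m * (2 * m + 1) := Nat.mul_le_mul_left _ (by omega)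
    have h2 : ((m * (2 * m - 1) : ℕ) : ℝ) ≤ m * (2 * m + 1) := by exact_mod_cast h1
    have h3 : (m : ℝ) * (2 * m + 1) ≤ N * N := by
      rw [← hNe]
      exact mul_le_mul_of_nonneg_right hNm hN0
    nlinarith
  have j3 : (((univ : Finset (Fin 3 × Fin m × Fin n)).card : ℕ) : ℝ) ≤ 6 * N ^ 3 := by
    rw [card_univ, Fintype.card_prod, Fintype.card_prod, Fintype.card_fin, Fintype.card_fin,
      Fintype.card_fin]
    push_cast
    have h1 : (m : ℝ) * n ≤ N * (2 * N) := mul_le_mul hNm hNn (by positivity) hN0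
    nlinarith
  have j4 : (((blks h).card : ℕ) : ℝ) ≤ 6 * N ^ 3 := by
    rw [card_blks]
    linarith
  have j5 : ((((univ : Finset (Fin 3 × Fin m)) ×ˢ blks h).card : ℕ) : ℝ) ≤ 6 * N ^ 3 := by
    rw [card_product, card_blks, card_univ, Fintype.card_prod, Fintype.card_fin, Fintype.card_fin,
      Nat.cast_mul]
    have h1 : ((3 * m : ℕ) : ℝ) ≤ 3 * N := by
      push_cast
      linarith
    have h2 : ((3 * m : ℕ) : ℝ) * ((KK h 0 * KK h 1 * KK h 2 : ℕ) : ℝ) ≤ (3 * N) * N :=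
      mul_le_mul h1 hP (by positivity) (by linarith)
    nlinarith
  have b0 := rsvM_fam (F := F) (S := 2 * N) hh1 hk1 hNN le_rfl he univ j0
    (fun j : Fin 3 × Fin m => sQl j.1 j.2) (fun _ => aC) (fun j _ => by
      rw [hNe]
      exact cf_ql h F j.1 j.2)
  have b1 := rsvM_fam (F := F) (S := 2 * N) hh1 hk1 hNN le_rfl he univ j0
    (fun j : Fin 3 × Fin m => sEl h F j.1 j.2) (fun j => aEl j.1 j.2) (fun j _ => by
      rw [hNe]
      exact cf_el h F hn j.1 j.2)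
  have b2 := rsvM_fam (F := F) (S := 2 * N) hh1 hk1 hNN le_rfl he univ j1
    (fun j : Fin 3 × Fin n => sEs h F j.1 j.2) (fun j => aEs j.1 j.2) (fun j _ => by
      rw [hNe]
      exact cf_es h F j.1 j.2)
  have b3 := rsvM_fam (F := F) (S := 2 * N) hh1 hk1 hNN le_rfl he univ j2
    (fun q : Cell m => sSq h F q) (fun q => aSq q) (fun q _ => by
      rw [hNe]
      exact cf_sq h F hn q)
  have b4 := rsvM_fam (F := F) (S := 2 * N) hh1 hk1 hNN le_rfl he univ j3
    (fun j : Fin 3 × Fin m × Fin n => sSe h F j.1 j.2.1 j.2.2) (fun j => aSe j.1 j.2.2)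
    (fun j _ => by
      rw [hNe]
      exact cf_se h F j.1 j.2.1 j.2.2)
  have b5 := rsvM_fam (F := F) (S := N ^ 2) hh1 hk1 hNN hS2 he (blks h) j4
    (fun b => sBk (m := m) h b) (fun _ => aC) (fun b _ => by
      rw [hNe]
      exact cf_bk h F b)
  have b6 := rsvM_fam (F := F) (S := 2 * N) hh1 hk1 hNN le_rfl he (univ ×ˢ blks h) j5
    (fun j : (Fin 3 × Fin m) × (Fin 3 → ℕ) => sBl h j.1.1 j.1.2 j.2) (fun _ => aC)
    (fun j _ => by
      rw [hNe]
      exact cf_bl h F j.1.1 j.1.2 j.2)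
  have b7 := rsvM_fam (F := F) (S := 2 * N) hh1 hk1 hNN le_rfl he (univ ×ˢ blks h) j5
    (fun j : (Fin 3 × Fin m) × (Fin 3 → ℕ) => sBe h F j.1.1 j.1.2 j.2)
    (fun j => aEl j.1.1 j.1.2) (fun j _ => by
      rw [hNe]
      exact cf_be h F hn j.1.1 j.1.2 j.2)
  obtain ⟨T, hT, hgood⟩ := exists_avoid (E0 h F) (pp h) (fun v _ => pp_mem hh1 v)
    (univ : Finset (Fin 8)) ![_, _, _, _, _, _, _, _] (by
      rw [Fin.sum_univ_eight]
      have := add_le_add (add_le_add (add_le_add (add_le_add (add_le_add (add_le_add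
        (add_le_add b0 b1) b2) b3) b4) b5) b6) b7
      refine lt_of_le_of_lt this ?_
      linarith)
  have g0 := hgood 0 (mem_univ _)
  have g1 := hgood 1 (mem_univ _)
  have g2 := hgood 2 (mem_univ _)
  have g3 := hgood 3 (mem_univ _)
  have g4 := hgood 4 (mem_univ _)
  have g5 := hgood 5 (mem_univ _)
  have g6 := hgood 6 (mem_univ _)
  have g7 := hgood 7 (mem_univ _)
  simp only [Matrix.cons_val, not_exists, not_and, not_le] at g0 g1 g2 g3 g4 g5 g6 g7
  refine ⟨T, hT, ?_, ?_, ?_, ?_, ?_, ?_, ?_, ?_⟩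
  · intro κ l
    have := g0 (κ, l) (mem_univ _)
    rw [hNe, hk] at this
    exact this
  · intro κ l
    have := g1 (κ, l) (mem_univ _)
    rw [hNe, hk] at this
    exact this
  · intro κ s
    have := g2 (κ, s) (mem_univ _)
    rw [hNe, hk] at this
    exact this
  · intro q
    have := g3 q (mem_univ _)
    rw [hNe, hk] at this
    exact this
  · intro κ l s
    have := g4 (κ, l, s) (mem_univ _)
    rw [hNe, hk] at this
    exact this
  · intro b hb
    have := g5 b (mem_blks.2 hb)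
    rw [hNe, hk] at this
    exact this
  · intro κ l b hb
    have := g6 ((κ, l), b) (mem_product.2 ⟨mem_univ _, mem_blks.2 hb⟩)
    rw [hNe, hk] at this
    exact this
  · intro κ l b hb
    have := g7 ((κ, l), b) (mem_product.2 ⟨mem_univ _, mem_blks.2 hb⟩)
    rw [hNe, hk] at this
    exact this

end H77.LT.Rsv
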